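import Pool.Agent.Helper13.LT.Rta

/-!
PROJECT LT, everywhere convergent power series in several variables and the class `RT`: the class RT, products and determinants.

HOW TO WORK ON A FILE (captain helper13): replace the sorrys, change no statement; private lemmas or
lemmas whose name starts with the name of the file are fine; all statements of imported files may be
used although they still have sorry. If a statement is false or awkward tell helper13 at once.
-/

set_option autoImplicit false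

namespace Pool.Agent.Helper13.LT

open Finset Filter Topology
open Pool.Agent.Helper34.LT

variable {ι : Type} [Fintype ι]

private theorem Rtm_int {α : Type} (s : Finset α) (f : α → ℂ) (h : ∀ i ∈ s, ∃ a : ℤ, f i = a) :
    ∃ a : ℤ, ∑ i ∈ s, f i = a := by
  classical
  induction s using Finset.induction_on with
  | empty => exact ⟨0, by simp⟩
  | insert i s hi ih =>
    obtain ⟨a, ha⟩ := h i (Finset.mem_insert_self i s)
    obtain ⟨b, hb⟩ := ih fun j hj => h j (Finset.mem_insert_of_mem hj)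
    refine ⟨a + b, ?_⟩
    rw [Finset.sum_insert hi, ha, hb]
    push_cast
    rfl

/-- PROOF. `PS.mul`; `m! D^(|m|+k+k') ∑_(i+j=m) c_i d_j = ∑ (m! / (i! j!)) (i! D^(|i|+k) c_i) (j! D^(|j|+k') d_j)`,
the multinomial coefficients `∏ u, (m u).choose (i u)` are integers. -/
theorem RT.mul {D k k' : ℕ} (hD : 1 ≤ D) {f g : (ι → ℂ) → ℂ} (h : RT D k f) (h' : RT D k' g) :
    RT D (k + k') (fun z => f z * g z) := by
  obtain ⟨c, hc, hA⟩ := (RT_iff hD).1 h
  obtain ⟨d, hd, hB⟩ := (RT_iff hD).1 h'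
  refine (RT_iff hD).2 ⟨_, hc.mul hd, fun m => ?_⟩
  rw [cv, Finset.sum_mul]
  refine Rtm_int _ _ fun p hp => ?_
  rw [mem_adg] at hp
  obtain ⟨a, ha⟩ := hA p.1
  obtain ⟨b, hb⟩ := hB p.2
  refine ⟨a * b * ∏ u, (((p.1 u + p.2 u).choose (p.2 u) : ℕ) : ℤ), ?_⟩
  have h1 : ∀ u, m u = p.1 u + p.2 u := fun u => by rw [← hp]; rfl
  have h2 : ∏ u, ((m u).factorial : ℂ) = (∏ u, ((p.1 u).factorial : ℂ)) *
      (∏ u, ((p.2 u).factorial : ℂ)) * ∏ u, (((p.1 u + p.2 u).choose (p.2 u) : ℕ) : ℂ) := by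
    rw [← Finset.prod_mul_distrib, ← Finset.prod_mul_distrib]
    refine Finset.prod_congr rfl fun u _ => ?_
    rw [h1 u]
    have h3 := Nat.add_choose_mul_factorial_mul_factorial (p.1 u) (p.2 u)
    rw [← h3]
    push_cast
    ring
  have h4 : ∑ u, m u = ∑ u, p.1 u + ∑ u, p.2 u := by
    rw [← Finset.sum_add_distrib]
    exact Finset.sum_congr rfl fun u _ => h1 u
  have h5 : ∑ u, m u + (k + k') = (∑ u, p.1 u + k) + (∑ u, p.2 u + k') := by
    rw [h4]
    ring
  rw [h2, h5, pow_add]
  push_cast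
  rw [← ha, ← hb]
  ring

private theorem Rtm_one {D : ℕ} (hD : 1 ≤ D) : RT (ι := ι) D 0 (fun _ => (1 : ℂ)) := by
  have h1 := RT.const (ι := ι) hD 1
  simpa using h1

private theorem Rtm_zero {D k : ℕ} (hD : 1 ≤ D) : RT (ι := ι) D k (fun _ => (0 : ℂ)) := by
  have h1 := RT.mono hD hD dvd_rfl (Nat.zero_le k) (RT.const (ι := ι) hD 0)
  simpa using h1

theorem RT.pow {D k : ℕ} (hD : 1 ≤ D) {f : (ι → ℂ) → ℂ} (h : RT D k f) (n : ℕ) :
    RT D (k * n) (fun z => f z ^ n) := by
  induction n with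
  | zero => simpa using Rtm_one (ι := ι) hD
  | succ n ih =>
    have h1 := RT.mul hD ih h
    simpa only [pow_succ, Nat.mul_succ] using h1

theorem RT.sum {α : Type} (s : Finset α) {D k : ℕ} (hD : 1 ≤ D) {f : α → (ι → ℂ) → ℂ}
    (h : ∀ i ∈ s, RT D k (f i)) : RT D k (fun z => ∑ i ∈ s, f i z) := by
  classical
  induction s using Finset.induction_on with
  | empty => simpa using Rtm_zero (ι := ι) (k := k) hD
  | insert i s hi ih =>
    have h1 := RT.add hD (h i (Finset.mem_insert_self i s))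
      (ih fun j hj => h j (Finset.mem_insert_of_mem hj))
    simpa only [Finset.sum_insert hi] using h1

private theorem Rtm_prod {α : Type} (s : Finset α) {D : ℕ} (hD : 1 ≤ D) {f : α → (ι → ℂ) → ℂ}
    (h : ∀ i ∈ s, RT D 0 (f i)) : RT D 0 (fun z => ∏ i ∈ s, f i z) := by
  classical
  induction s using Finset.induction_on with
  | empty => simpa using Rtm_one (ι := ι) hD
  | insert i s hi ih =>
    have h1 := RT.mul hD (h i (Finset.mem_insert_self i s))
      (ih fun j hj => h j (Finset.mem_insert_of_mem hj))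
    simpa only [Finset.prod_insert hi, Nat.add_zero] using h1

/-- PROOF. Leibniz formula, `RT.mul`, `RT.zsmul`, `RT.sum`. -/
theorem RT.det {N D : ℕ} (hD : 1 ≤ D) {f : Matrix (Fin N) (Fin N) ((ι → ℂ) → ℂ)}
    (h : ∀ i j, RT D 0 (f i j)) : RT D 0 (fun z => (Matrix.of fun i j => f i j z).det) := by
  have h1 : (fun z => (Matrix.of fun i j => f i j z).det) = fun z =>
      ∑ σ : Equiv.Perm (Fin N), ((Equiv.Perm.sign σ : ℤ) : ℂ) * ∏ i, f (σ i) i z := by
    funext z
    rw [Matrix.det_apply']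
    rfl
  rw [h1]
  refine RT.sum _ hD fun σ _ => ?_
  exact RT.zsmul hD (Rtm_prod _ hD fun i _ => h (σ i) i) _

end Pool.Agent.Helper13.LT
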