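import Pool.Agent.Helper34.LT.Fd

/-!
PROJECT LT, block F1-F3: the coefficients `cc` of `(1-y)^β` and `dd` of `(1-y)^(-β)`.

HOW TO WORK ON A FILE (captain helper13): replace the sorrys, change no statement; private lemmas or
lemmas whose name starts with the name of the file are fine; all statements of imported files may be
used although they still have sorry. If a statement is false or awkward tell helper13 at once.
-/

set_option autoImplicit false

namespace Pool.Agent.Helper13.LT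

open Finset
open Pool.Agent.Helper34.LT

/-- coefficient of `y^p` in `(1-y)^(-β)` -/
noncomputable def dd (β : ℝ) (p : ℕ) : ℝ := ∏ i ∈ range p, ((i : ℝ) + β) / ((i : ℝ) + 1)

theorem cc_zero (β : ℝ) : cc β 0 = 1 := by
  simp [cc]

theorem dd_zero (β : ℝ) : dd β 0 = 1 := by
  simp [dd]

/-- PROOF. Every factor has absolute value at most `1`. -/
theorem cc_abs_le {β : ℝ} (h0 : 0 ≤ β) (h1 : β ≤ 1) (p : ℕ) : |cc β p| ≤ 1 := by
  unfold cc
  rw [Finset.abs_prod]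
  refine Finset.prod_le_one (fun i _ => abs_nonneg _) (fun i _ => ?_)
  have hi : (0 : ℝ) ≤ (i : ℝ) := Nat.cast_nonneg i
  rw [abs_div, div_le_one (abs_pos.2 (by linarith)), abs_of_pos (a := (i : ℝ) + 1) (by linarith),
    abs_le]
  constructor <;> linarith

theorem dd_abs_le {β : ℝ} (h0 : 0 ≤ β) (h1 : β ≤ 1) (p : ℕ) : |dd β p| ≤ 1 := by
  unfold dd
  rw [Finset.abs_prod]
  refine Finset.prod_le_one (fun i _ => abs_nonneg _) (fun i _ => ?_)
  have hi : (0 : ℝ) ≤ (i : ℝ) := Nat.cast_nonneg i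
  rw [abs_div, div_le_one (abs_pos.2 (by linarith)), abs_of_pos (a := (i : ℝ) + 1) (by linarith),
    abs_le]
  constructor <;> linarith

private theorem cc_rec (β : ℝ) (p : ℕ) : ((p : ℝ) + 1) * cc β (p + 1) = ((p : ℝ) - β) * cc β p := by
  unfold cc
  rw [Finset.prod_range_succ]
  have hp : ((p : ℝ) + 1) ≠ 0 := by positivity
  field_simp

private theorem dd_rec (β : ℝ) (p : ℕ) : ((p : ℝ) + 1) * dd β (p + 1) = ((p : ℝ) + β) * dd β p := by
  unfold dd
  rw [Finset.prod_range_succ]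
  have hp : ((p : ℝ) + 1) ≠ 0 := by positivity
  field_simp

private theorem cc_dd_rec (β : ℝ) (p : ℕ) :
    ((p : ℝ) + 1) * ∑ i ∈ antidiagonal (p + 1), cc β i.1 * dd β i.2 =
      (p : ℝ) * ∑ i ∈ antidiagonal p, cc β i.1 * dd β i.2 := by
  have h1 : ((p : ℝ) + 1) * ∑ i ∈ antidiagonal (p + 1), cc β i.1 * dd β i.2 =
      ∑ i ∈ antidiagonal (p + 1), (i.1 : ℝ) * cc β i.1 * dd β i.2 +
        ∑ i ∈ antidiagonal (p + 1), (i.2 : ℝ) * cc β i.1 * dd β i.2 := by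
    rw [Finset.mul_sum, ← Finset.sum_add_distrib]
    refine Finset.sum_congr rfl fun i hi => ?_
    have h2 : i.1 + i.2 = p + 1 := by simpa using hi
    have h3 : (i.1 : ℝ) + (i.2 : ℝ) = (p : ℝ) + 1 := by exact_mod_cast h2
    rw [← h3]
    ring
  have h4 : ∑ i ∈ antidiagonal (p + 1), (i.1 : ℝ) * cc β i.1 * dd β i.2 =
      ∑ i ∈ antidiagonal p, ((i.1 : ℝ) - β) * cc β i.1 * dd β i.2 := by
    rw [Finset.Nat.sum_antidiagonal_succ]
    simp only [Nat.cast_zero, zero_mul, zero_add]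
    refine Finset.sum_congr rfl fun i _ => ?_
    rw [← cc_rec]
    push_cast
    ring
  have h5 : ∑ i ∈ antidiagonal (p + 1), (i.2 : ℝ) * cc β i.1 * dd β i.2 =
      ∑ i ∈ antidiagonal p, ((i.2 : ℝ) + β) * cc β i.1 * dd β i.2 := by
    rw [Finset.Nat.sum_antidiagonal_succ']
    simp only [Nat.cast_zero, zero_mul, zero_add]
    refine Finset.sum_congr rfl fun i _ => ?_
    have := dd_rec β i.2
    calc (((i.2 + 1 : ℕ) : ℝ)) * cc β i.1 * dd β (i.2 + 1)
        = cc β i.1 * (((i.2 : ℝ) + 1) * dd β (i.2 + 1)) := by push_cast; ring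
      _ = _ := by rw [this]; ring
  rw [h1, h4, h5, ← Finset.sum_add_distrib, Finset.mul_sum]
  refine Finset.sum_congr rfl fun i hi => ?_
  have h2 : i.1 + i.2 = p := by simpa using hi
  have h3 : (i.1 : ℝ) + (i.2 : ℝ) = (p : ℝ) := by exact_mod_cast h2
  rw [← h3]
  ring

/-- PROOF. `(p+1) cc (p+1) = (p - β) cc p`, `(p+1) dd (p+1) = (p + β) dd p`. Let `S p` be the left
side. Then `(p+1) S (p+1) = ∑_(i+j=p+1) (i + j) cc i dd j = ∑_(i+j=p) (i - β) cc i dd j + (j + β) cc i dd j = p S p`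
(`Finset.Nat.antidiagonal_succ`, `Finset.Nat.antidiagonal_succ'`). Induction. -/
theorem cc_dd (β : ℝ) (p : ℕ) :
    ∑ i ∈ antidiagonal p, cc β i.1 * dd β i.2 = if p = 0 then 1 else 0 := by
  induction p with
  | zero => simp [cc_zero, dd_zero]
  | succ p ih =>
    have h := cc_dd_rec β p
    rw [ih] at h
    have hp : ((p : ℝ) + 1) ≠ 0 := by positivity
    have h0 : (p : ℝ) * (if p = 0 then (1 : ℝ) else 0) = 0 := by
      split_ifs with hp0
      · rw [hp0]; simp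
      · simp
    rw [h0] at h
    rw [if_neg (Nat.succ_ne_zero p)]
    exact (mul_eq_zero.1 h).resolve_left hp

/-- PROOF. `cc_dd`, swap the antidiagonal. -/
theorem dd_cc (β : ℝ) (p : ℕ) :
    ∑ i ∈ antidiagonal p, dd β i.1 * cc β i.2 = if p = 0 then 1 else 0 := by
  rw [← cc_dd β p, ← Finset.Nat.sum_antidiagonal_swap]
  refine Finset.sum_congr rfl fun i _ => ?_
  simp only [Prod.fst_swap, Prod.snd_swap]
  ring

private theorem cc_val_le {q : ℕ} (hq : q.Prime) {v p : ℕ} (h : q ^ v ∣ p.factorial) : v ≤ p := by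
  have := Fact.mk hq
  have h1 : v ≤ padicValNat q p.factorial :=
    (padicValNat_dvd_iff_le (Nat.factorial_ne_zero p)).1 h
  have h2 := sub_one_mul_padicValNat_factorial (p := q) p
  have h3 : 1 ≤ q - 1 := by have := hq.two_le; omega
  have h4 : padicValNat q p.factorial ≤ (q - 1) * padicValNat q p.factorial :=
    Nat.le_mul_of_pos_left _ h3
  omega

private theorem cc_dvd {q : ℕ} (hq : q.Prime) {m : ℕ} (hm : ¬ q ∣ m) (hm0 : 0 < m) {p : ℕ}
    (hmp : m ∣ p.factorial) (k : ℕ) :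
    (m : ℤ) ∣ ∏ i ∈ range p, ((q : ℤ) * (i : ℤ) - (k : ℤ)) := by
  have hcop : IsCoprime (q : ℤ) (m : ℤ) :=
    Nat.isCoprime_iff_coprime.2 ((Nat.Prime.coprime_iff_not_dvd hq).2 hm)
  obtain ⟨u, w, huw⟩ := hcop
  obtain ⟨c, hc⟩ : ∃ c : ℕ, (m : ℤ) ∣ (-(k : ℤ) * u) - (c : ℤ) := by
    refine ⟨((-(k : ℤ) * u) % (m : ℤ)).toNat, ?_⟩
    have h1 : 0 ≤ (-(k : ℤ) * u) % (m : ℤ) := Int.emod_nonneg _ (by omega)
    rw [Int.toNat_of_nonneg h1]
    exact Int.dvd_self_sub_emod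
  have hmod : ∀ i : ℕ, ((q : ℤ) * (i : ℤ) - (k : ℤ)) ≡ ((q : ℤ) * ((c : ℤ) + (i : ℤ))) [ZMOD (m : ℤ)] := by
    intro i
    rw [Int.modEq_iff_dvd]
    obtain ⟨d, hd⟩ := hc
    refine ⟨-(q : ℤ) * d + k * w, ?_⟩
    have hd' : (c : ℤ) = -(k : ℤ) * u - m * d := by linarith
    rw [hd']
    linear_combination (-(k : ℤ)) * huw
  have hprod : (∏ i ∈ range p, ((q : ℤ) * (i : ℤ) - (k : ℤ))) ≡
      ∏ i ∈ range p, ((q : ℤ) * ((c : ℤ) + (i : ℤ))) [ZMOD (m : ℤ)] :=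
    Int.ModEq.prod fun i _ => hmod i
  have hasc : ∏ i ∈ range p, ((q : ℤ) * ((c : ℤ) + (i : ℤ))) =
      (q : ℤ) ^ p * ((c.ascFactorial p : ℕ) : ℤ) := by
    rw [Finset.prod_mul_distrib, Finset.prod_const, Finset.card_range, Nat.ascFactorial_eq_prod_range]
    push_cast
    rfl
  rw [hasc] at hprod
  have h5 : (m : ℤ) ∣ (q : ℤ) ^ p * ((c.ascFactorial p : ℕ) : ℤ) :=
    Dvd.dvd.mul_left (Int.natCast_dvd_natCast.2 (hmp.trans (Nat.factorial_dvd_ascFactorial c p))) _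
  exact (Int.ModEq.dvd_iff hprod).2 h5

/-- PROOF. `p! = q^v m` with `m` prime to `q`, `v ≤ p` (Legendre: `v ≤ p / (q - 1)`; or
`Nat.Prime.pow_dvd_factorial_iff` / `padicValNat_factorial`). With `q r ≡ 1 mod m`:
`r^p ∏ (q i - k) ≡ ∏ (i - r k) mod m`, a product of `p` consecutive integers, divisible by `p!`
(`Int` version of `Nat.factorial_dvd_ascFactorial` / `descPochhammer`), so by `m`; hence
`m ∣ ∏_(i<p) (q i - k)`. And `q^p cc (k/q) p = ∏ (q i - k) / p!`. So `q^(2p) cc (k/q) p = q^p ∏ (q i - k) / (q^v m)` is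
an integer. -/
theorem cc_int {q : ℕ} (hq : q.Prime) (k p : ℕ) :
    ∃ z : ℤ, (q : ℝ) ^ (2 * p) * cc ((k : ℝ) / (q : ℝ)) p = z := by
  obtain ⟨v, m, hm, hvm⟩ := Nat.exists_eq_pow_mul_and_not_dvd (Nat.factorial_ne_zero p) q hq.ne_one
  have hv : v ≤ p := cc_val_le hq (Dvd.intro _ hvm.symm)
  have hm0 : 0 < m := by
    rcases Nat.eq_zero_or_pos m with h | h
    · exact absurd (h ▸ dvd_zero q) hm
    · exact h
  obtain ⟨t, ht⟩ := cc_dvd hq hm hm0 (Dvd.intro_left _ hvm.symm) k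
  refine ⟨(q : ℤ) ^ (p - v) * t, ?_⟩
  have hq0 : (q : ℝ) ≠ 0 := Nat.cast_ne_zero.2 hq.ne_zero
  have hf0 : ((p.factorial : ℕ) : ℝ) ≠ 0 := Nat.cast_ne_zero.2 (Nat.factorial_ne_zero p)
  have h1 : cc ((k : ℝ) / (q : ℝ)) p =
      (∏ i ∈ range p, ((q : ℝ) * (i : ℝ) - (k : ℝ))) / ((q : ℝ) ^ p * (p.factorial : ℝ)) := by
    unfold cc
    have h2 : ((q : ℝ) ^ p * (p.factorial : ℝ)) = ∏ i ∈ range p, ((q : ℝ) * ((i : ℝ) + 1)) := by
      rw [Finset.prod_mul_distrib, Finset.prod_const, Finset.card_range,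
        ← Finset.prod_range_add_one_eq_factorial]
      push_cast
      rfl
    rw [h2, ← Finset.prod_div_distrib]
    refine Finset.prod_congr rfl fun i _ => ?_
    have hi : ((i : ℝ) + 1) ≠ 0 := by positivity
    field_simp
  have h3 : (∏ i ∈ range p, ((q : ℝ) * (i : ℝ) - (k : ℝ))) = (m : ℝ) * (t : ℝ) := by
    have := congrArg (fun z : ℤ => (z : ℝ)) ht
    simpa using this
  have h4 : (p.factorial : ℝ) = (q : ℝ) ^ v * (m : ℝ) := by exact_mod_cast hvm
  have hm1 : (m : ℝ) ≠ 0 := Nat.cast_ne_zero.2 hm0.ne'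
  have h5 : (q : ℝ) ^ p = (q : ℝ) ^ (p - v) * (q : ℝ) ^ v := by rw [← pow_add, Nat.sub_add_cancel hv]
  rw [h1, h3, h4, two_mul, pow_add]
  push_cast
  rw [h5]
  field_simp

end Pool.Agent.Helper13.LT
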