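import Pool.Agent.Helper13.LT.Rmd

/-!
PROJECT LT, block F1-F3: the structure theorem, uniform convergence of the truncations.

HOW TO WORK ON A FILE (captain helper13): replace the sorrys, change no statement; private lemmas or
lemmas whose name starts with the name of the file are fine; all statements of imported files may be
used although they still have sorry. If a statement is false or awkward tell helper13 at once.
-/

set_option autoImplicit false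

namespace Pool.Agent.Helper13.LT

open Finset Filter Topology
open Pool.Agent.Helper34.LT Pool.Agent.Helper11.LT

/-- the summable part -/
noncomputable def Kt (q a b : ℕ) (t : Phi q a b → ℂ) : Mat :=
  mmul (mmul (Lw q a b (-t)) (wt (Mt q a b t))) (wt (Tq q a b dd)) - mone

theorem UV_one {q : ℕ} (hq : q.Prime) (a b : ℕ) :
    mmul (wt (Tq q a b cc)) (wt (Tq q a b dd)) = mone := by
  rw [← wt_mmul, Tq_mul hq.pos cc_zero dd_zero cc_dd, wt_mone]

theorem VU_one {q : ℕ} (hq : q.Prime) (a b : ℕ) :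
    mmul (wt (Tq q a b dd)) (wt (Tq q a b cc)) = mone := by
  rw [← wt_mmul, Tq_mul hq.pos dd_zero cc_zero dd_cc, wt_mone]

theorem wMt_split {q a b : ℕ} (hq : q.Prime) (t : Phi q a b → ℂ) :
    wt (Mt q a b t) = mmul (Lw q a b t) (wt (PW q a b)) + wt (Rm q a b t) := by
  rw [Mt_split hq, wt_add, wt_mmul, Lw_eq]

theorem bd_wMt {q a b : ℕ} (hq : q.Prime) (ha : ¬ q ∣ a) (hb : ¬ q ∣ b) (hab : ¬ q ∣ a + b)
    (h3 : 3 ≤ q) (t : Phi q a b → ℂ) : Bd (wt (Mt q a b t)) := by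
  rw [wMt_split hq]
  refine bd_add (bd_mul (Lw_bd t) (bd_PW hq ha hb hab h3)) (sm_bd ?_)
  exact (Rm_dom hq a b ‖t‖).sm (by simp)

theorem Kt_eq {q a b : ℕ} (hq : q.Prime) (ha : ¬ q ∣ a) (hb : ¬ q ∣ b) (hab : ¬ q ∣ a + b)
    (h3 : 3 ≤ q) (t : Phi q a b → ℂ) :
    Kt q a b t = mmul (wt (PW q a b) - wt (Tq q a b cc) + mmul (Lw q a b (-t)) (wt (Rm q a b t)))
      (wt (Tq q a b dd)) := by
  have hR : Sm (wt (Rm q a b t)) := (Rm_dom hq a b ‖t‖).sm (by simp)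
  have hU : Bd (wt (Tq q a b cc)) := Tq_bd hq fun β h0 h1 p => cc_abs_le h0 h1 p
  have hV : Bd (wt (Tq q a b dd)) := Tq_bd hq fun β h0 h1 p => dd_abs_le h0 h1 p
  have hP := bd_PW hq ha hb hab h3
  have hL := Lw_bd t
  have hL' := Lw_bd (-t)
  rw [Kt, wMt_split hq, mmul_add hL' (bd_mul hL hP) (sm_bd hR), ← mmul_assoc hL' hL hP,
    Lw_neg_mul, mone_mmul, ← UV_one hq a b, ← sub_mmul (bd_add hP (bd_mul hL' (sm_bd hR))) hU hV]
  congr 1
  abel

theorem Kt_dom {q a b : ℕ} (hq : q.Prime) (ha : ¬ q ∣ a) (hb : ¬ q ∣ b) (hab : ¬ q ∣ a + b)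
    (h3 : 3 ≤ q) (R : ℝ) : Dm (Metric.closedBall (0 : Phi q a b → ℂ) R) (Kt q a b) := by
  have hV : Bd (wt (Tq q a b dd)) := Tq_bd hq fun β h0 h1 p => dd_abs_le h0 h1 p
  have h1 : Dm (Metric.closedBall (0 : Phi q a b → ℂ) R) fun t =>
      mmul (Lw q a b (-t)) (wt (Rm q a b t)) := by
    obtain ⟨B, hB, hL⟩ := Lw_dom q a b R
    refine Dm.mulL (B := B) hB ?_ ?_ (Rm_dom hq a b R)
    · intro t ht i j hij
      refine hL _ ?_ i j hij
      rw [norm_neg]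
      simpa using ht
    · intro t _ i j hij
      exact Lw_low _ i j hij
  have h2 := ((Dm.const (S := Metric.closedBall (0 : Phi q a b → ℂ) R)
    (sm_PW_sub hq ha hb hab h3)).add h1).mulR hV
  have h3 : Kt q a b = fun t => mmul (wt (PW q a b) - wt (Tq q a b cc) +
      mmul (Lw q a b (-t)) (wt (Rm q a b t))) (wt (Tq q a b dd)) :=
    funext fun t => Kt_eq hq ha hb hab h3 t
  rw [h3]
  exact h2

theorem Kt_sm {q a b : ℕ} (hq : q.Prime) (ha : ¬ q ∣ a) (hb : ¬ q ∣ b) (hab : ¬ q ∣ a + b)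
    (h3 : 3 ≤ q) (t : Phi q a b → ℂ) : Sm (Kt q a b t) := by
  exact (Kt_dom hq ha hb hab h3 ‖t‖).sm (by simp)

theorem Kt_fac {q a b : ℕ} (hq : q.Prime) (ha : ¬ q ∣ a) (hb : ¬ q ∣ b) (hab : ¬ q ∣ a + b)
    (h3 : 3 ≤ q) (t : Phi q a b → ℂ) :
    wt (Mt q a b t) = mmul (mmul (Lw q a b t) (mone + Kt q a b t)) (wt (Tq q a b cc)) := by
  have hU : Bd (wt (Tq q a b cc)) := Tq_bd hq fun β h0 h1 p => cc_abs_le h0 h1 p
  have hV : Bd (wt (Tq q a b dd)) := Tq_bd hq fun β h0 h1 p => dd_abs_le h0 h1 p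
  have hL := Lw_bd t
  have hL' := Lw_bd (-t)
  have hM := bd_wMt hq ha hb hab h3 t
  have h1 : mone + Kt q a b t =
      mmul (mmul (Lw q a b (-t)) (wt (Mt q a b t))) (wt (Tq q a b dd)) := by
    rw [Kt, add_sub_cancel]
  rw [h1, mmul_assoc hL (bd_mul (bd_mul hL' hM) hV) hU, mmul_assoc (bd_mul hL' hM) hV hU,
    VU_one hq, mmul_mone, ← mmul_assoc hL hL' hM, Lw_mul_neg, mone_mmul]

/-- the truncated determinants -/
noncomputable def Fn (q a b N : ℕ) (t : Phi q a b → ℂ) : ℂ := (trn (Mt q a b t) N).det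

theorem Fn_eq {q a b : ℕ} (hq : q.Prime) (ha : ¬ q ∣ a) (hb : ¬ q ∣ b) (hab : ¬ q ∣ a + b)
    (h3 : 3 ≤ q) (N : ℕ) (t : Phi q a b → ℂ) : Fn q a b N t = (1 + trn (Kt q a b t) N).det := by
  have hup : ∀ i j, j < i → wt (Tq q a b cc) i j = 0 := by
    intro i j hij
    rw [wt, Tq_upp _ _ _ hij, mul_zero]
  have hdi : ∀ i, wt (Tq q a b cc) i i = 1 := by
    intro i
    simp [wt, Tq_dia cc_zero]
  rw [Fn, ← det_trn_wt, Kt_fac hq ha hb hab h3, trn_upper hup, trn_lower (Lw_low t),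
    Matrix.det_mul, Matrix.det_mul, det_trn_upper_one hup hdi,
    det_trn_lower_one (Lw_low t) (Lw_dia t), trn_mone_add, one_mul, mul_one]

theorem tauF_eq {q a b : ℕ} (hq : q.Prime) (ha : ¬ q ∣ a) (hb : ¬ q ∣ b) (hab : ¬ q ∣ a + b)
    (h3 : 3 ≤ q) (t : Phi q a b → ℂ) : tauF q a b t = fd (Kt q a b t) := by
  unfold tauF fd
  congr 1
  funext N
  exact Fn_eq hq ha hb hab h3 N t

/-- uniform convergence on balls -/
theorem Fn_unif {q a b : ℕ} (hq : q.Prime) (ha : ¬ q ∣ a) (hb : ¬ q ∣ b) (hab : ¬ q ∣ a + b)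
    (h3 : 3 ≤ q) (R : ℝ) :
    TendstoUniformlyOn (Fn q a b) (tauF q a b) atTop (Metric.closedBall 0 R) := by
  obtain ⟨B, hB, hK⟩ := Kt_dom hq ha hb hab h3 R
  have h := fd_unif hB hK
  have h1 : (Fn q a b) = fun N t => (1 + trn (Kt q a b t) N).det :=
    funext fun N => funext fun t => Fn_eq hq ha hb hab h3 N t
  have h2 : tauF q a b = fun t => fd (Kt q a b t) :=
    funext fun t => tauF_eq hq ha hb hab h3 t
  rw [h1, h2]
  exact h

theorem Fn_tendsto {q a b : ℕ} (hq : q.Prime) (ha : ¬ q ∣ a) (hb : ¬ q ∣ b) (hab : ¬ q ∣ a + b)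
    (h3 : 3 ≤ q) (t : Phi q a b → ℂ) :
    Tendsto (fun N => Fn q a b N t) atTop (𝓝 (tauF q a b t)) := by
  exact (Fn_unif hq ha hb hab h3 ‖t‖).tendsto_at (by simp)

theorem exists_fac (q a b : ℕ) (hq : q.Prime) (ha : ¬ q ∣ a) (hb : ¬ q ∣ b) (hab : ¬ q ∣ a + b)
    (h3 : 3 ≤ q) : ∃ U V K, Fac q a b U V K := by
  have hup : ∀ i j, j < i → wt (Tq q a b cc) i j = 0 := by
    intro i j hij
    rw [wt, Tq_upp _ _ _ hij, mul_zero]
  refine ⟨wt (Tq q a b cc), wt (Tq q a b dd), Kt q a b, ?_⟩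
  exact
    { bU := Tq_bd hq fun β h0 h1 p => cc_abs_le h0 h1 p
      bV := Tq_bd hq fun β h0 h1 p => dd_abs_le h0 h1 p
      UV := UV_one hq a b
      VU := VU_one hq a b
      upp := hup
      dia := fun i => by simp [wt, Tq_dia cc_zero]
      bL := Lw_bd
      L0 := Lw_zero q a b
      Ladd := Lw_add
      Lhol := Lw_diff q a b
      Ldom := Lw_dom q a b
      sK := Kt_sm hq ha hb hab h3
      fac := Kt_fac hq ha hb hab h3
      tau := tauF_eq hq ha hb hab h3 }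

end Pool.Agent.Helper13.LT
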