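import Pool.Agent.Helper13.LT.Ps

/-!
PROJECT LT, everywhere convergent power series in several variables and the class `RT`: products, lines, scaling.

HOW TO WORK ON A FILE (captain helper13): replace the sorrys, change no statement; private lemmas or
lemmas whose name starts with the name of the file are fine; all statements of imported files may be
used although they still have sorry. If a statement is false or awkward tell helper13 at once.
-/

set_option autoImplicit false

namespace Pool.Agent.Helper13.LT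

open Finset Filter Topology
open Pool.Agent.Helper34.LT

variable {ι : Type} [Fintype ι]

private theorem Psm_norm (F G : (ι → ℕ) → ℂ) (hF : Summable F) (hG : Summable G) :
    Summable fun p : (ι → ℕ) × (ι → ℕ) => F p.1 * G p.2 :=
  summable_mul_of_summable_norm hF.norm hG.norm

private theorem Psm_pair (F G : (ι → ℕ) → ℂ) (a b : ℂ) (hF : HasSum F a) (hG : HasSum G b) :
    HasSum (fun p : (ι → ℕ) × (ι → ℕ) => F p.1 * G p.2) (a * b) :=
  HasSum.mul hF hG (Psm_norm F G hF.summable hG.summable)

private theorem Psm_fib (K : (ι → ℕ) × (ι → ℕ) → ℂ) (m : ι → ℕ) :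
    HasSum (fun q : {p : (ι → ℕ) × (ι → ℕ) // p.1 + p.2 = m} => K q.1) (∑ p ∈ adg m, K p) := by
  have h5 : HasSum (fun q : {p // p ∈ adg m} => K q.1) (∑ p ∈ adg m, K p) :=
    Finset.hasSum (adg m) K
  have e : {p : (ι → ℕ) × (ι → ℕ) | p.1 + p.2 = m} = {p | p ∈ adg m} := by
    ext p
    exact mem_adg.symm
  have h6 : HasSum ((fun p => K p) ∘ ((↑) : {p | p ∈ adg m} → (ι → ℕ) × (ι → ℕ)))
      (∑ p ∈ adg m, K p) := h5
  rw [← e] at h6
  exact h6

private theorem Psm_mul (F G : (ι → ℕ) → ℂ) (a b : ℂ) (hF : HasSum F a) (hG : HasSum G b) :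
    HasSum (fun m : ι → ℕ => ∑ p ∈ adg m, F p.1 * G p.2) (a * b) := by
  have h3 := Psm_pair F G a b hF hG
  have h4 := (Equiv.sigmaFiberEquiv (fun p : (ι → ℕ) × (ι → ℕ) => p.1 + p.2)).hasSum_iff.mpr h3
  exact HasSum.sigma h4 fun m => Psm_fib (fun p => F p.1 * G p.2) m

/-- PROOF. Absolutely convergent double sum over `(i, j)`, regrouped by `i + j` (`mem_adg`;
`HasSum.mul` of absolutely convergent families and `HasSum.sigma` along the equivalence of
`Σ m, adg m` with the pairs). -/
theorem PS.mul {c d : (ι → ℕ) → ℂ} {f g : (ι → ℂ) → ℂ} (h : PS c f) (h' : PS d g) :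
    PS (cv c d) (fun z => f z * g z) := by
  intro z
  have h3 := Psm_mul _ _ _ _ (h z) (h' z)
  have h6 : (fun m : ι → ℕ => ∑ p ∈ adg m, (c p.1 * ∏ u, z u ^ p.1 u) *
      (d p.2 * ∏ u, z u ^ p.2 u)) = fun m => cv c d m * ∏ u, z u ^ m u := by
    funext m
    unfold cv
    rw [Finset.sum_mul]
    refine Finset.sum_congr rfl fun p hp => ?_
    have h7 : ∏ u, z u ^ m u = (∏ u, z u ^ p.1 u) * ∏ u, z u ^ p.2 u := by
      rw [← Finset.prod_mul_distrib]
      refine Finset.prod_congr rfl fun u _ => ?_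
      rw [← pow_add, ← mem_adg.1 hp]
      rfl
    rw [h7]
    ring
  rw [← h6]
  exact h3

/-- restriction to a line through `0`.
PROOF. All terms with `m u ≠ 0` for some `u ≠ v` vanish; the others are indexed by `ℕ` (`Pi.single v`). -/
theorem PS.line [DecidableEq ι] {c : (ι → ℕ) → ℂ} {f : (ι → ℂ) → ℂ} (h : PS c f) (v : ι) (x : ℂ) :
    HasSum (fun n : ℕ => c (Pi.single v n) * x ^ n) (f (Pi.single v x)) := by
  have h1 := h (Pi.single v x)
  have hinj : Function.Injective (fun n : ℕ => (Pi.single v n : ι → ℕ)) := by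
    intro a b hab
    have h0 := congrFun hab v
    simpa using h0
  have h2 : ∀ m ∉ Set.range (fun n : ℕ => (Pi.single v n : ι → ℕ)),
      c m * ∏ u, (Pi.single v x : ι → ℂ) u ^ m u = 0 := by
    intro m hm
    have h3 : ∃ u, u ≠ v ∧ m u ≠ 0 := by
      by_contra hcon
      push Not at hcon
      apply hm
      refine ⟨m v, funext fun u => ?_⟩
      by_cases hu : u = v
      · subst hu
        simp
      · simp [hu, hcon u hu]
    obtain ⟨u, hu, hm0⟩ := h3
    rw [Finset.prod_eq_zero (Finset.mem_univ u), mul_zero]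
    rw [Pi.single_eq_of_ne hu, zero_pow hm0]
  have h3 := (hinj.hasSum_iff h2).mpr h1
  have h4 : ((fun m : ι → ℕ => c m * ∏ u, (Pi.single v x : ι → ℂ) u ^ m u) ∘
      fun n : ℕ => (Pi.single v n : ι → ℕ)) = fun n : ℕ => c (Pi.single v n) * x ^ n := by
    funext n
    simp only [Function.comp_apply]
    congr 1
    rw [Finset.prod_eq_single v]
    · rw [Pi.single_eq_same, Pi.single_eq_same]
    · intro u _ hu
      rw [Pi.single_eq_of_ne hu, Pi.single_eq_of_ne hu, pow_zero]
    · intro hv
      exact absurd (Finset.mem_univ v) hv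
  rw [h4] at h3
  exact h3

/-- rescaling of the variables -/
theorem PS.scale {c : (ι → ℕ) → ℂ} {f : (ι → ℂ) → ℂ} (h : PS c f) (y : ι → ℂ) :
    PS (fun m => c m * ∏ u, y u ^ m u) (fun z => f fun u => y u * z u) := by
  intro z
  have h1 := h fun u => y u * z u
  have h2 : (fun m : ι → ℕ => c m * ∏ u, (y u * z u) ^ m u) =
      fun m : ι → ℕ => (c m * ∏ u, y u ^ m u) * ∏ u, z u ^ m u := by
    funext m
    simp only [mul_pow, Finset.prod_mul_distrib]
    ring
  rw [← h2]
  exact h1

end Pool.Agent.Helper13.LT
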