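import Pool.Agent.Helper13.LT.Sga
import Pool.Agent.Helper13.LT.Psm

/-!
PROJECT LT, block F1-F3: the coefficients `hl` of `exp(∑ t_u x^(kk u))`, part a (as power series in `t`).

HOW TO WORK ON A FILE (captain helper13): replace the sorrys, change no statement; private lemmas or
lemmas whose name starts with the name of the file are fine; all statements of imported files may be
used although they still have sorry. If a statement is false or awkward tell helper13 at once.
-/

set_option autoImplicit false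

namespace Pool.Agent.Helper13.LT

open Finset Filter Topology
open Pool.Agent.Helper34.LT

/-- weight of a multi-index -/
def wtm (q a b : ℕ) (m : Phi q a b → ℕ) : ℕ := ∑ u : Phi q a b, kk q a b u * m u

/-- the multi-indices of weight `l` -/
def fib (q a b l : ℕ) : Finset (Phi q a b → ℕ) :=
  (Fintype.piFinset fun _ : Phi q a b => range (l + 1)).filter
    (fun m : Phi q a b → ℕ => ∑ u : Phi q a b, kk q a b u * m u = l)

/-- PROOF. `m u ≤ kk u * m u ≤ wtm m` (`kk_pos`). -/
theorem mem_fib {q a b l : ℕ} {m : Phi q a b → ℕ} : m ∈ fib q a b l ↔ wtm q a b m = l := by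
  unfold fib
  rw [mem_filter]
  refine ⟨fun h => h.2, fun h => ⟨?_, h⟩⟩
  rw [Fintype.mem_piFinset]
  intro u
  rw [mem_range, Nat.lt_succ_iff]
  have h1 : kk q a b u * m u ≤ ∑ u : Phi q a b, kk q a b u * m u :=
    single_le_sum (f := fun u : Phi q a b => kk q a b u * m u) (fun _ _ => Nat.zero_le _)
      (mem_univ u)
  have h2 : m u ≤ kk q a b u * m u := Nat.le_mul_of_pos_left _ (kk_pos u)
  have h3 : ∑ u : Phi q a b, kk q a b u * m u = l := h
  omega

theorem hl_eq {q a b : ℕ} (t : Phi q a b → ℂ) (l : ℕ) :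
    hl q a b t l = ∑ m ∈ fib q a b l, ∏ u, t u ^ m u / ((m u).factorial : ℂ) := rfl

/-- majorant of `hl` on `‖t‖ ≤ R` -/
noncomputable def hb (q a b : ℕ) (R : ℝ) (l : ℕ) : ℝ :=
  ∑ m ∈ fib q a b l, ∏ u : Phi q a b, R ^ m u / ((m u).factorial : ℝ)

theorem hb_nonneg {q a b : ℕ} {R : ℝ} (hR : 0 ≤ R) (l : ℕ) : 0 ≤ hb q a b R l := by
  unfold hb
  exact sum_nonneg fun m _ => prod_nonneg fun u _ => div_nonneg (pow_nonneg hR _) (Nat.cast_nonneg _)

/-- PROOF. Triangle inequality, `‖t u‖ ≤ ‖t‖ ≤ R`. -/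
theorem hl_norm_le {q a b : ℕ} {R : ℝ} {t : Phi q a b → ℂ} (ht : ‖t‖ ≤ R) (l : ℕ) :
    ‖hl q a b t l‖ ≤ hb q a b R l := by
  rw [hl_eq]
  unfold hb
  refine norm_sum_le_of_le _ fun m _ => ?_
  rw [norm_prod]
  refine prod_le_prod (fun u _ => norm_nonneg _) fun u _ => ?_
  rw [norm_div, norm_pow, Complex.norm_natCast]
  exact div_le_div_of_nonneg_right
    (pow_le_pow_left₀ (norm_nonneg _) ((norm_le_pi_norm t u).trans ht) _) (Nat.cast_nonneg _)

private theorem Hla_box {ι : Type} [Fintype ι] [DecidableEq ι] :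
    Tendsto (fun n : ℕ => (Fintype.piFinset fun _ : ι => range n : Finset (ι → ℕ)))
      atTop atTop := by
  classical
  refine tendsto_atTop_finset_of_monotone (fun n k hnk m hm => ?_) fun m => ?_
  · rw [Fintype.mem_piFinset] at hm ⊢
    exact fun u => mem_range.2 ((mem_range.1 (hm u)).trans_le hnk)
  · refine ⟨(univ.sup m) + 1, ?_⟩
    rw [Fintype.mem_piFinset]
    intro u
    rw [mem_range, Nat.lt_succ_iff]
    exact le_sup (f := m) (mem_univ u)

private theorem Hla_norm {ι : Type} [Fintype ι] (t : ι → ℂ) :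
    Summable fun m : ι → ℕ => ∏ u, ‖t u‖ ^ m u / ((m u).factorial : ℝ) := by
  classical
  refine summable_of_sum_le (c := ∏ u, Real.exp ‖t u‖)
    (fun m => prod_nonneg fun u _ => div_nonneg (pow_nonneg (norm_nonneg _) _) (Nat.cast_nonneg _))
    fun s => ?_
  obtain ⟨n, hn⟩ := (Hla_box.eventually (eventually_ge_atTop s)).exists
  calc ∑ m ∈ s, ∏ u, ‖t u‖ ^ m u / ((m u).factorial : ℝ)
      ≤ ∑ m ∈ Fintype.piFinset (fun _ : ι => range n),
          ∏ u, ‖t u‖ ^ m u / ((m u).factorial : ℝ) :=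
        sum_le_sum_of_subset_of_nonneg hn fun m _ _ => prod_nonneg fun u _ =>
          div_nonneg (pow_nonneg (norm_nonneg _) _) (Nat.cast_nonneg _)
    _ = ∏ u, ∑ k ∈ range n, ‖t u‖ ^ k / (k.factorial : ℝ) := by
        rw [prod_univ_sum]
    _ ≤ ∏ u, Real.exp ‖t u‖ :=
        prod_le_prod (fun u _ => sum_nonneg fun k _ =>
          div_nonneg (pow_nonneg (norm_nonneg _) _) (Nat.cast_nonneg _))
          fun u _ => Real.sum_le_exp_of_nonneg (norm_nonneg _) n

/-- The multivariate exponential series.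
PROOF. Induction on the number of variables, or: the family is summable in norm because finite
sums of the norms are at most `∏ u, exp ‖t u‖`, and the sum is the limit along the boxes
`Fintype.piFinset fun _ => range n` of `∏ u, ∑ k ∈ range n, t u ^ k / k!` (`Finset.prod_univ_sum`). -/
theorem hasSum_exp {ι : Type} [Fintype ι] (t : ι → ℂ) :
    HasSum (fun m : ι → ℕ => ∏ u, t u ^ m u / ((m u).factorial : ℂ)) (Complex.exp (∑ u, t u)) := by
  classical
  have h1 : Summable fun m : ι → ℕ => ∏ u, t u ^ m u / ((m u).factorial : ℂ) := by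
    refine Summable.of_norm ((Hla_norm t).congr fun m => ?_)
    rw [norm_prod]
    refine prod_congr rfl fun u _ => ?_
    rw [norm_div, norm_pow, Complex.norm_natCast]
  have h2 := h1.hasSum.comp Hla_box
  have h3 : Tendsto (fun n : ℕ => ∏ u, ∑ k ∈ range n, t u ^ k / (k.factorial : ℂ)) atTop
      (𝓝 (∏ u, Complex.exp (t u))) := by
    refine tendsto_finsetProd _ fun u _ => ?_
    have h4 : HasSum (fun k : ℕ => t u ^ k / (k.factorial : ℂ)) (Complex.exp (t u)) := by
      have h5 := NormedSpace.expSeries_div_hasSum_exp (𝔸 := ℂ) (t u)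
      rwa [← Complex.exp_eq_exp_ℂ] at h5
    exact h4.tendsto_sum_nat
  have h4 : ∑' m : ι → ℕ, ∏ u, t u ^ m u / ((m u).factorial : ℂ) = Complex.exp (∑ u, t u) := by
    rw [Complex.exp_sum]
    refine tendsto_nhds_unique h2 (h3.congr fun n => ?_)
    change ∏ u, ∑ k ∈ range n, t u ^ k / (k.factorial : ℂ) =
      ∑ m ∈ Fintype.piFinset (fun _ : ι => range n), ∏ u, t u ^ m u / ((m u).factorial : ℂ)
    rw [prod_univ_sum]
  rw [← h4]
  exact h1.hasSum

/-- PROOF. The same, for real numbers; or take norms / real parts in `hasSum_exp`. -/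
theorem hasSum_exp_real {ι : Type} [Fintype ι] (t : ι → ℝ) :
    HasSum (fun m : ι → ℕ => ∏ u, t u ^ m u / ((m u).factorial : ℝ)) (Real.exp (∑ u, t u)) := by
  rw [← Complex.hasSum_ofReal]
  convert hasSum_exp fun u => (t u : ℂ) using 1
  · funext m
    push_cast
    rfl
  · push_cast
    rfl

/-- grouping by the weight.
PROOF. `HasSum.sigma` with `Equiv.sigmaFiberEquiv (wtm q a b)`; the fibre over `l` is `fib l`. -/
theorem hasSum_fib {q a b : ℕ} {E : Type} [NormedAddCommGroup E] [CompleteSpace E]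
    {F : (Phi q a b → ℕ) → E} {x : E} (h : HasSum F x) :
    HasSum (fun l => ∑ m ∈ fib q a b l, F m) x := by
  have h1 := (Equiv.sigmaFiberEquiv (wtm q a b)).hasSum_iff.2 h
  refine h1.sigma fun l => ?_
  have h2 := (fib q a b l).hasSum F
  have e : {m : Phi q a b → ℕ // m ∈ fib q a b l} ≃ {m : Phi q a b → ℕ // wtm q a b m = l} :=
    Equiv.subtypeEquivRight fun m => mem_fib
  rw [← (Equiv.subtypeEquivRight (fun m => mem_fib (q := q) (a := a) (b := b) (l := l)
    (m := m))).hasSum_iff]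
  exact h2

/-- PROOF. `x^l = ∏ (x^(kk u))^(m u)` for `m ∈ fib l`; `hasSum_exp_real` for `R x^(kk u)` and `hasSum_fib`. -/
theorem hb_summable {q a b : ℕ} {R x : ℝ} (hR : 0 ≤ R) (hx : 0 ≤ x) :
    Summable fun l => hb q a b R l * x ^ l := by
  refine (hasSum_fib (hasSum_exp_real
    fun u : Phi q a b => R * x ^ kk q a b u)).summable.congr fun l => ?_
  unfold hb
  rw [sum_mul]
  refine sum_congr rfl fun m hm => ?_
  have h1 : x ^ l = ∏ u : Phi q a b, (x ^ kk q a b u) ^ m u := by
    rw [← mem_fib.1 hm]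
    unfold wtm
    rw [← prod_pow_eq_pow_sum]
    exact prod_congr rfl fun u _ => pow_mul _ _ _
  rw [h1, ← prod_mul_distrib]
  refine prod_congr rfl fun u _ => ?_
  rw [mul_pow]
  ring

/-- The generating function of `hl`.
PROOF. `x^l = ∏ (x^(kk u))^(m u)` for `m ∈ fib l`; `hasSum_exp` for `t u x^(kk u)` and `hasSum_fib`. -/
theorem hl_exp {q a b : ℕ} (t : Phi q a b → ℂ) (x : ℂ) :
    HasSum (fun l => hl q a b t l * x ^ l) (Complex.exp (∑ u : Phi q a b, t u * x ^ kk q a b u)) := by
  refine (hasSum_fib (hasSum_exp fun u : Phi q a b => t u * x ^ kk q a b u)).congr_fun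
    fun l => ?_
  rw [hl_eq, sum_mul]
  refine sum_congr rfl fun m hm => ?_
  have h1 : x ^ l = ∏ u : Phi q a b, (x ^ kk q a b u) ^ m u := by
    rw [← mem_fib.1 hm]
    unfold wtm
    rw [← prod_pow_eq_pow_sum]
    exact prod_congr rfl fun u _ => pow_mul _ _ _
  rw [h1, ← prod_mul_distrib]
  refine prod_congr rfl fun u _ => ?_
  rw [mul_pow]
  ring

/-- PROOF. `hl_norm_le` with `R = ‖t‖` and `hb_summable` with `x = 1`. -/
theorem hl_summable {q a b : ℕ} {φ : ℕ → ℂ} {C : ℝ} (hφ : ∀ l, ‖φ l‖ ≤ C) (t : Phi q a b → ℂ) :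
    Summable fun l => ‖φ l * hl q a b t l‖ := by
  have h1 := hb_summable (q := q) (a := a) (b := b) (norm_nonneg t) zero_le_one
  refine Summable.of_nonneg_of_le (fun l => norm_nonneg _) (fun l => ?_) (h1.mul_left C)
  rw [norm_mul, one_pow, mul_one]
  exact mul_le_mul (hφ l) (hl_norm_le le_rfl l) (norm_nonneg _) ((norm_nonneg _).trans (hφ l))

/-- Weighted sums of the `hl` as power series in `t`.
PROOF. The family `φ (wtm m) * ∏ (t u ^ m u / (m u)!)` is summable (norms at most `C` times the family of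
`hasSum_exp_real` for `‖t u‖`); `hasSum_fib`. -/
theorem hl_ps {q a b : ℕ} {φ : ℕ → ℂ} {C : ℝ} (hφ : ∀ l, ‖φ l‖ ≤ C) :
    PS (fun m : Phi q a b → ℕ => φ (wtm q a b m) / ∏ u, ((m u).factorial : ℂ))
      (fun t => ∑' l, φ l * hl q a b t l) := by
  intro t
  have h0 : ∀ m : Phi q a b → ℕ,
      φ (wtm q a b m) / (∏ u, ((m u).factorial : ℂ)) * ∏ u, t u ^ m u =
        φ (wtm q a b m) * ∏ u, t u ^ m u / ((m u).factorial : ℂ) := by
    intro m
    rw [prod_div_distrib]
    ring
  have h1 : Summable fun m : Phi q a b → ℕ =>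
      φ (wtm q a b m) / (∏ u, ((m u).factorial : ℂ)) * ∏ u, t u ^ m u := by
    refine Summable.of_norm_bounded ((Hla_norm t).mul_left C) fun m => ?_
    rw [h0, norm_mul, norm_prod]
    refine mul_le_mul (hφ _) (le_of_eq ?_) (prod_nonneg fun u _ => norm_nonneg _)
      ((norm_nonneg _).trans (hφ 0))
    refine prod_congr rfl fun u _ => ?_
    rw [norm_div, norm_pow, Complex.norm_natCast]
  have h2 : ∑' l, φ l * hl q a b t l = ∑' m : Phi q a b → ℕ,
      φ (wtm q a b m) / (∏ u, ((m u).factorial : ℂ)) * ∏ u, t u ^ m u := by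
    rw [← (hasSum_fib h1.hasSum).tsum_eq]
    refine tsum_congr fun l => ?_
    rw [hl_eq, mul_sum]
    refine sum_congr rfl fun m hm => ?_
    rw [h0, mem_fib.1 hm]
  change HasSum _ (∑' l, φ l * hl q a b t l)
  rw [h2]
  exact h1.hasSum

end Pool.Agent.Helper13.LT
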