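import Mathlib

/-!
PROJECT LT, block F1-F3: everywhere convergent power series in one variable.

HOW TO WORK ON A FILE (captain helper13): replace the sorrys, change no statement; private lemmas or
lemmas whose name starts with the name of the file are fine; all statements of imported files may be
used although they still have sorry. If a statement is false or awkward tell helper13 at once.
-/

set_option autoImplicit false

namespace Pool.Agent.Helper13.LT

open Finset Filter Topology

/-- PROOF. The terms are summable at `R = ‖x‖ + 1`; locally uniform convergence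
(`continuous_tsum` on a ball, or `HasFPowerSeriesOnBall`). -/
theorem one_continuous {c : ℕ → ℂ} {f : ℂ → ℂ} (h : ∀ x, HasSum (fun n => c n * x ^ n) (f x)) :
    Continuous f := by
  rw [continuous_iff_continuousAt]
  intro x
  have hf : f = fun y => ∑' n, c n * y ^ n := funext fun y => (h y).tsum_eq.symm
  have hR : (0 : ℝ) ≤ ‖x‖ + 1 := by positivity
  have h1 : ContinuousOn (fun y : ℂ => ∑' n, c n * y ^ n) (Metric.closedBall 0 (‖x‖ + 1)) := by
    refine continuousOn_tsum (u := fun n => ‖c n * ((‖x‖ + 1 : ℝ) : ℂ) ^ n‖)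
      (fun n => (continuous_const.mul (continuous_pow n)).continuousOn)
      (h ((‖x‖ + 1 : ℝ) : ℂ)).summable.norm fun n y hy => ?_
    rw [mem_closedBall_zero_iff] at hy
    rw [norm_mul, norm_mul, norm_pow, norm_pow, Complex.norm_real, Real.norm_of_nonneg hR]
    exact mul_le_mul_of_nonneg_left (pow_le_pow_left₀ (norm_nonneg y) hy n) (norm_nonneg _)
  rw [hf]
  refine h1.continuousAt (Metric.closedBall_mem_nhds_of_mem ?_)
  rw [mem_ball_zero_iff]
  linarith

private theorem one_zero {c : ℕ → ℂ} {f : ℂ → ℂ}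
    (h : ∀ x, HasSum (fun n => c n * x ^ n) (f x)) : f 0 = c 0 := by
  have h1 : HasSum (fun n => c n * (0 : ℂ) ^ n) (c 0 * (0 : ℂ) ^ 0) :=
    hasSum_single 0 fun n hn => by rw [zero_pow hn, mul_zero]
  rw [pow_zero, mul_one] at h1
  exact (h 0).unique h1

private theorem one_lim {f H : ℂ → ℂ} (hc : Continuous f) (w : ℕ)
    (hf : ∀ x, x ≠ 0 → f x = x ^ w * H x) (hH : ContinuousAt H 0) : f 0 = 0 ^ w * H 0 := by
  have h1 : Tendsto f (𝓝[≠] 0) (𝓝 (f 0)) := hc.continuousAt.mono_left nhdsWithin_le_nhds
  have h2 : Tendsto (fun x : ℂ => x ^ w * H x) (𝓝[≠] 0) (𝓝 (0 ^ w * H 0)) :=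
    (((continuous_pow w).continuousAt).mul hH).mono_left nhdsWithin_le_nhds
  refine tendsto_nhds_unique (h1.congr' ?_) h2
  filter_upwards [self_mem_nhdsWithin] with x hx
  exact hf x hx

/-- Leading coefficients.
PROOF. Induction on `w`. `c 0 = f 0`. If `w = 0`: `H x = f x → f 0 = c 0` as `x → 0`, `x ≠ 0`, so
`H 0 = c 0` (limits in the punctured neighbourhood are unique). If `w > 0`: `c 0 = f 0 = lim x^w H x = 0`, so
`f x = x * f₁ x` with `f₁ x = ∑ c (n+1) x^n`, and `f₁ x = x^(w-1) H x` for `x ≠ 0`. -/
theorem one_order {c : ℕ → ℂ} {f H : ℂ → ℂ} (h : ∀ x, HasSum (fun n => c n * x ^ n) (f x)) (w : ℕ)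
    (hf : ∀ x, x ≠ 0 → f x = x ^ w * H x) (hH : ContinuousAt H 0) :
    (∀ n < w, c n = 0) ∧ c w = H 0 := by
  induction w generalizing c f with
  | zero =>
    refine ⟨fun n hn => absurd hn (Nat.not_lt_zero n), ?_⟩
    have h1 := one_lim (one_continuous h) 0 hf hH
    rw [one_zero h, pow_zero, one_mul] at h1
    exact h1
  | succ w ih =>
    have h1 := one_lim (one_continuous h) (w + 1) hf hH
    rw [one_zero h, zero_pow (Nat.succ_ne_zero w), zero_mul] at h1
    have h2 : ∀ x, HasSum (fun n => c (n + 1) * x ^ n) (if x = 0 then c 1 else f x / x) := by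
      intro x
      by_cases hx : x = 0
      · subst hx
        rw [if_pos rfl]
        have h3 : HasSum (fun n => c (n + 1) * (0 : ℂ) ^ n) (c (0 + 1) * (0 : ℂ) ^ 0) :=
          hasSum_single 0 fun n hn => by rw [zero_pow hn, mul_zero]
        rw [pow_zero, mul_one, zero_add] at h3
        exact h3
      · rw [if_neg hx]
        have h3 : HasSum (fun n => c (n + 1) * x ^ (n + 1)) (f x) := by
          have h4 := (hasSum_nat_add_iff' 1).2 (h x)
          rw [Finset.sum_range_one, h1, zero_mul, sub_zero] at h4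
          exact h4
        have h5 := h3.div_const x
        refine h5.congr_fun fun n => ?_
        rw [pow_succ]
        field_simp
    obtain ⟨h3, h4⟩ := ih h2 fun x hx => by
      rw [if_neg hx, hf x hx, pow_succ]
      field_simp
    refine ⟨fun n hn => ?_, h4⟩
    cases n with
    | zero => exact h1
    | succ n => exact h3 n (Nat.lt_of_succ_lt_succ hn)

/-- PROOF. The difference `c - d` has sum `0`; `one_order` with `H = 0`. -/
theorem one_unique {c d : ℕ → ℂ} {f : ℂ → ℂ} (h : ∀ x, HasSum (fun n => c n * x ^ n) (f x))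
    (h' : ∀ x, HasSum (fun n => d n * x ^ n) (f x)) : c = d := by
  have h1 : ∀ x : ℂ, HasSum (fun n => (c n - d n) * x ^ n) ((fun _ : ℂ => (0 : ℂ)) x) := by
    intro x
    have h2 := (h x).sub (h' x)
    rw [sub_self] at h2
    refine h2.congr_fun fun n => ?_
    rw [sub_mul]
  funext n
  have h3 := (one_order (H := fun _ => (0 : ℂ)) h1 n (fun x _ => (mul_zero _).symm)
    continuousAt_const).2
  exact sub_eq_zero.1 h3

end Pool.Agent.Helper13.LT
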