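import Pool.Agent.Helper13.LT.Hla
import Pool.Agent.Helper13.LT.One

/-!
PROJECT LT, block F1-F3: the coefficients `hl` of `exp(∑ t_u x^(kk u))`, part b (identities).

HOW TO WORK ON A FILE (captain helper13): replace the sorrys, change no statement; private lemmas or
lemmas whose name starts with the name of the file are fine; all statements of imported files may be
used although they still have sorry. If a statement is false or awkward tell helper13 at once.
-/

set_option autoImplicit false

namespace Pool.Agent.Helper13.LT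

open Finset Filter Topology
open Pool.Agent.Helper34.LT

private theorem Hlb_fib0 (q a b : ℕ) : fib q a b 0 = {0} := by
  ext m
  rw [fib, Finset.mem_filter, Fintype.mem_piFinset, Finset.mem_singleton]
  constructor
  · rintro ⟨h, -⟩
    funext u
    have := h u
    simpa using this
  · rintro rfl
    refine ⟨fun u => by simp, by simp⟩

/-- PROOF. For `m ∈ fib l`, some `m u ≠ 0` unless `l = 0`. -/
theorem hl_zero_left (q a b l : ℕ) : hl q a b 0 l = if l = 0 then 1 else 0 := by
  rw [hl_eq]
  split_ifs with h
  · subst h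
    rw [Hlb_fib0, Finset.sum_singleton]
    simp
  · refine Finset.sum_eq_zero fun m hm => ?_
    have h1 : ∃ u, m u ≠ 0 := by
      by_contra h2
      push Not at h2
      rw [mem_fib, wtm] at hm
      apply h
      rw [← hm]
      exact Finset.sum_eq_zero fun u _ => by rw [h2 u, mul_zero]
    obtain ⟨u, hu⟩ := h1
    refine Finset.prod_eq_zero (Finset.mem_univ u) ?_
    rw [Pi.zero_apply, zero_pow hu, zero_div]

/-- PROOF. `fib 0 = {0}`. -/
theorem hl_zero_right {q a b : ℕ} (t : Phi q a b → ℂ) : hl q a b t 0 = 1 := by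
  rw [hl_eq, Hlb_fib0, Finset.sum_singleton]
  simp

/-- PROOF. Both sides are the coefficients of everywhere convergent power series in `x` with the
same sum (`hl_exp`, `Complex.exp_add`, the Cauchy product
`summable_norm_sum_mul_antidiagonal_of_summable_norm`,
`tsum_mul_tsum_eq_tsum_sum_antidiagonal_of_summable_norm`); `one_unique`. -/
theorem hl_add {q a b : ℕ} (s t : Phi q a b → ℂ) (l : ℕ) :
    hl q a b (s + t) l = ∑ p ∈ antidiagonal l, hl q a b s p.1 * hl q a b t p.2 := by
  have h1 : (fun l => hl q a b (s + t) l) =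
      fun l => ∑ p ∈ antidiagonal l, hl q a b s p.1 * hl q a b t p.2 := by
    refine one_unique (f := fun x => Complex.exp (∑ u : Phi q a b, (s + t) u * x ^ kk q a b u))
      (fun x => hl_exp (s + t) x) fun x => ?_
    have hs := hl_exp s x
    have ht := hl_exp t x
    have hs' : Summable fun l => ‖hl q a b s l * x ^ l‖ := summable_norm_iff.2 hs.summable
    have ht' : Summable fun l => ‖hl q a b t l * x ^ l‖ := summable_norm_iff.2 ht.summable
    have h2 := summable_norm_sum_mul_antidiagonal_of_summable_norm hs' ht'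
    have h3 := tsum_mul_tsum_eq_tsum_sum_antidiagonal_of_summable_norm hs' ht'
    have h4 := (summable_norm_iff.1 h2).hasSum
    rw [← h3, hs.tsum_eq, ht.tsum_eq, ← Complex.exp_add, ← Finset.sum_add_distrib] at h4
    have h5 : (fun n => (∑ p ∈ antidiagonal n, hl q a b s p.1 * hl q a b t p.2) * x ^ n) =
        fun n => ∑ p ∈ antidiagonal n, hl q a b s p.1 * x ^ p.1 * (hl q a b t p.2 * x ^ p.2) := by
      funext n
      rw [Finset.sum_mul]
      refine Finset.sum_congr rfl fun p hp => ?_
      rw [← HasAntidiagonal.mem_antidiagonal.1 hp, pow_add]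
      ring
    have h6 : (∑ u : Phi q a b, (s + t) u * x ^ kk q a b u) =
        ∑ u : Phi q a b, (s u * x ^ kk q a b u + t u * x ^ kk q a b u) :=
      Finset.sum_congr rfl fun u _ => by rw [Pi.add_apply, add_mul]
    show HasSum (fun n => (∑ p ∈ antidiagonal n, hl q a b s p.1 * hl q a b t p.2) * x ^ n)
      (Complex.exp (∑ u : Phi q a b, (s + t) u * x ^ kk q a b u))
    rw [h5, h6]
    exact h4
  exact congrFun h1 l

/-- PROOF. Termwise. -/
theorem hl_scale {q a b : ℕ} (t : Phi q a b → ℂ) (x : ℂ) (l : ℕ) :
    hl q a b (fun u => x ^ kk q a b u * t u) l = x ^ l * hl q a b t l := by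
  rw [hl_eq, hl_eq, Finset.mul_sum]
  refine Finset.sum_congr rfl fun m hm => ?_
  rw [mem_fib, wtm] at hm
  rw [← hm, ← Finset.prod_pow_eq_pow_sum, ← Finset.prod_mul_distrib]
  refine Finset.prod_congr rfl fun u _ => ?_
  rw [mul_pow, ← pow_mul]
  ring

/-- PROOF. A polynomial in the coordinates. -/
theorem hl_diff (q a b l : ℕ) : Differentiable ℂ fun t : Phi q a b → ℂ => hl q a b t l := by
  have h1 : (fun t : Phi q a b → ℂ => hl q a b t l) = fun t =>
      ∑ m ∈ fib q a b l, ∏ u, t u ^ m u / ((m u).factorial : ℂ) := by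
    funext t
    exact hl_eq t l
  rw [h1]
  fun_prop

/-- PROOF. Only `m = Pi.single u l` gives a nonzero term in `hl_eq`. -/
theorem hl_line {q a b : ℕ} (u : Phi q a b) (hu : kk q a b u = 1) (x : ℂ) (l : ℕ) :
    hl q a b (Pi.single u x) l = x ^ l / (l.factorial : ℂ) := by
  classical
  rw [hl_eq, Finset.sum_eq_single (Pi.single u l)]
  · rw [Finset.prod_eq_single u]
    · simp
    · intro v _ hv
      simp [Pi.single_eq_of_ne hv]
    · intro h
      exact absurd (Finset.mem_univ u) h
  · intro m hm hne
    rw [mem_fib, wtm] at hm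
    have h1 : ∃ v, v ≠ u ∧ m v ≠ 0 := by
      by_contra h2
      push Not at h2
      apply hne
      have h3 : ∑ v : Phi q a b, kk q a b v * m v = kk q a b u * m u := by
        refine Finset.sum_eq_single u (fun v _ hv => ?_) (fun h => absurd (Finset.mem_univ u) h)
        rw [h2 v hv, mul_zero]
      rw [h3, hu, one_mul] at hm
      funext v
      by_cases hv : v = u
      · subst hv
        rw [Pi.single_eq_same, hm]
      · rw [Pi.single_eq_of_ne hv, h2 v hv]
    obtain ⟨v, hv, hv0⟩ := h1
    refine Finset.prod_eq_zero (Finset.mem_univ v) ?_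
    rw [Pi.single_eq_of_ne hv, zero_pow hv0, zero_div]
  · intro h
    exfalso
    apply h
    rw [mem_fib, wtm, Finset.sum_eq_single u]
    · rw [hu, one_mul, Pi.single_eq_same]
    · intro v _ hv
      rw [Pi.single_eq_of_ne hv, mul_zero]
    · intro h
      exact absurd (Finset.mem_univ u) h

end Pool.Agent.Helper13.LT
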