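import Pool.Agent.Helper13.LT.Mx
import Pool.Agent.Helper13.LT.Hlb
import Pool.Agent.Helper11.LT.P7

/-!
PROJECT LT, block F1-F3: the lower triangular matrices `Lw`.

HOW TO WORK ON A FILE (captain helper13): replace the sorrys, change no statement; private lemmas or
lemmas whose name starts with the name of the file are fine; all statements of imported files may be
used although they still have sorry. If a statement is false or awkward tell helper13 at once.
-/

set_option autoImplicit false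

namespace Pool.Agent.Helper13.LT

open Finset Filter Topology
open Pool.Agent.Helper34.LT Pool.Agent.Helper11.LT

/-- without weight -/
noncomputable def Lt (q a b : ℕ) (t : Phi q a b → ℂ) : Mat := fun i j =>
  if j ≤ i then hl q a b t (i - j) else 0

theorem Lw_eq {q a b : ℕ} (t : Phi q a b → ℂ) : Lw q a b t = wt (Lt q a b t) := rfl

theorem Lw_low {q a b : ℕ} (t : Phi q a b → ℂ) (i j : ℕ) (h : i < j) : Lw q a b t i j = 0 := by
  change (2 : ℂ) ^ ((i : ℤ) - (j : ℤ)) * (if j ≤ i then hl q a b t (i - j) else 0) = 0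
  rw [if_neg (by omega), mul_zero]

/-- PROOF. `hl_zero_right`. -/
theorem Lw_dia {q a b : ℕ} (t : Phi q a b → ℂ) (i : ℕ) : Lw q a b t i i = 1 := by
  change (2 : ℂ) ^ ((i : ℤ) - (i : ℤ)) * (if i ≤ i then hl q a b t (i - i) else 0) = 1
  rw [if_pos le_rfl, Nat.sub_self, hl_zero_right, sub_self, zpow_zero, one_mul]

/-- PROOF. `‖Lw t i j‖ = 2^(i-j) ‖hl t (i-j)‖`, `hl_norm_le`. -/
theorem Lw_norm_le {q a b : ℕ} {R : ℝ} {t : Phi q a b → ℂ} (ht : ‖t‖ ≤ R) {i j : ℕ} (h : j ≤ i) :
    ‖Lw q a b t i j‖ ≤ hb q a b R (i - j) * 2 ^ (i - j) := by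
  change ‖(2 : ℂ) ^ ((i : ℤ) - (j : ℤ)) * (if j ≤ i then hl q a b t (i - j) else 0)‖ ≤ _
  have h1 : ((i : ℤ) - (j : ℤ)) = ((i - j : ℕ) : ℤ) := by omega
  rw [if_pos h, norm_mul, h1, zpow_natCast, norm_pow, Complex.norm_ofNat, mul_comm]
  exact mul_le_mul_of_nonneg_right (hl_norm_le ht _) (by positivity)

/-- PROOF. `Lw_norm_le`, `hb_summable` with `x = 2`. -/
theorem Lw_dom (q a b : ℕ) (R : ℝ) : ∃ B : ℕ → ℝ, Summable B ∧
    ∀ t : Phi q a b → ℂ, ‖t‖ ≤ R → ∀ i j, j ≤ i → ‖Lw q a b t i j‖ ≤ B (i - j) := by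
  refine ⟨fun l => hb q a b (max R 0) l * 2 ^ l,
    hb_summable (le_max_right R 0) (by norm_num), fun t ht i j h => ?_⟩
  exact Lw_norm_le (ht.trans (le_max_left R 0)) h

/-- PROOF. `bdC_lower`, `Lw_norm_le` with `R = ‖t‖`. -/
theorem Lw_bd {q a b : ℕ} (t : Phi q a b → ℂ) : Bd (Lw q a b t) :=
  ⟨_, bdC_lower (hb_summable (q := q) (a := a) (b := b) (norm_nonneg t)
    (by norm_num : (0 : ℝ) ≤ 2))
    (fun n => mul_nonneg (hb_nonneg (norm_nonneg t) n) (by positivity))
    (fun _ _ h => Lw_norm_le le_rfl h) fun i j h => Lw_low t i j h⟩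

/-- PROOF. `hl_zero_left`. -/
theorem Lw_zero (q a b : ℕ) : Lw q a b 0 = mone := by
  funext i j
  unfold mone
  rcases lt_trichotomy i j with h | rfl | h
  · rw [Lw_low _ _ _ h, if_neg h.ne]
  · rw [Lw_dia, if_pos rfl]
  · rw [if_neg h.ne']
    change (2 : ℂ) ^ ((i : ℤ) - (j : ℤ)) * (if j ≤ i then hl q a b 0 (i - j) else 0) = 0
    rw [if_pos h.le, hl_zero_left, if_neg (by omega), mul_zero]

/-- PROOF. `wt_mmul`; the sum over `k` is over `j ≤ k ≤ i`; `hl_add`. -/
theorem Lw_add {q a b : ℕ} (s t : Phi q a b → ℂ) :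
    Lw q a b (s + t) = mmul (Lw q a b s) (Lw q a b t) := by
  rw [Lw_eq, Lw_eq, Lw_eq, ← wt_mmul]
  congr 1
  funext i j
  change (if j ≤ i then hl q a b (s + t) (i - j) else 0) =
    ∑' k, (if k ≤ i then hl q a b s (i - k) else 0) * (if j ≤ k then hl q a b t (k - j) else 0)
  split_ifs with h
  · rw [tsum_eq_sum (s := Finset.Icc j i), hl_add]
    · refine Finset.sum_nbij' (fun p => j + p.2) (fun k => (i - k, k - j)) ?_ ?_ ?_ ?_ ?_
      · intro p hp
        have h1 := HasAntidiagonal.mem_antidiagonal.1 hp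
        rw [Finset.mem_Icc]
        omega
      · intro k hk
        rw [Finset.mem_Icc] at hk
        rw [HasAntidiagonal.mem_antidiagonal]
        simp only
        omega
      · intro p hp
        have h1 := HasAntidiagonal.mem_antidiagonal.1 hp
        apply Prod.ext
        · simp only
          omega
        · simp only
          omega
      · intro k hk
        rw [Finset.mem_Icc] at hk
        simp only
        omega
      · intro p hp
        have h1 := HasAntidiagonal.mem_antidiagonal.1 hp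
        have h2 : j + p.2 ≤ i := by omega
        have h3 : i - (j + p.2) = p.1 := by omega
        have h4 : j + p.2 - j = p.2 := by omega
        rw [if_pos h2, if_pos (Nat.le_add_right j p.2), h3, h4]
    · intro k hk
      rw [Finset.mem_Icc, not_and_or] at hk
      rcases hk with hk | hk
      · rw [if_neg hk, mul_zero]
      · rw [if_neg hk, zero_mul]
  · have h0 : ∀ k, (if k ≤ i then hl q a b s (i - k) else 0) *
        (if j ≤ k then hl q a b t (k - j) else 0) = 0 := ?_
    · rw [tsum_congr h0, tsum_zero]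
    intro k
    by_cases h1 : k ≤ i
    · rw [if_neg (fun h2 : j ≤ k => h (h2.trans h1)), mul_zero]
    · rw [if_neg h1, zero_mul]

/-- PROOF. `hl_diff`. -/
theorem Lw_diff (q a b i j : ℕ) :
    Differentiable ℂ (fun t : Phi q a b → ℂ => Lw q a b t i j) := by
  change Differentiable ℂ fun t : Phi q a b → ℂ =>
    (2 : ℂ) ^ ((i : ℤ) - (j : ℤ)) * (if j ≤ i then hl q a b t (i - j) else 0)
  refine Differentiable.const_mul ?_ _
  split_ifs
  · exact hl_diff q a b (i - j)
  · exact differentiable_const 0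

/-- PROOF. `Lw_add`, `Lw_zero`. -/
theorem Lw_neg_mul {q a b : ℕ} (t : Phi q a b → ℂ) :
    mmul (Lw q a b (-t)) (Lw q a b t) = mone := by
  rw [← Lw_add, neg_add_cancel, Lw_zero]

theorem Lw_mul_neg {q a b : ℕ} (t : Phi q a b → ℂ) :
    mmul (Lw q a b t) (Lw q a b (-t)) = mone := by
  rw [← Lw_add, add_neg_cancel, Lw_zero]

end Pool.Agent.Helper13.LT
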