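import Pool.Agent.Helper13.LT.Tq
import Pool.Agent.Helper13.LT.Lwa

/-!
PROJECT LT, block F1-F3: the matrix `Mt` and its splitting.

HOW TO WORK ON A FILE (captain helper13): replace the sorrys, change no statement; private lemmas or
lemmas whose name starts with the name of the file are fine; all statements of imported files may be
used although they still have sorry. If a statement is false or awkward tell helper13 at once.
-/

set_option autoImplicit false

namespace Pool.Agent.Helper13.LT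

open Finset Filter Topology
open Pool.Agent.Helper34.LT Pool.Agent.Helper11.LT

/-- the coefficient of `hl t l` in `Mt t i j`: `cc p` if `l + nn j = g + i + q p` -/
noncomputable def ej (q a b i j l : ℕ) : ℝ :=
  if (q - 1) / 2 + i ≤ l + nn q a b j ∧ q ∣ l + nn q a b j - ((q - 1) / 2 + i) then
    cc (bt q a b (nn q a b j)) ((l + nn q a b j - ((q - 1) / 2 + i)) / q) else 0

/-- PROOF. `cc_abs_le`, `bt_nonneg`, `bt_lt_one`. -/
theorem ej_abs_le {q : ℕ} (hq : q.Prime) (a b i j l : ℕ) : |ej q a b i j l| ≤ 1 := by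
  unfold ej
  split_ifs with h
  · exact cc_abs_le (bt_nonneg _ _ _ _) (bt_lt_one hq _ _ _).le _
  · simp

theorem ej_norm_le {q : ℕ} (hq : q.Prime) (a b i j l : ℕ) : ‖(ej q a b i j l : ℂ)‖ ≤ 1 := by
  rw [Complex.norm_real]
  exact ej_abs_le hq a b i j l

/-- a nonzero coefficient determines `p` -/
theorem ej_ne {q a b i j l : ℕ} (h : ej q a b i j l ≠ 0) :
    ∃ p, l + nn q a b j = (q - 1) / 2 + i + q * p ∧
      ej q a b i j l = cc (bt q a b (nn q a b j)) p := by
  unfold ej at h ⊢
  split_ifs at h ⊢ with h1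
  · refine ⟨(l + nn q a b j - ((q - 1) / 2 + i)) / q, ?_, rfl⟩
    rw [Nat.mul_div_cancel' h1.2]
    omega
  · exact absurd rfl h

/-- PROOF. Reindexing of the sum over `p` by `l = g + i + q p - nn j` (injective on the set of `p` with
`nn j ≤ g + i + q p`; the terms for the other `p` and for the `l` not of this form are `0`;
`tsum_eq_tsum_of_ne_zero_bij` or `Function.Injective.tsum_eq`). -/
theorem Mt_eq {q a b : ℕ} (hq : q.Prime) (t : Phi q a b → ℂ) (i j : ℕ) :
    Mt q a b t i j = ∑' l, (ej q a b i j l : ℂ) * hl q a b t l := by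
  have hq0 := hq.pos
  set n := nn q a b j with hn
  set G : ℕ → ℂ := fun p => if n ≤ (q - 1) / 2 + i + q * p then
    (cc (bt q a b n) p : ℂ) * hl q a b t ((q - 1) / 2 + i + q * p - n) else 0 with hG
  set F : ℕ → ℂ := fun l => (ej q a b i j l : ℂ) * hl q a b t l with hF
  have hFG : ∀ p, n ≤ (q - 1) / 2 + i + q * p → F ((q - 1) / 2 + i + q * p - n) = G p := by
    intro p hp
    simp only [hF, hG, if_pos hp]
    congr 1
    have h1 : (q - 1) / 2 + i + q * p - n + n - ((q - 1) / 2 + i) = q * p := by omega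
    unfold ej
    rw [← hn, h1, if_pos ⟨by omega, dvd_mul_right _ _⟩, Nat.mul_div_cancel_left _ hq0]
  have hsup : ∀ p, G p ≠ 0 → n ≤ (q - 1) / 2 + i + q * p := by
    intro p hp
    by_contra h
    exact hp (if_neg h)
  refine (tsum_eq_tsum_of_ne_zero_bij
    (fun x : Function.support G => (q - 1) / 2 + i + q * x.1 - n) ?_ ?_ ?_).symm
  · rintro ⟨x, hx⟩ ⟨y, hy⟩ hxy
    have h1 := hsup x hx
    have h2 := hsup y hy
    have h3 : (q - 1) / 2 + i + q * x - n = (q - 1) / 2 + i + q * y - n := hxy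
    have h4 : q * x = q * y := by omega
    exact Subtype.ext (Nat.eq_of_mul_eq_mul_left hq0 h4)
  · intro l hl0
    have h0 : F l ≠ 0 := hl0
    have h1 : ej q a b i j l ≠ 0 := by
      intro h
      apply h0
      simp only [hF, h, Complex.ofReal_zero, zero_mul]
    obtain ⟨p, hp, -⟩ := ej_ne h1
    rw [← hn] at hp
    have h2 : (q - 1) / 2 + i + q * p - n = l := by omega
    refine ⟨⟨p, ?_⟩, h2⟩
    have h3 := hFG p (by omega)
    rw [h2] at h3
    rw [Function.mem_support, ← h3]
    exact h0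
  · rintro ⟨x, hx⟩
    exact hFG x (hsup x hx)

/-- the part of `w_(nn j)` with exponents at most `-g` -/
noncomputable def PW (q a b : ℕ) : Mat := fun l j =>
  if (q - 1) / 2 + l ≤ nn q a b j ∧ q ∣ nn q a b j - ((q - 1) / 2 + l) then
    ((cc (bt q a b (nn q a b j)) ((nn q a b j - ((q - 1) / 2 + l)) / q) : ℝ) : ℂ) else 0

/-- the contribution of the other exponents -/
noncomputable def Rm (q a b : ℕ) (t : Phi q a b → ℂ) : Mat := fun i j =>
  ∑' l : ℕ, if i < l then (ej q a b i j l : ℂ) * hl q a b t l else 0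

/-- PROOF. `PW l' j = ej i j (i - l')` for `l' ≤ i`. `Mt_eq`, `hl_summable`, split the sum at `l ≤ i`, and
`l = i - l'`. -/
theorem Mt_split {q a b : ℕ} (hq : q.Prime) (t : Phi q a b → ℂ) :
    Mt q a b t = mmul (Lt q a b t) (PW q a b) + Rm q a b t := by
  funext i j
  have hs : Summable fun l => (ej q a b i j l : ℂ) * hl q a b t l :=
    (hl_summable (fun l => ej_norm_le hq a b i j l) t).of_norm
  have h1 : mmul (Lt q a b t) (PW q a b) i j =
      ∑ l ∈ range (i + 1), (ej q a b i j l : ℂ) * hl q a b t l := by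
    rw [← sum_range_reflect]
    unfold mmul
    rw [tsum_eq_sum (s := range (i + 1))]
    · refine sum_congr rfl fun k hk => ?_
      rw [mem_range] at hk
      have hki : k ≤ i := by omega
      have h2 : i + 1 - 1 - k = i - k := by omega
      rw [h2]
      unfold Lt PW ej
      rw [if_pos hki, mul_comm]
      congr 1
      by_cases h3 : (q - 1) / 2 + k ≤ nn q a b j
      · have h4 : i - k + nn q a b j - ((q - 1) / 2 + i) = nn q a b j - ((q - 1) / 2 + k) := by
          omega
        rw [h4]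
        by_cases h5 : q ∣ nn q a b j - ((q - 1) / 2 + k)
        · rw [if_pos ⟨h3, h5⟩, if_pos ⟨by omega, h5⟩]
        · rw [if_neg fun h => h5 h.2, if_neg fun h => h5 h.2, Complex.ofReal_zero]
      · rw [if_neg fun h => h3 h.1, if_neg fun h => h3 (by omega), Complex.ofReal_zero]
    · intro k hk
      rw [mem_range] at hk
      unfold Lt
      rw [if_neg (by omega), zero_mul]
  have h2 : Summable fun l => if i < l then (ej q a b i j l : ℂ) * hl q a b t l else 0 := by
    refine Summable.of_norm (Summable.of_nonneg_of_le (fun l => norm_nonneg _) (fun l => ?_)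
      (hl_summable (fun l => ej_norm_le hq a b i j l) t))
    split_ifs
    · exact le_rfl
    · rw [norm_zero]
      exact norm_nonneg _
  have h3 : Summable fun l => if l ∈ range (i + 1) then (ej q a b i j l : ℂ) * hl q a b t l
      else 0 :=
    summable_of_ne_finset_zero (s := range (i + 1)) fun l hl => if_neg hl
  rw [Mt_eq hq]
  change _ = mmul (Lt q a b t) (PW q a b) i j + Rm q a b t i j
  rw [h1]
  unfold Rm
  have h4 : ∑ l ∈ range (i + 1), (ej q a b i j l : ℂ) * hl q a b t l =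
      ∑' l, if l ∈ range (i + 1) then (ej q a b i j l : ℂ) * hl q a b t l else 0 := by
    rw [tsum_eq_sum (s := range (i + 1)) fun l hl => if_neg hl]
    exact sum_congr rfl fun l hl => (if_pos hl).symm
  rw [h4, ← h3.tsum_add h2]
  refine tsum_congr fun l => ?_
  by_cases h5 : i < l
  · rw [if_pos h5, if_neg (by rw [mem_range]; omega), zero_add]
  · rw [if_neg h5, if_pos (by rw [mem_range]; omega), add_zero]

/-- PROOF. `nn_eq`. -/
theorem PW_of_ge {q a b : ℕ} (hq : q.Prime) (ha : ¬ q ∣ a) (hb : ¬ q ∣ b) (hab : ¬ q ∣ a + b)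
    (h3 : 3 ≤ q) {j : ℕ} (hj : (q - 1) / 2 ≤ j) (l : ℕ) : PW q a b l j = Tq q a b cc l j := by
  unfold PW Tq
  rw [nn_eq hq ha hb hab h3 hj, if_neg (by omega : ¬ j < (q - 1) / 2)]
  by_cases h : l ≤ j
  · have h4 : (q - 1) / 2 + j - ((q - 1) / 2 + l) = j - l := by omega
    rw [h4]
    by_cases h5 : q ∣ j - l
    · rw [if_pos ⟨by omega, h5⟩, if_pos ⟨h, h5⟩]
    · rw [if_neg fun h => h5 h.2, if_neg fun h => h5 h.2]
  · rw [if_neg fun h' => h (by omega), if_neg fun h' => h h'.1]

/-- PROOF. `nn_le`. -/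
theorem PW_upp {q a b : ℕ} (hq : q.Prime) (ha : ¬ q ∣ a) (hb : ¬ q ∣ b) (hab : ¬ q ∣ a + b)
    (h3 : 3 ≤ q) {l j : ℕ} (h : j < l) : PW q a b l j = 0 := by
  have h1 := nn_le hq ha hb hab h3 j
  unfold PW
  exact if_neg fun h' => by omega

/-- PROOF. `PW_of_ge`, `PW_upp`, `Tq_upp`, `sm_of_finite` with `N = g`. -/
theorem sm_PW_sub {q a b : ℕ} (hq : q.Prime) (ha : ¬ q ∣ a) (hb : ¬ q ∣ b) (hab : ¬ q ∣ a + b)
    (h3 : 3 ≤ q) : Sm (wt (PW q a b) - wt (Tq q a b cc)) := by
  refine sm_of_finite (N := (q - 1) / 2) fun i j hij => ?_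
  by_contra hc
  apply hij
  change wt (PW q a b) i j - wt (Tq q a b cc) i j = 0
  unfold wt
  rw [← mul_sub]
  by_cases hj : (q - 1) / 2 ≤ j
  · rw [PW_of_ge hq ha hb hab h3 hj, sub_self, mul_zero]
  · have hji : j < i := by omega
    rw [PW_upp hq ha hb hab h3 hji, Tq_upp cc i j hji, sub_self, mul_zero]

/-- PROOF. `sm_PW_sub` and `Tq_bd`. -/
theorem bd_PW {q a b : ℕ} (hq : q.Prime) (ha : ¬ q ∣ a) (hb : ¬ q ∣ b) (hab : ¬ q ∣ a + b)
    (h3 : 3 ≤ q) : Bd (wt (PW q a b)) := by
  obtain ⟨C, hC⟩ := sm_bd (sm_PW_sub hq ha hb hab h3)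
  obtain ⟨D, hD⟩ := Tq_bd (q := q) (a := a) (b := b) hq
    (fun β h0 h1 p => cc_abs_le h0 h1 p)
  have h := bdC_add hC hD
  rw [sub_add_cancel] at h
  exact ⟨_, h⟩

end Pool.Agent.Helper13.LT
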