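import Pool.Agent.Helper11.LT.F0c

/-!
PROJECT LT, block F1-F3: Toeplitz majorants, dominated families of matrices.

HOW TO WORK ON A FILE (captain helper13): replace the sorrys, change no statement; private lemmas or
lemmas whose name starts with the name of the file are fine; all statements of imported files may be
used although they still have sorry. If a statement is false or awkward tell helper13 at once.
-/

set_option autoImplicit false

namespace Pool.Agent.Helper13.LT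

open Finset Filter Topology
open Pool.Agent.Helper34.LT Pool.Agent.Helper11.LT

/-- upper triangular with Toeplitz majorant.
PROOF. Row `i`: `∑_j ‖A i j‖ ≤ ∑_(j ≥ i) B (j - i) = ∑ B`; column `j`: `∑_(i ≤ j) B (j - i) ≤ ∑ B`. -/
theorem bdC_upper {A : Mat} {B : ℕ → ℝ} (hB : Summable B) (h0 : ∀ n, 0 ≤ B n)
    (hA : ∀ i j, i ≤ j → ‖A i j‖ ≤ B (j - i)) (hz : ∀ i j, j < i → A i j = 0) :
    BdC (∑' n, B n) A := by
  constructor
  · intro i
    have h1 : HasSum (fun j => if i ≤ j then B (j - i) else 0) (∑' n, B n) := by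
      rw [← Function.Injective.hasSum_iff (g := fun n : ℕ => n + i) (add_left_injective i)]
      · refine hB.hasSum.congr_fun ?_
        intro n
        change (if i ≤ n + i then B (n + i - i) else 0) = B n
        rw [if_pos (Nat.le_add_left i n), Nat.add_sub_cancel]
      · intro j hj
        rw [if_neg]
        intro h
        exact hj ⟨j - i, Nat.sub_add_cancel h⟩
    have h2 : ∀ j, ‖A i j‖ ≤ if i ≤ j then B (j - i) else 0 := by
      intro j
      by_cases h : i ≤ j
      · rw [if_pos h]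
        exact hA i j h
      · rw [if_neg h, hz i j (not_le.1 h), norm_zero]
    have h3 : Summable fun j => ‖A i j‖ :=
      Summable.of_nonneg_of_le (fun j => norm_nonneg _) h2 h1.summable
    refine ⟨h3, ?_⟩
    rw [← h1.tsum_eq]
    exact h3.tsum_le_tsum h2 h1.summable
  · intro j
    have h1 : ∀ i ∉ range (j + 1), ‖A i j‖ = 0 := by
      intro i hi
      rw [mem_range, not_lt] at hi
      rw [hz i j hi, norm_zero]
    refine ⟨summable_of_ne_finset_zero h1, ?_⟩
    rw [tsum_eq_sum h1]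
    have h2 : ∑ i ∈ range (j + 1), ‖A i j‖ ≤ ∑ i ∈ range (j + 1), B (j + 1 - 1 - i) := by
      refine sum_le_sum fun i hi => ?_
      rw [mem_range] at hi
      exact hA i j (Nat.lt_succ_iff.1 hi)
    rw [sum_range_reflect] at h2
    exact h2.trans (hB.sum_le_tsum _ fun n _ => h0 n)

/-- lower triangular with Toeplitz majorant.
PROOF. `bdC_upper` for the transpose. -/
theorem bdC_lower {A : Mat} {B : ℕ → ℝ} (hB : Summable B) (h0 : ∀ n, 0 ≤ B n)
    (hA : ∀ i j, j ≤ i → ‖A i j‖ ≤ B (i - j)) (hz : ∀ i j, i < j → A i j = 0) :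
    BdC (∑' n, B n) A := by
  have h := bdC_upper (A := fun i j => A j i) hB h0 (fun i j hij => hA j i hij)
    (fun i j hij => hz j i hij)
  exact ⟨h.2, h.1⟩

/-- products of majorants -/
private theorem mx_maj {P Q : Mat} {C D : ℝ} {p q : ℕ → ℕ → ℝ}
    (hp : BdC C fun i j => (p i j : ℂ)) (hq : BdC D fun i j => (q i j : ℂ))
    (h0 : ∀ i j, ‖P i j‖ ≤ p i j) (h1 : ∀ i j, ‖Q i j‖ ≤ q i j) (i j : ℕ) :
    ‖mmul P Q i j‖ ≤ ‖mmul (fun i j => (p i j : ℂ)) (fun i j => (q i j : ℂ)) i j‖ := by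
  have hp0 : ∀ i j, 0 ≤ p i j := fun i j => (norm_nonneg _).trans (h0 i j)
  have hq0 : ∀ i j, 0 ≤ q i j := fun i j => (norm_nonneg _).trans (h1 i j)
  have h2 : Summable fun k => p i k * q k j := by
    refine (bdC_summable hp hq i j).congr fun k => ?_
    rw [norm_mul, Complex.norm_real, Complex.norm_real, Real.norm_of_nonneg (hp0 i k),
      Real.norm_of_nonneg (hq0 k j)]
  have h3 : ‖mmul P Q i j‖ ≤ ∑' k, p i k * q k j := by
    refine tsum_of_norm_bounded h2.hasSum fun k => ?_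
    rw [norm_mul]
    exact mul_le_mul (h0 i k) (h1 k j) (norm_nonneg _) (hp0 i k)
  have h4 : mmul (fun i j => (p i j : ℂ)) (fun i j => (q i j : ℂ)) i j =
      ((∑' k, p i k * q k j : ℝ) : ℂ) := by
    rw [Complex.ofReal_tsum]
    change ∑' k, (p i k : ℂ) * (q k j : ℂ) = _
    refine tsum_congr fun k => ?_
    rw [Complex.ofReal_mul]
  rw [h4, Complex.norm_real, Real.norm_of_nonneg (tsum_nonneg fun k => mul_nonneg (hp0 i k) (hq0 k j))]
  exact h3

private theorem mx_sm {B : ℕ × ℕ → ℝ} (hB : Summable B) (h0 : ∀ p, 0 ≤ B p) :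
    Sm fun i j => (B (i, j) : ℂ) := by
  refine hB.congr fun p => ?_
  rw [Complex.norm_real, Real.norm_of_nonneg (h0 _)]

private theorem mx_norm {C : ℝ} {V : Mat} (h : BdC C V) : BdC C fun i j => ((‖V i j‖ : ℝ) : ℂ) := by
  constructor
  · intro i
    have h1 : (fun j => ‖((‖V i j‖ : ℝ) : ℂ)‖) = fun j => ‖V i j‖ := by
      funext j
      rw [Complex.norm_real, norm_norm]
    rw [h1]
    exact h.1 i
  · intro j
    have h1 : (fun i => ‖((‖V i j‖ : ℝ) : ℂ)‖) = fun i => ‖V i j‖ := by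
      funext i
      rw [Complex.norm_real, norm_norm]
    rw [h1]
    exact h.2 j

/-- families of matrices with a common summable majorant -/
def Dm {E : Type} (S : Set E) (K : E → Mat) : Prop :=
  ∃ B : ℕ × ℕ → ℝ, Summable B ∧ ∀ t ∈ S, ∀ i j, ‖K t i j‖ ≤ B (i, j)

variable {E : Type} {S : Set E}

theorem Dm.sm {K : E → Mat} (h : Dm S K) {t : E} (ht : t ∈ S) : Sm (K t) := by
  obtain ⟨B, hB, h1⟩ := h
  exact Summable.of_nonneg_of_le (fun p => norm_nonneg _) (fun p => h1 t ht p.1 p.2) hB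

theorem Dm.const {K : Mat} (h : Sm K) : Dm S fun _ => K :=
  ⟨fun p => ‖K p.1 p.2‖, h, fun _ _ _ _ => le_rfl⟩

theorem Dm.add {K K' : E → Mat} (h : Dm S K) (h' : Dm S K') : Dm S fun t => K t + K' t := by
  obtain ⟨B, hB, h1⟩ := h
  obtain ⟨B', hB', h1'⟩ := h'
  refine ⟨fun p => B p + B' p, hB.add hB', fun t ht i j => ?_⟩
  exact (norm_add_le _ _).trans (add_le_add (h1 t ht i j) (h1' t ht i j))

/-- PROOF. If `S` is empty trivial (take `B = 0`). Otherwise `B ≥ 0`. The majorant is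
`(i, j) ↦ ∑' k, B (i, k) * ‖V k j‖`; it is summable: it is the norm of the entry of `mmul` of the matrices
`(B (i, j) : ℂ)` and `(‖V i j‖ : ℂ)`, `sm_mul_right`. -/
theorem Dm.mulR {K : E → Mat} (h : Dm S K) {V : Mat} (hV : Bd V) :
    Dm S fun t => mmul (K t) V := by
  rcases S.eq_empty_or_nonempty with hS | ⟨t₀, ht₀⟩
  · refine ⟨fun _ => 0, summable_zero, fun t ht => ?_⟩
    rw [hS] at ht
    exact absurd ht (Set.notMem_empty t)
  obtain ⟨B, hB, h1⟩ := h
  obtain ⟨C, hC⟩ := hV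
  have h0 : ∀ p, 0 ≤ B p := fun p => (norm_nonneg _).trans (h1 t₀ ht₀ p.1 p.2)
  have h2 := mx_sm hB h0
  have h3 := mx_norm hC
  refine ⟨_, (sm_mul_right h3 h2).1, fun t ht i j => ?_⟩
  exact mx_maj (sm_bdC h2) h3 (h1 t ht) (fun i j => le_rfl) i j

/-- PROOF. As `Dm.mulR`, with the matrix `if j ≤ i then B (i - j) else 0` (`bdC_lower`) and
`sm_mul_left`. -/
theorem Dm.mulL {L K : E → Mat} {B : ℕ → ℝ} (hB : Summable B)
    (hL : ∀ t ∈ S, ∀ i j, j ≤ i → ‖L t i j‖ ≤ B (i - j)) (hz : ∀ t ∈ S, ∀ i j, i < j → L t i j = 0)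
    (h : Dm S K) : Dm S fun t => mmul (L t) (K t) := by
  rcases S.eq_empty_or_nonempty with hS | ⟨t₀, ht₀⟩
  · refine ⟨fun _ => 0, summable_zero, fun t ht => ?_⟩
    rw [hS] at ht
    exact absurd ht (Set.notMem_empty t)
  obtain ⟨B', hB', h1⟩ := h
  have h0' : ∀ p, 0 ≤ B' p := fun p => (norm_nonneg _).trans (h1 t₀ ht₀ p.1 p.2)
  have h0 : ∀ n, 0 ≤ B n := by
    intro n
    have h2 := (norm_nonneg _).trans (hL t₀ ht₀ n 0 (Nat.zero_le n))
    rwa [Nat.sub_zero] at h2
  have h2 := mx_sm hB' h0'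
  have h3 : BdC (∑' n, B n) fun i j => (((if j ≤ i then B (i - j) else 0 : ℝ)) : ℂ) := by
    refine bdC_lower hB h0 (fun i j hij => ?_) (fun i j hij => ?_)
    · rw [if_pos hij, Complex.norm_real, Real.norm_of_nonneg (h0 _)]
    · rw [if_neg (not_le.2 hij), Complex.ofReal_zero]
  refine ⟨_, (sm_mul_left h3 h2).1, fun t ht i j => ?_⟩
  refine mx_maj h3 (sm_bdC h2) (fun i j => ?_) (h1 t ht) i j
  by_cases hij : j ≤ i
  · rw [if_pos hij]
    exact hL t ht i j hij
  · rw [if_neg hij, hz t ht i j (not_le.1 hij), norm_zero]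

/-- finitely many entries -/
theorem sm_of_finite {K : Mat} {N : ℕ} (h : ∀ i j, K i j ≠ 0 → i < N ∧ j < N) : Sm K := by
  refine summable_of_ne_finset_zero (s := range N ×ˢ range N) fun p hp => ?_
  rw [mem_product, mem_range, mem_range] at hp
  by_contra h1
  exact hp (h p.1 p.2 fun h2 => h1 (by rw [h2, norm_zero]))

end Pool.Agent.Helper13.LT
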