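import Pool.Agent.Helper34.LT.Df

/-!
PROJECT LT, everywhere convergent power series in several variables and the class `RT`: basic facts.

HOW TO WORK ON A FILE (captain helper13): replace the sorrys, change no statement; private lemmas or
lemmas whose name starts with the name of the file are fine; all statements of imported files may be
used although they still have sorry. If a statement is false or awkward tell helper13 at once.
-/

set_option autoImplicit false

namespace Pool.Agent.Helper13.LT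

open Finset Filter Topology
open Pool.Agent.Helper34.LT

variable {ι : Type} [Fintype ι]

/-- everywhere convergent power series -/
def PS (c : (ι → ℕ) → ℂ) (f : (ι → ℂ) → ℂ) : Prop :=
  ∀ z, HasSum (fun m : ι → ℕ => c m * ∏ u, z u ^ m u) (f z)

open Classical in
/-- the pairs with sum `m` -/
noncomputable def adg (m : ι → ℕ) : Finset ((ι → ℕ) × (ι → ℕ)) :=
  (Fintype.piFinset fun u => range (m u + 1)).image fun i => (i, m - i)

/-- coefficients of the product -/
noncomputable def cv (c d : (ι → ℕ) → ℂ) (m : ι → ℕ) : ℂ := ∑ p ∈ adg m, c p.1 * d p.2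

/-- PROOF. `i u ≤ m u` for all `u`, and `m - i` is the pointwise difference. -/
theorem mem_adg {m : ι → ℕ} {p : (ι → ℕ) × (ι → ℕ)} : p ∈ adg m ↔ p.1 + p.2 = m := by
  classical
  unfold adg
  rw [mem_image]
  constructor
  · rintro ⟨i, hi, rfl⟩
    rw [Fintype.mem_piFinset] at hi
    funext u
    have h1 := mem_range.1 (hi u)
    simp only [Pi.add_apply, Pi.sub_apply]
    omega
  · rintro rfl
    refine ⟨p.1, ?_, ?_⟩
    · rw [Fintype.mem_piFinset]
      intro u
      rw [mem_range, Pi.add_apply]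
      omega
    · rw [add_tsub_cancel_left]

/-- PROOF. `z u = R` for all `u` in the hypothesis; the terms are `c m * R ^ (∑ u, m u)`, and a
convergent sum in `ℂ` is absolutely convergent. -/
theorem PS.summable {c : (ι → ℕ) → ℂ} {f : (ι → ℂ) → ℂ} (h : PS c f) {R : ℝ} (hR : 0 ≤ R) :
    Summable fun m : ι → ℕ => ‖c m‖ * R ^ (∑ u, m u) := by
  have h1 := (h (fun _ => (R : ℂ))).summable.norm
  refine h1.congr fun m => ?_
  rw [norm_mul, norm_prod]
  congr 1
  rw [← prod_pow_eq_pow_sum]
  refine prod_congr rfl fun u _ => ?_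
  rw [norm_pow, Complex.norm_real, Real.norm_of_nonneg hR]

/-- PROOF. Product of the geometric series, by induction on the number of variables or
`∏ u, ∑' n, x ^ n` (for instance: `Summable` on `ι → ℕ` of a product of summable nonnegative
functions; finite sums are bounded by `∏ u, ∑ n ∈ range N, x ^ n ≤ (1 - x)⁻¹ ^ card ι`). -/
theorem summable_geo {x : ℝ} (h0 : 0 ≤ x) (h1 : x < 1) :
    Summable (fun m : ι → ℕ => x ^ (∑ u, m u)) ∧
      ∑' m : ι → ℕ, x ^ (∑ u, m u) ≤ (1 - x)⁻¹ ^ Fintype.card ι := by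
  classical
  have hnn : ∀ m : ι → ℕ, 0 ≤ x ^ (∑ u, m u) := fun m => pow_nonneg h0 _
  have hle : ∀ s : Finset (ι → ℕ), ∑ m ∈ s, x ^ (∑ u, m u) ≤ (1 - x)⁻¹ ^ Fintype.card ι := by
    intro s
    set N : ℕ := (s.sup fun m => univ.sup m) + 1 with hN
    have hs : s ⊆ Fintype.piFinset (fun _ : ι => range N) := by
      intro m hm
      rw [Fintype.mem_piFinset]
      intro u
      rw [mem_range, hN, Nat.lt_succ_iff]
      have h2 : m u ≤ univ.sup m := le_sup (f := m) (mem_univ u)
      have h3 : univ.sup m ≤ s.sup fun m => univ.sup m :=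
        le_sup (f := fun m : ι → ℕ => univ.sup m) hm
      exact h2.trans h3
    have hgeo : ∑ n ∈ range N, x ^ n ≤ (1 - x)⁻¹ := by
      rw [← tsum_geometric_of_lt_one h0 h1]
      exact (summable_geometric_of_lt_one h0 h1).sum_le_tsum _ (fun n _ => pow_nonneg h0 n)
    calc ∑ m ∈ s, x ^ (∑ u, m u)
        ≤ ∑ m ∈ Fintype.piFinset (fun _ : ι => range N), x ^ (∑ u, m u) :=
          sum_le_sum_of_subset_of_nonneg hs (fun m _ _ => hnn m)
      _ = ∑ m ∈ Fintype.piFinset (fun _ : ι => range N), ∏ u, x ^ (m u) := by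
          refine sum_congr rfl fun m _ => ?_
          rw [prod_pow_eq_pow_sum]
      _ = ∏ _u : ι, ∑ n ∈ range N, x ^ n := by
          rw [prod_univ_sum]
      _ ≤ ∏ _u : ι, (1 - x)⁻¹ :=
          prod_le_prod (fun u _ => sum_nonneg fun n _ => pow_nonneg h0 n) (fun u _ => hgeo)
      _ = (1 - x)⁻¹ ^ Fintype.card ι := by
          rw [prod_const, card_univ]
  have hsum : Summable (fun m : ι → ℕ => x ^ (∑ u, m u)) := summable_of_sum_le hnn hle
  exact ⟨hsum, hsum.tsum_le_of_sum_le hle⟩

/-- Conversely a series with this bound converges.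
PROOF. `‖c m * ∏ z u ^ m u‖ ≤ ‖c m‖ * ‖z‖ ^ (∑ u, m u)`. -/
theorem PS.of_summable {c : (ι → ℕ) → ℂ}
    (h : ∀ R : ℝ, 0 ≤ R → Summable fun m : ι → ℕ => ‖c m‖ * R ^ (∑ u, m u)) :
    PS c fun z => ∑' m : ι → ℕ, c m * ∏ u, z u ^ m u := by
  intro z
  refine Summable.hasSum ?_
  refine Summable.of_norm_bounded (h ‖z‖ (norm_nonneg z)) fun m => ?_
  rw [norm_mul, norm_prod]
  refine mul_le_mul_of_nonneg_left ?_ (norm_nonneg _)
  rw [← prod_pow_eq_pow_sum]
  refine prod_le_prod (fun u _ => norm_nonneg _) fun u _ => ?_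
  rw [norm_pow]
  exact pow_le_pow_left₀ (norm_nonneg _) (norm_le_pi_norm z u) _

theorem PS.add {c d : (ι → ℕ) → ℂ} {f g : (ι → ℂ) → ℂ} (h : PS c f) (h' : PS d g) :
    PS (fun m => c m + d m) (fun z => f z + g z) := by
  intro z
  refine ((h z).add (h' z)).congr_fun ?_
  intro m
  exact add_mul _ _ _

theorem PS.smul {c : (ι → ℕ) → ℂ} {f : (ι → ℂ) → ℂ} (h : PS c f) (x : ℂ) :
    PS (fun m => x * c m) (fun z => x * f z) := by
  intro z
  refine ((h z).mul_left x).congr_fun ?_
  intro m
  exact mul_assoc _ _ _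

theorem PS.sub {c d : (ι → ℕ) → ℂ} {f g : (ι → ℂ) → ℂ} (h : PS c f) (h' : PS d g) :
    PS (fun m => c m - d m) (fun z => f z - g z) := by
  intro z
  refine ((h z).sub (h' z)).congr_fun ?_
  intro m
  exact sub_mul _ _ _

open Classical in
/-- PROOF. The only nonzero term is `m = 0`. -/
theorem PS.const (x : ℂ) : PS (ι := ι) (fun m => if m = 0 then x else 0) (fun _ => x) := by
  intro z
  have h : HasSum (fun m : ι → ℕ => (if m = 0 then x else 0) * ∏ u, z u ^ m u)
      ((if (0 : ι → ℕ) = 0 then x else 0) * ∏ u, z u ^ (0 : ι → ℕ) u) := by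
    refine hasSum_single 0 fun m hm => ?_
    rw [if_neg hm, zero_mul]
  rw [if_pos rfl] at h
  simpa using h

end Pool.Agent.Helper13.LT
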