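import Pool.Agent.Helper13.LT.Psb

/-!
PROJECT LT, everywhere convergent power series in several variables and the class `RT`: limits.

HOW TO WORK ON A FILE (captain helper13): replace the sorrys, change no statement; private lemmas or
lemmas whose name starts with the name of the file are fine; all statements of imported files may be
used although they still have sorry. If a statement is false or awkward tell helper13 at once.
-/

set_option autoImplicit false

namespace Pool.Agent.Helper13.LT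

open Finset Filter Topology
open Pool.Agent.Helper34.LT

variable {ι : Type} [Fintype ι]

private theorem Psl_cauchy {c : ℕ → (ι → ℕ) → ℂ} {f : ℕ → (ι → ℂ) → ℂ}
    (h : ∀ n, PS (c n) (f n)) {F : (ι → ℂ) → ℂ}
    (hF : ∀ R : ℝ, TendstoUniformlyOn f F atTop (Metric.closedBall 0 R))
    {R : ℝ} (hR : 0 ≤ R) {ε : ℝ} (hε : 0 < ε) :
    ∃ N, ∀ n, N ≤ n → ∀ k, N ≤ k → ∀ m, ‖c n m - c k m‖ * R ^ (∑ u, m u) ≤ ε := by
  have h1 := (hF R).uniformCauchySeqOn
  rw [Metric.uniformCauchySeqOn_iff] at h1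
  obtain ⟨N, hN⟩ := h1 ε hε
  refine ⟨N, fun n hn k hk m => ?_⟩
  refine PS.bound ((h n).sub (h k)) hR (fun z hz => ?_) m
  have h2 := hN n hn k hk z (by rwa [mem_closedBall_zero_iff])
  rw [dist_eq_norm] at h2
  exact h2.le

/-- Uniform limits on all balls.
PROOF. `PS.bound` for `f n - f k` (`PS.sub`): `‖c n m - c k m‖ R^|m|` is at most the supremum of
`‖f n - f k‖` on `‖z‖ ≤ R`, so `c n m` is a Cauchy sequence; let `C m` be its limit. In the limit
`k → ∞`: `‖c n m - C m‖ R^|m| ≤ e n R` with `e n R → 0` as `n → ∞`. For `‖z‖ ≤ r` take `R = 2 r + 1`: then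
`∑ ‖c n m - C m‖ r^|m| ≤ e n R * 2 ^ card ι` (`summable_geo` with `x = r / R ≤ 1/2`). So `C` has the bound of
`PS.of_summable`, and its sum at `z` is the limit of the `f n z`. -/
theorem PS.lim {c : ℕ → (ι → ℕ) → ℂ} {f : ℕ → (ι → ℂ) → ℂ} (h : ∀ n, PS (c n) (f n))
    {F : (ι → ℂ) → ℂ} (hF : ∀ R : ℝ, TendstoUniformlyOn f F atTop (Metric.closedBall 0 R)) :
    ∃ C : (ι → ℕ) → ℂ, PS C F ∧ ∀ m, Tendsto (fun n => c n m) atTop (𝓝 (C m)) := by
  have hC : ∀ m, ∃ x, Tendsto (fun n => c n m) atTop (𝓝 x) := by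
    intro m
    refine cauchySeq_tendsto_of_complete ?_
    rw [Metric.cauchySeq_iff]
    intro ε hε
    obtain ⟨N, hN⟩ := Psl_cauchy h hF zero_le_one (half_pos hε)
    refine ⟨N, fun n hn k hk => ?_⟩
    have h1 := hN n hn k hk m
    rw [one_pow, mul_one] at h1
    rw [dist_eq_norm]
    linarith
  choose C hC using hC
  have hlim : ∀ R : ℝ, 0 ≤ R → ∀ ε : ℝ, 0 < ε →
      ∃ N, ∀ n, N ≤ n → ∀ m, ‖c n m - C m‖ * R ^ (∑ u, m u) ≤ ε := by
    intro R hR ε hε
    obtain ⟨N, hN⟩ := Psl_cauchy h hF hR hε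
    refine ⟨N, fun n hn m => ?_⟩
    have h1 : Tendsto (fun k => ‖c n m - c k m‖ * R ^ (∑ u, m u)) atTop
        (𝓝 (‖c n m - C m‖ * R ^ (∑ u, m u))) :=
      ((tendsto_const_nhds.sub (hC m)).norm).mul_const _
    refine le_of_tendsto h1 ?_
    filter_upwards [eventually_ge_atTop N] with k hk
    exact hN n hn k hk m
  have hsum : ∀ r : ℝ, 0 ≤ r → ∀ ε : ℝ, 0 < ε → ∃ N, ∀ n, N ≤ n →
      Summable (fun m : ι → ℕ => ‖c n m - C m‖ * r ^ (∑ u, m u)) ∧
      ∑' m : ι → ℕ, ‖c n m - C m‖ * r ^ (∑ u, m u) ≤ ε := by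
    intro r hr ε hε
    have hpos : (0 : ℝ) < 2 ^ Fintype.card ι := by positivity
    obtain ⟨N, hN⟩ := hlim (2 * r + 1) (by linarith) (ε / 2 ^ Fintype.card ι) (div_pos hε hpos)
    refine ⟨N, fun n hn => ?_⟩
    obtain ⟨g1, g2⟩ := summable_geo (ι := ι) (x := 1 / 2) (by norm_num) (by norm_num)
    have h3 : ∀ m : ι → ℕ, ‖c n m - C m‖ * r ^ (∑ u, m u) ≤
        ε / 2 ^ Fintype.card ι * (1 / 2) ^ (∑ u, m u) := by
      intro m
      have h4 : r ^ (∑ u, m u) ≤ (2 * r + 1) ^ (∑ u, m u) * (1 / 2) ^ (∑ u, m u) := by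
        rw [← mul_pow]
        exact pow_le_pow_left₀ hr (by linarith) _
      calc ‖c n m - C m‖ * r ^ (∑ u, m u)
          ≤ ‖c n m - C m‖ * ((2 * r + 1) ^ (∑ u, m u) * (1 / 2) ^ (∑ u, m u)) :=
            mul_le_mul_of_nonneg_left h4 (norm_nonneg _)
        _ = (‖c n m - C m‖ * (2 * r + 1) ^ (∑ u, m u)) * (1 / 2) ^ (∑ u, m u) := by ring
        _ ≤ _ := mul_le_mul_of_nonneg_right (hN n hn m) (by positivity)
    have h5 : Summable (fun m : ι → ℕ => ε / 2 ^ Fintype.card ι * (1 / 2 : ℝ) ^ (∑ u, m u)) :=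
      g1.mul_left _
    have h6 : Summable (fun m : ι → ℕ => ‖c n m - C m‖ * r ^ (∑ u, m u)) :=
      Summable.of_nonneg_of_le (fun m => mul_nonneg (norm_nonneg _) (pow_nonneg hr _)) h3 h5
    refine ⟨h6, (h6.tsum_le_tsum h3 h5).trans ?_⟩
    rw [tsum_mul_left]
    calc ε / 2 ^ Fintype.card ι * ∑' m : ι → ℕ, (1 / 2 : ℝ) ^ (∑ u, m u)
        ≤ ε / 2 ^ Fintype.card ι * (1 - 1 / 2)⁻¹ ^ Fintype.card ι :=
          mul_le_mul_of_nonneg_left g2 (by positivity)
      _ = ε := by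
          have e : (1 - 1 / 2 : ℝ)⁻¹ = 2 := by norm_num
          rw [e]
          field_simp
  have hterm : ∀ (a : ℂ) (m : ι → ℕ) (z : ι → ℂ),
      ‖a * ∏ u, z u ^ m u‖ ≤ ‖a‖ * ‖z‖ ^ (∑ u, m u) := by
    intro a m z
    rw [norm_mul, norm_prod]
    refine mul_le_mul_of_nonneg_left ?_ (norm_nonneg _)
    rw [← prod_pow_eq_pow_sum]
    refine prod_le_prod (fun u _ => norm_nonneg _) fun u _ => ?_
    rw [norm_pow]
    exact pow_le_pow_left₀ (norm_nonneg _) (norm_le_pi_norm z u) _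
  have hPS : PS C fun z => ∑' m : ι → ℕ, C m * ∏ u, z u ^ m u := by
    refine PS.of_summable fun r hr => ?_
    obtain ⟨N, hN⟩ := hsum r hr 1 one_pos
    have h1 := ((h N).summable hr).add (hN N le_rfl).1
    refine Summable.of_nonneg_of_le (fun m => mul_nonneg (norm_nonneg _) (pow_nonneg hr _))
      (fun m => ?_) h1
    rw [← add_mul]
    refine mul_le_mul_of_nonneg_right ?_ (pow_nonneg hr _)
    have h2 : C m = c N m - (c N m - C m) := by ring
    calc ‖C m‖ = ‖c N m - (c N m - C m)‖ := by rw [← h2]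
      _ ≤ _ := norm_sub_le _ _
  have hval : (fun z => ∑' m : ι → ℕ, C m * ∏ u, z u ^ m u) = F := by
    funext z
    have h1 : Tendsto (fun n => f n z) atTop (𝓝 (F z)) :=
      (hF ‖z‖).tendsto_at (by rw [mem_closedBall_zero_iff])
    have h2 : Tendsto (fun n => f n z) atTop (𝓝 (∑' m : ι → ℕ, C m * ∏ u, z u ^ m u)) := by
      rw [Metric.tendsto_atTop]
      intro ε hε
      obtain ⟨N, hN⟩ := hsum ‖z‖ (norm_nonneg z) (ε / 2) (half_pos hε)
      refine ⟨N, fun n hn => ?_⟩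
      rw [dist_eq_norm]
      have h3 : HasSum (fun m : ι → ℕ => (c n m - C m) * ∏ u, z u ^ m u)
          (f n z - ∑' m : ι → ℕ, C m * ∏ u, z u ^ m u) := ((h n).sub hPS) z
      have h4 := tsum_of_norm_bounded (hN n hn).1.hasSum fun m => hterm (c n m - C m) m z
      rw [h3.tsum_eq] at h4
      have h5 := (hN n hn).2
      linarith
    exact tendsto_nhds_unique h2 h1
  rw [← hval]
  exact ⟨C, hPS, hC⟩

end Pool.Agent.Helper13.LT
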