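import Pool.Agent.Helper13.LT.Rta
import Pool.Agent.Helper13.LT.Psl

/-!
PROJECT LT, everywhere convergent power series in several variables and the class `RT`: the class RT, limits.

HOW TO WORK ON A FILE (captain helper13): replace the sorrys, change no statement; private lemmas or
lemmas whose name starts with the name of the file are fine; all statements of imported files may be
used although they still have sorry. If a statement is false or awkward tell helper13 at once.
-/

set_option autoImplicit false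

namespace Pool.Agent.Helper13.LT

open Finset Filter Topology
open Pool.Agent.Helper34.LT

variable {ι : Type} [Fintype ι]

private theorem Rtl_closed {x : ℕ → ℂ} {y : ℂ} (h : Tendsto x atTop (𝓝 y))
    (hx : ∀ n, ∃ a : ℤ, x n = a) : ∃ a : ℤ, y = a := by
  choose a ha using hx
  have hre : Tendsto (fun n => ((a n : ℤ) : ℝ)) atTop (𝓝 y.re) := by
    have h1 := (Complex.continuous_re.tendsto y).comp h
    refine h1.congr fun n => ?_
    simp [ha n]
  have him : Tendsto (fun _ : ℕ => (0 : ℝ)) atTop (𝓝 y.im) := by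
    have h1 := (Complex.continuous_im.tendsto y).comp h
    refine h1.congr fun n => ?_
    simp [ha n]
  have h2 : y.im = 0 := (tendsto_nhds_unique him tendsto_const_nhds)
  have h3 : y.re ∈ Set.range ((↑) : ℤ → ℝ) := by
    refine Int.isClosedEmbedding_coe_real.isClosed_range.mem_of_tendsto hre ?_
    exact Eventually.of_forall fun n => ⟨a n, rfl⟩
  obtain ⟨b, hb⟩ := h3
  refine ⟨b, Complex.ext ?_ ?_⟩
  · simp [hb]
  · simp [h2]

/-- PROOF. `RT_iff`, `PS.lim`; the numbers `c n m * (D^(|m|+k) ∏ (m u)!)` are integers and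
converge, so the limit is an integer (`Int.isClosedEmbedding_coe_real` or
`Complex`: the range of `ℤ` in `ℂ` is closed). -/
theorem RT.lim {D k : ℕ} (hD : 1 ≤ D) {f : ℕ → (ι → ℂ) → ℂ} (h : ∀ n, RT D k (f n))
    {F : (ι → ℂ) → ℂ} (hF : ∀ R : ℝ, TendstoUniformlyOn f F atTop (Metric.closedBall 0 R)) :
    RT D k F := by
  choose c hc hA using fun n => (RT_iff hD).1 (h n)
  obtain ⟨C, hC, hlim⟩ := PS.lim hc hF
  refine (RT_iff hD).2 ⟨C, hC, fun m => ?_⟩
  refine Rtl_closed ((hlim m).mul_const _) fun n => hA n m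

/-- A uniform limit of functions in `RT` whose coefficient at `m` is not zero is not zero. Here
`c n` are the coefficients of `f n`.
PROOF. If `F = 0` then `C = 0` (`PS.lim`, `PS.unique`), so `c n m → 0`; but
`‖c n m * (D^(|m|+k) ∏ (m u)!)‖ ≥ 1` as it is a nonzero integer. -/
theorem RT.lim_ne {D k : ℕ} (hD : 1 ≤ D) {f : ℕ → (ι → ℂ) → ℂ} (h : ∀ n, RT D k (f n))
    {c : ℕ → (ι → ℕ) → ℂ} (hc : ∀ n, PS (c n) (f n))
    {F : (ι → ℂ) → ℂ} (hF : ∀ R : ℝ, TendstoUniformlyOn f F atTop (Metric.closedBall 0 R))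
    (m : ι → ℕ) (hm : ∀ᶠ n in atTop, c n m ≠ 0) : ∃ z, F z ≠ 0 := by
  by_contra hcon
  push Not at hcon
  obtain ⟨C, hC, hlim⟩ := PS.lim hc hF
  have hF0 : F = fun _ => 0 := funext hcon
  have h0 : PS (ι := ι) (fun _ => 0) F := by
    rw [hF0]
    intro z
    simp
  have hC0 : C m = 0 := by
    have := PS.unique hC h0
    rw [this]
  have hlim0 := (hlim m).mul_const
    ((D : ℂ) ^ (∑ u, m u + k) * ∏ u, ((m u).factorial : ℂ))
  rw [hC0, zero_mul] at hlim0
  have hint : ∀ n, ∃ a : ℤ,
      c n m * ((D : ℂ) ^ (∑ u, m u + k) * ∏ u, ((m u).factorial : ℂ)) = a := by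
    intro n
    obtain ⟨d, hd, hA⟩ := (RT_iff hD).1 (h n)
    have := PS.unique (hc n) hd
    rw [this]
    exact hA m
  have hK : (D : ℂ) ^ (∑ u, m u + k) * ∏ u, ((m u).factorial : ℂ) ≠ 0 := by
    refine mul_ne_zero (pow_ne_zero _ ?_) (Finset.prod_ne_zero_iff.2 fun u _ => ?_)
    · exact Nat.cast_ne_zero.2 (by omega)
    · exact Nat.cast_ne_zero.2 (Nat.factorial_ne_zero _)
  have h1 : ∀ᶠ n in atTop, ‖c n m * ((D : ℂ) ^ (∑ u, m u + k) *
      ∏ u, ((m u).factorial : ℂ))‖ < 1 := by
    have h2 := hlim0.norm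
    rw [norm_zero] at h2
    exact h2.eventually (gt_mem_nhds one_pos)
  obtain ⟨n, hn1, hn2⟩ := (h1.and hm).exists
  obtain ⟨a, ha⟩ := hint n
  have h3 : (a : ℂ) ≠ 0 := by
    rw [← ha]
    exact mul_ne_zero hn2 hK
  have h4 : a ≠ 0 := by
    intro h5
    exact h3 (by rw [h5]; simp)
  rw [ha, Complex.norm_intCast] at hn1
  have h5 : |a| < 1 := by exact_mod_cast hn1
  have h6 := Int.abs_lt_one_iff.1 h5
  exact h4 h6

end Pool.Agent.Helper13.LT
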