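import Pool.Agent.Helper13.LT.Ps

/-!
PROJECT LT, everywhere convergent power series in several variables and the class `RT`: coefficient bound.

HOW TO WORK ON A FILE (captain helper13): replace the sorrys, change no statement; private lemmas or
lemmas whose name starts with the name of the file are fine; all statements of imported files may be
used although they still have sorry. If a statement is false or awkward tell helper13 at once.
-/

set_option autoImplicit false

namespace Pool.Agent.Helper13.LT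

open Finset Filter Topology
open Pool.Agent.Helper34.LT

variable {ι : Type} [Fintype ι]

omit [Fintype ι] in
/-- a sum of roots of unity -/
private theorem Psb_geo (n : ℕ) (hn : 0 < n) (a b : ℕ) :
    ∑ j : Fin n, Complex.exp (-(2 * Real.pi * Complex.I * (j : ℕ) * (b : ℂ) / n)) *
      Complex.exp (2 * Real.pi * Complex.I * (j : ℕ) / n) ^ a =
      if a ≡ b [MOD n] then (n : ℂ) else 0 := by
  have hn0 : (n : ℂ) ≠ 0 := Nat.cast_ne_zero.2 hn.ne'
  have hpi : (2 * Real.pi * Complex.I : ℂ) ≠ 0 := Complex.two_pi_I_ne_zero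
  set w : ℂ := Complex.exp (2 * Real.pi * Complex.I * ((a : ℂ) - b) / n) with hw
  have h1 : ∀ j : Fin n, Complex.exp (-(2 * Real.pi * Complex.I * (j : ℕ) * (b : ℂ) / n)) *
      Complex.exp (2 * Real.pi * Complex.I * (j : ℕ) / n) ^ a = w ^ (j : ℕ) := by
    intro j
    rw [← Complex.exp_nat_mul, ← Complex.exp_add, hw, ← Complex.exp_nat_mul]
    congr 1
    field_simp
    ring
  have hwn : w ^ n = 1 := by
    rw [hw, ← Complex.exp_nat_mul, Complex.exp_eq_one_iff]
    refine ⟨(a : ℤ) - b, ?_⟩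
    push_cast
    field_simp
  have hone : w = 1 ↔ a ≡ b [MOD n] := by
    rw [hw, Complex.exp_eq_one_iff]
    constructor
    · rintro ⟨t, ht⟩
      have h2 : ((a : ℂ) - b) = t * n := by
        have h3 : (2 * Real.pi * Complex.I : ℂ) * ((a : ℂ) - b) =
            (2 * Real.pi * Complex.I : ℂ) * (t * n) := by
          field_simp at ht
          linear_combination (2 * Real.pi * Complex.I : ℂ) * ht
        exact mul_left_cancel₀ hpi h3
      have h4 : (a : ℤ) - b = t * n := by exact_mod_cast h2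
      rw [Nat.modEq_iff_dvd]
      refine ⟨-t, ?_⟩
      linarith
    · intro h2
      rw [Nat.modEq_iff_dvd] at h2
      obtain ⟨t, ht⟩ := h2
      refine ⟨-t, ?_⟩
      have h3 : ((b : ℂ) - a) = n * t := by exact_mod_cast ht
      have h4 : (a : ℂ) - b = -(n * t) := by linear_combination -h3
      rw [h4]
      push_cast
      field_simp
  simp only [h1]
  rw [Fin.sum_univ_eq_sum_range (fun i => w ^ i) n]
  by_cases hc : w = 1
  · rw [if_pos (hone.1 hc), hc]
    simp
  · rw [if_neg (fun h => hc (hone.2 h)), geom_sum_eq hc, hwn, sub_self, zero_div]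

/-- Averages over roots of unity.
PROOF. For `0 < n` put `ω j = exp (2 π i j / n)`, `j < n`. The average over `J : ι → Fin n` of
`∏ u, ω (J u) ^ (-(m u))` times `∏ u, (R ω (J u)) ^ k u` is `R ^ (∑ k u)` if `k u ≡ m u mod n` for all
`u`, and `0` otherwise (product over `u` of geometric sums). Sum over `k` with the coefficients `c k`
(`HasSum` and finite averages commute). -/
theorem PS.avg [DecidableEq ι] {c : (ι → ℕ) → ℂ} {f : (ι → ℂ) → ℂ} (h : PS c f) {R : ℝ} (hR : 0 ≤ R)
    (m : ι → ℕ) (n : ℕ) (hn : 0 < n) :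
    HasSum (fun k : ι → ℕ => if ∀ u, k u ≡ m u [MOD n] then c k * (R : ℂ) ^ (∑ u, k u) else 0)
      (((n : ℂ) ^ Fintype.card ι)⁻¹ * ∑ J : ι → Fin n,
        (∏ u, Complex.exp (-(2 * Real.pi * Complex.I * (J u : ℕ) * (m u : ℂ) / n))) *
          f fun u => R * Complex.exp (2 * Real.pi * Complex.I * (J u : ℕ) / n)) := by
  have hn0 : (n : ℂ) ≠ 0 := Nat.cast_ne_zero.2 hn.ne'
  have h1 : HasSum (fun k : ι → ℕ => ((n : ℂ) ^ Fintype.card ι)⁻¹ * ∑ J : ι → Fin n,
      (∏ u, Complex.exp (-(2 * Real.pi * Complex.I * (J u : ℕ) * (m u : ℂ) / n))) *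
        (c k * ∏ u, ((R : ℂ) * Complex.exp (2 * Real.pi * Complex.I * (J u : ℕ) / n)) ^ k u))
      (((n : ℂ) ^ Fintype.card ι)⁻¹ * ∑ J : ι → Fin n,
        (∏ u, Complex.exp (-(2 * Real.pi * Complex.I * (J u : ℕ) * (m u : ℂ) / n))) *
          f fun u => R * Complex.exp (2 * Real.pi * Complex.I * (J u : ℕ) / n)) :=
    HasSum.mul_left _ (hasSum_sum fun J _ => HasSum.mul_left _ (h _))
  convert h1 using 1
  funext k
  symm
  have h2 : ∑ J : ι → Fin n,
      (∏ u, Complex.exp (-(2 * Real.pi * Complex.I * (J u : ℕ) * (m u : ℂ) / n))) *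
        (c k * ∏ u, ((R : ℂ) * Complex.exp (2 * Real.pi * Complex.I * (J u : ℕ) / n)) ^ k u) =
      c k * (R : ℂ) ^ (∑ u, k u) * ∏ u, ∑ j : Fin n,
        Complex.exp (-(2 * Real.pi * Complex.I * (j : ℕ) * (m u : ℂ) / n)) *
          Complex.exp (2 * Real.pi * Complex.I * (j : ℕ) / n) ^ k u := by
    have h3 := Finset.prod_univ_sum (fun _ : ι => (Finset.univ : Finset (Fin n)))
      (fun u j => Complex.exp (-(2 * Real.pi * Complex.I * (j : ℕ) * (m u : ℂ) / n)) *
          Complex.exp (2 * Real.pi * Complex.I * (j : ℕ) / n) ^ k u)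
    rw [Fintype.piFinset_univ] at h3
    rw [h3, Finset.mul_sum]
    refine Finset.sum_congr rfl fun J _ => ?_
    rw [Finset.prod_mul_distrib]
    have h4 : ∏ u, ((R : ℂ) * Complex.exp (2 * Real.pi * Complex.I * (J u : ℕ) / n)) ^ k u =
        (R : ℂ) ^ (∑ u, k u) *
          ∏ u, Complex.exp (2 * Real.pi * Complex.I * (J u : ℕ) / n) ^ k u := by
      simp only [mul_pow]
      rw [Finset.prod_mul_distrib, Finset.prod_pow_eq_pow_sum]
    rw [h4]
    ring
  rw [h2]
  simp only [Psb_geo n hn]
  by_cases hk : ∀ u, k u ≡ m u [MOD n]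
  · rw [if_pos hk, Finset.prod_congr rfl fun u _ => if_pos (hk u), Finset.prod_const,
      Finset.card_univ]
    field_simp
  · rw [if_neg hk]
    push Not at hk
    obtain ⟨u, hu⟩ := hk
    rw [Finset.prod_eq_zero (Finset.mem_univ u) (if_neg hu), mul_zero, mul_zero]

/-- Cauchy's bound for the coefficients.
PROOF. `PS.avg` for `n > ∑ m u`: the right side has norm at most `B`. The left side is
`c m R^|m|` plus the sum over the `k ≠ m` with `k ≡ m mod n`; every such `k` has some `k u ≥ n`, so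
`∑ k u ≥ n` and this sum is at most the tail `∑_(∑ k u ≥ n) ‖c k‖ R^(∑ k u)`, which tends to `0` as
`n → ∞` (`PS.summable`; `tendsto_tsum_of_dominated_convergence`). -/
theorem PS.bound {c : (ι → ℕ) → ℂ} {f : (ι → ℂ) → ℂ} (h : PS c f) {R B : ℝ} (hR : 0 ≤ R)
    (hB : ∀ z : ι → ℂ, ‖z‖ ≤ R → ‖f z‖ ≤ B) (m : ι → ℕ) : ‖c m‖ * R ^ (∑ u, m u) ≤ B := by
  classical
  have key : ∀ n : ℕ, 0 < n →
      ‖∑' k : ι → ℕ, (if ∀ u, k u ≡ m u [MOD n] then c k * (R : ℂ) ^ (∑ u, k u) else 0)‖ ≤ B := by
    intro n hn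
    have h1 := PS.avg h hR m n hn
    rw [h1.tsum_eq, norm_mul, norm_inv, norm_pow, Complex.norm_natCast]
    have hn0 : (0 : ℝ) < (n : ℝ) ^ Fintype.card ι := pow_pos (Nat.cast_pos.2 hn) _
    have h2 : ‖∑ J : ι → Fin n,
        (∏ u, Complex.exp (-(2 * Real.pi * Complex.I * (J u : ℕ) * (m u : ℂ) / n))) *
          f fun u => R * Complex.exp (2 * Real.pi * Complex.I * (J u : ℕ) / n)‖ ≤
        (n : ℝ) ^ Fintype.card ι * B := by
      have h3 : ∀ J ∈ (Finset.univ : Finset (ι → Fin n)),
          ‖(∏ u, Complex.exp (-(2 * Real.pi * Complex.I * (J u : ℕ) * (m u : ℂ) / n))) *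
            f fun u => R * Complex.exp (2 * Real.pi * Complex.I * (J u : ℕ) / n)‖ ≤ B := by
        intro J _
        have e1 : ∀ x : ℝ, ‖Complex.exp (x * Complex.I)‖ = 1 := Complex.norm_exp_ofReal_mul_I
        have e2 : ∀ u, ‖Complex.exp (-(2 * Real.pi * Complex.I * (J u : ℕ) * (m u : ℂ) / n))‖
            = 1 := by
          intro u
          have e3 : (-(2 * Real.pi * Complex.I * (J u : ℕ) * (m u : ℂ) / n) : ℂ) =
              ((-(2 * Real.pi * (J u : ℕ) * (m u : ℝ) / n) : ℝ) : ℂ) * Complex.I := by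
            push_cast
            ring
          rw [e3, e1]
        have e4 : ∀ u, ‖Complex.exp (2 * Real.pi * Complex.I * (J u : ℕ) / n)‖ = 1 := by
          intro u
          have e3 : (2 * Real.pi * Complex.I * (J u : ℕ) / n : ℂ) =
              ((2 * Real.pi * (J u : ℕ) / n : ℝ) : ℂ) * Complex.I := by
            push_cast
            ring
          rw [e3, e1]
        rw [norm_mul, norm_prod, Finset.prod_congr rfl fun u _ => e2 u, Finset.prod_const_one,
          one_mul]
        refine hB _ ((pi_norm_le_iff_of_nonneg hR).2 fun u => ?_)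
        rw [norm_mul, e4, mul_one, Complex.norm_real, Real.norm_of_nonneg hR]
      refine (norm_sum_le_of_le _ h3).trans (le_of_eq ?_)
      rw [Finset.sum_const, Finset.card_univ, Fintype.card_fun, Fintype.card_fin, nsmul_eq_mul]
      push_cast
      rfl
    calc _ ≤ ((n : ℝ) ^ Fintype.card ι)⁻¹ * ((n : ℝ) ^ Fintype.card ι * B) :=
          mul_le_mul_of_nonneg_left h2 (inv_nonneg.2 hn0.le)
      _ = B := by
          rw [← mul_assoc, inv_mul_cancel₀ hn0.ne', one_mul]
  have hlim : Tendsto (fun n : ℕ => ∑' k : ι → ℕ,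
      (if ∀ u, k u ≡ m u [MOD n] then c k * (R : ℂ) ^ (∑ u, k u) else 0)) atTop
      (𝓝 (∑' k : ι → ℕ, (if k = m then c k * (R : ℂ) ^ (∑ u, k u) else 0))) := by
    refine tendsto_tsum_of_dominated_convergence (h.summable hR) (fun k => ?_)
      (Eventually.of_forall fun n k => ?_)
    · refine tendsto_const_nhds.congr' ?_
      filter_upwards [eventually_gt_atTop ((∑ u, k u) + ∑ u, m u)] with n hn
      have h1 : (∀ u, k u ≡ m u [MOD n]) ↔ k = m := by
        constructor
        · intro h2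
          funext u
          have h3 : k u ≤ ∑ u, k u := Finset.single_le_sum (fun _ _ => Nat.zero_le _)
            (Finset.mem_univ u)
          have h4 : m u ≤ ∑ u, m u := Finset.single_le_sum (fun _ _ => Nat.zero_le _)
            (Finset.mem_univ u)
          exact Nat.ModEq.eq_of_lt_of_lt (h2 u) (by omega) (by omega)
        · rintro rfl u
          exact Nat.ModEq.refl _
      by_cases h2 : k = m
      · rw [if_pos h2, if_pos (h1.2 h2)]
      · rw [if_neg h2, if_neg (fun h3 => h2 (h1.1 h3))]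
    · split_ifs
      · rw [norm_mul, norm_pow, Complex.norm_real, Real.norm_of_nonneg hR]
      · rw [norm_zero]
        exact mul_nonneg (norm_nonneg _) (pow_nonneg hR _)
  have hval : ∑' k : ι → ℕ, (if k = m then c k * (R : ℂ) ^ (∑ u, k u) else 0) =
      c m * (R : ℂ) ^ (∑ u, m u) := by
    rw [tsum_eq_single m fun k hk => if_neg hk, if_pos rfl]
  rw [hval] at hlim
  have h3 := le_of_tendsto hlim.norm
    ((eventually_gt_atTop 0).mono fun n hn => key n hn)
  rwa [norm_mul, norm_pow, Complex.norm_real, Real.norm_of_nonneg hR] at h3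

/-- PROOF. `PS.sub` and `PS.bound` with `R = 1`, `B = 0`. -/
theorem PS.unique {c d : (ι → ℕ) → ℂ} {f : (ι → ℂ) → ℂ} (h : PS c f) (h' : PS d f) : c = d := by
  funext m
  have h1 := PS.bound (h.sub h') (R := 1) (B := 0) zero_le_one (fun z _ => by
    simp) m
  rw [one_pow, mul_one] at h1
  exact sub_eq_zero.1 (norm_le_zero_iff.1 h1)

end Pool.Agent.Helper13.LT
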