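import Pool.Agent.Helper13.LT.Ps

/-!
PROJECT LT, everywhere convergent power series in several variables and the class `RT`: differentiability.

HOW TO WORK ON A FILE (captain helper13): replace the sorrys, change no statement; private lemmas or
lemmas whose name starts with the name of the file are fine; all statements of imported files may be
used although they still have sorry. If a statement is false or awkward tell helper13 at once.
-/

set_option autoImplicit false

namespace Pool.Agent.Helper13.LT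

open Finset Filter Topology
open Pool.Agent.Helper34.LT

variable {ι : Type} [Fintype ι]

open Classical in
/-- the derivative of the monomial -/
private noncomputable def psdMono (c : (ι → ℕ) → ℂ) (m : ι → ℕ) (z : ι → ℂ) : (ι → ℂ) →L[ℂ] ℂ :=
  c m • ∑ u, (∏ v ∈ univ.erase u, z v ^ m v) •
    (((m u : ℂ) * z u ^ (m u - 1)) • (ContinuousLinearMap.proj u : (ι → ℂ) →L[ℂ] ℂ))

private theorem psd_hasFDerivAt (c : (ι → ℕ) → ℂ) (m : ι → ℕ) (z : ι → ℂ) :
    HasFDerivAt (fun z : ι → ℂ => c m * ∏ u, z u ^ m u) (psdMono c m z) z := by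
  classical
  have h1 : ∀ u ∈ (univ : Finset ι), HasFDerivAt (fun z : ι → ℂ => z u ^ m u)
      (((m u : ℂ) * z u ^ (m u - 1)) • (ContinuousLinearMap.proj u : (ι → ℂ) →L[ℂ] ℂ)) z := by
    intro u _
    have h := (hasDerivAt_pow (m u) (z u)).comp_hasFDerivAt z
      (ContinuousLinearMap.hasFDerivAt (ContinuousLinearMap.proj u : (ι → ℂ) →L[ℂ] ℂ))
    exact h
  have h2 := HasFDerivAt.finsetProd h1
  have h3 := h2.const_mul (c m)
  unfold psdMono
  exact h3

private theorem psd_bound (c : (ι → ℕ) → ℂ) (m : ι → ℕ) (z : ι → ℂ) {R : ℝ} (hR : 1 ≤ R)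
    (hz : ∀ u, ‖z u‖ ≤ R) :
    ‖psdMono c m z‖ ≤ ‖c m‖ * (2 * R) ^ (∑ u, m u) := by
  classical
  have hR0 : 0 ≤ R := le_trans zero_le_one hR
  unfold psdMono
  rw [norm_smul]
  refine mul_le_mul_of_nonneg_left ?_ (norm_nonneg _)
  refine le_trans (norm_sum_le _ _) ?_
  have h1 : ∀ u ∈ (univ : Finset ι), ‖(∏ v ∈ univ.erase u, z v ^ m v) •
      (((m u : ℂ) * z u ^ (m u - 1)) • (ContinuousLinearMap.proj u : (ι → ℂ) →L[ℂ] ℂ))‖
      ≤ (m u : ℝ) * R ^ (∑ u, m u) := by
    intro u _
    rw [norm_smul, norm_smul, norm_prod, norm_mul, norm_pow, Complex.norm_natCast]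
    have hp : ‖(ContinuousLinearMap.proj u : (ι → ℂ) →L[ℂ] ℂ)‖ ≤ 1 := by
      refine ContinuousLinearMap.opNorm_le_bound _ zero_le_one fun w => ?_
      simpa using norm_le_pi_norm w u
    have ha : ∏ v ∈ univ.erase u, ‖z v ^ m v‖ ≤ R ^ (∑ v ∈ univ.erase u, m v) := by
      rw [← Finset.prod_pow_eq_pow_sum]
      refine Finset.prod_le_prod (fun v _ => norm_nonneg _) fun v _ => ?_
      rw [norm_pow]
      exact pow_le_pow_left₀ (norm_nonneg _) (hz v) _
    have hb : ‖z u‖ ^ (m u - 1) ≤ R ^ m u :=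
      le_trans (pow_le_pow_left₀ (norm_nonneg _) (hz u) _) (pow_le_pow_right₀ hR (Nat.sub_le _ _))
    have hs : ∑ v ∈ univ.erase u, m v + m u = ∑ v, m v :=
      Finset.sum_erase_add _ _ (mem_univ u)
    have hP0 : 0 ≤ R ^ (∑ v ∈ univ.erase u, m v) := pow_nonneg hR0 _
    calc (∏ v ∈ univ.erase u, ‖z v ^ m v‖) * ((m u : ℝ) * ‖z u‖ ^ (m u - 1) *
          ‖(ContinuousLinearMap.proj u : (ι → ℂ) →L[ℂ] ℂ)‖)
        ≤ R ^ (∑ v ∈ univ.erase u, m v) * ((m u : ℝ) * R ^ m u * 1) := by
          refine mul_le_mul ha ?_ (by positivity) hP0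
          refine mul_le_mul ?_ hp (norm_nonneg _) (by positivity)
          exact mul_le_mul_of_nonneg_left hb (Nat.cast_nonneg _)
      _ = (m u : ℝ) * R ^ (∑ u, m u) := by
          rw [← hs, pow_add]; ring
  refine le_trans (Finset.sum_le_sum h1) ?_
  rw [← Finset.sum_mul, mul_pow, ← Nat.cast_sum]
  refine mul_le_mul_of_nonneg_right ?_ (pow_nonneg hR0 _)
  exact_mod_cast (Nat.lt_two_pow_self (n := ∑ u, m u)).le

/-- PROOF. `hasFDerivAt_tsum_of_isPreconnected` (or `differentiable_tsum`) on a ball `‖z‖ < R`,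
`R ≥ 1`: the derivative of the monomial `c m * ∏ z u ^ m u` has norm at most
`‖c m‖ * (∑ m u) * R ^ (∑ m u) ≤ ‖c m‖ * (2 R) ^ (∑ m u)`, summable by `PS.summable`
(the derivative of the monomial: `HasFDerivAt` of a finite product of powers of coordinates). -/
theorem PS.diff {c : (ι → ℕ) → ℂ} {f : (ι → ℂ) → ℂ} (h : PS c f) : Differentiable ℂ f := by
  intro z
  have hf : f = fun z => ∑' m : ι → ℕ, c m * ∏ u, z u ^ m u := by
    funext w
    exact (h w).tsum_eq.symm
  set R : ℝ := ‖z‖ + 1 with hRdef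
  have hR : 1 ≤ R := by
    rw [hRdef]; linarith [norm_nonneg z]
  have hsum := PS.summable h (R := 2 * R) (by linarith)
  have key := hasFDerivAt_tsum_of_isPreconnected (𝕜 := ℂ) (u := fun m : ι → ℕ => ‖c m‖ * (2 * R) ^ (∑ u, m u))
    (f := fun (m : ι → ℕ) (z : ι → ℂ) => c m * ∏ u, z u ^ m u)
    (f' := fun (m : ι → ℕ) (z : ι → ℂ) => psdMono c m z)
    (s := Metric.ball (0 : ι → ℂ) R) (x₀ := z) (x := z) hsum Metric.isOpen_ball
    (convex_ball _ _).isPreconnected
    (fun m x _ => psd_hasFDerivAt c m x)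
    (fun m x hx => psd_bound c m x hR fun u => by
      have h1 : ‖x‖ < R := by simpa using hx
      exact le_trans (norm_le_pi_norm x u) h1.le)
    (by simp [hRdef]) (h z).summable (by simp [hRdef])
  rw [hf]
  exact key.differentiableAt

end Pool.Agent.Helper13.LT
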