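import Pool.Agent.Helper34.LT.Df

/-!
PROJECT LT: the scales `rho` are algebraic over the field of the values of the Gamma function.
-/

set_option autoImplicit false

namespace Pool.Agent.Helper13.LT

open Finset
open Pool.Agent.Helper34.LT

private theorem Ral_root {z : ℂ} {n : ℕ} (hn : 0 < n) (h : z ^ n = 1) : IsAlgebraic ℚ z := by
  refine ⟨Polynomial.X ^ n - 1, ?_, by simp [h]⟩
  exact (Polynomial.monic_X_pow_sub_C (1 : ℚ) hn.ne').ne_zero

/-- `exp (i π c / q)` is algebraic -/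
private theorem Ral_exp {q : ℕ} (hq : 0 < q) (c : ℤ) :
    IsAlgebraic ℚ (Complex.exp (Complex.I * Real.pi * ((c : ℂ) / q))) := by
  have hq0 : (q : ℂ) ≠ 0 := by exact_mod_cast hq.ne'
  refine Ral_root (n := 2 * q) (by omega) ?_
  rw [← Complex.exp_nat_mul]
  have h : ((2 * q : ℕ) : ℂ) * (Complex.I * Real.pi * ((c : ℂ) / q)) =
      c * (2 * Real.pi * Complex.I) := by
    push_cast
    field_simp
  rw [h]
  exact Complex.exp_int_mul_two_pi_mul_I c

theorem rho_alg (q a b u : ℕ) (hq : q.Prime) (ha : ¬ q ∣ a) (hb : ¬ q ∣ b) (hab : ¬ q ∣ a + b)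
    (hu : u ∈ Phi q a b) :
    IsAlgebraic (IntermediateField.adjoin ℚ
      {x : ℂ | ∃ a : ℕ, 1 ≤ a ∧ a < q ∧ x = Complex.Gamma ((a : ℂ) / q)}) (rho q a b u) := by
  set F := IntermediateField.adjoin ℚ
      {x : ℂ | ∃ a : ℕ, 1 ≤ a ∧ a < q ∧ x = Complex.Gamma ((a : ℂ) / q)} with hF
  have hq0 : (q : ℂ) ≠ 0 := by exact_mod_cast hq.ne_zero
  have hG : ∀ c : ℕ, 1 ≤ c → c < q → IsAlgebraic F (Complex.Gamma ((c : ℂ) / q)) := by
    intro c h1 h2
    have hm : Complex.Gamma ((c : ℂ) / q) ∈ F :=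
      IntermediateField.subset_adjoin ℚ _ ⟨c, h1, h2, rfl⟩
    exact isAlgebraic_algebraMap (⟨_, hm⟩ : F)
  have hQ : ∀ z : ℂ, IsAlgebraic ℚ z → IsAlgebraic F z := fun z hz => hz.tower_top F
  have hE : ∀ c : ℤ, IsAlgebraic F (Complex.exp (Complex.I * Real.pi * ((c : ℂ) / q))) :=
    fun c => hQ _ (Ral_exp hq.pos c)
  have hI : IsAlgebraic F Complex.I := hQ _ (Ral_root (n := 4) (by norm_num) Complex.I_pow_four)
  have h2 : IsAlgebraic F (2 : ℂ) := hQ _ (by
    have := isAlgebraic_algebraMap (R := ℚ) (A := ℂ) (2 : ℚ)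
    simpa using this)
  -- pi
  have hsin : IsAlgebraic F (Complex.sin (Real.pi * (1 / q))) := by
    rw [Complex.sin]
    have h3 : Complex.exp (-(Real.pi * (1 / q) : ℂ) * Complex.I) =
        Complex.exp (Complex.I * Real.pi * (((-1 : ℤ) : ℂ) / q)) := by
      congr 1
      push_cast
      ring
    have h4 : Complex.exp ((Real.pi * (1 / q) : ℂ) * Complex.I) =
        Complex.exp (Complex.I * Real.pi * (((1 : ℤ) : ℂ) / q)) := by
      congr 1
      push_cast
      ring
    rw [h3, h4, div_eq_mul_inv]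
    exact (((hE _).sub (hE _)).mul hI).mul h2.inv
  have hpi : IsAlgebraic F (Real.pi : ℂ) := by
    have h3 := Complex.Gamma_mul_Gamma_one_sub (1 / (q : ℂ))
    have h4 : (1 : ℂ) - 1 / q = ((q - 1 : ℕ) : ℂ) / q := by
      rw [Nat.cast_sub hq.one_le]
      field_simp
      push_cast
      ring
    have hs : Complex.sin (Real.pi * (1 / q)) ≠ 0 := by
      have h5 : Complex.sin (Real.pi * (1 / q)) = ((Real.sin (Real.pi * (1 / q)) : ℝ) : ℂ) := by
        push_cast
        rfl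
      rw [h5]
      have h6 : 0 < Real.sin (Real.pi * (1 / q)) := by
        have hqr : (1 : ℝ) < q := by exact_mod_cast hq.one_lt
        refine Real.sin_pos_of_pos_of_lt_pi (by positivity) ?_
        have h7 : (1 : ℝ) / q < 1 := by
          rw [div_lt_one (by linarith)]
          exact hqr
        calc Real.pi * (1 / q) < Real.pi * 1 := mul_lt_mul_of_pos_left h7 Real.pi_pos
          _ = Real.pi := mul_one _
      exact_mod_cast h6.ne'
    have h8 : (Real.pi : ℂ) = Complex.Gamma (((1 : ℕ) : ℂ) / q) *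
        Complex.Gamma (((q - 1 : ℕ) : ℂ) / q) * Complex.sin (Real.pi * (1 / q)) := by
      rw [← h4, Nat.cast_one, h3, div_mul_cancel₀ _ hs]
    rw [h8]
    exact ((hG 1 le_rfl hq.one_lt).mul (hG (q - 1) (by have := hq.two_le; omega)
      (by have := hq.pos; omega))).mul hsin
  -- the exponents
  unfold Phi at hu
  rw [mem_filter, mem_Icc] at hu
  obtain ⟨⟨hu1, hu2⟩, hu3⟩ := hu
  have hA1 := Nat.mod_lt (u * a) hq.pos
  have hB1 := Nat.mod_lt (u * b) hq.pos
  set A := (u * a) % q with hA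
  set B := (u * b) % q with hB
  have hal : ((al q a u : ℝ) : ℂ) = (A : ℂ) / q := by
    unfold al
    push_cast
    rfl
  have hbe : ((al q b u : ℝ) : ℂ) = (B : ℂ) / q := by
    unfold al
    push_cast
    rfl
  have hqr : (0 : ℝ) < q := by exact_mod_cast hq.pos
  have hre : ∀ c : ℕ, 0 < c → 0 < ((c : ℂ) / q).re := by
    intro c hc
    have h3 : ((c : ℂ) / q) = (((c : ℝ) / q : ℝ) : ℂ) := by push_cast; rfl
    rw [h3, Complex.ofReal_re]
    have : (0 : ℝ) < c := by exact_mod_cast hc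
    positivity
  have hcast : (A : ℂ) / q + (B : ℂ) / q - 1 = ((A + B - q : ℕ) : ℂ) / q := by
    rw [Nat.cast_sub hu3.le]
    push_cast
    field_simp
  have hne : ((A + B - q : ℕ) : ℂ) / q ≠ 0 := by
    refine div_ne_zero ?_ hq0
    exact_mod_cast (by omega : A + B - q ≠ 0)
  have hbeta := Complex.Gamma_mul_Gamma_eq_betaIntegral (hre A (by omega)) (hre B (by omega))
  have hadd : Complex.Gamma ((A : ℂ) / q + (B : ℂ) / q) =
      ((A + B - q : ℕ) : ℂ) / q * Complex.Gamma (((A + B - q : ℕ) : ℂ) / q) := by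
    rw [← Complex.Gamma_add_one _ hne, ← hcast]
    congr 1
    ring
  have hGA : Complex.Gamma ((A : ℂ) / q) ≠ 0 := Complex.Gamma_ne_zero_of_re_pos (hre A (by omega))
  have hGB : Complex.Gamma ((B : ℂ) / q) ≠ 0 := Complex.Gamma_ne_zero_of_re_pos (hre B (by omega))
  have hGC : Complex.Gamma (((A + B - q : ℕ) : ℂ) / q) ≠ 0 :=
    Complex.Gamma_ne_zero_of_re_pos (hre _ (by omega))
  have hkey : Complex.betaIntegral ((A : ℂ) / q) ((B : ℂ) / q) * (((A + B - q : ℕ) : ℂ) / q) =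
      Complex.Gamma ((A : ℂ) / q) * Complex.Gamma ((B : ℂ) / q) *
        (Complex.Gamma (((A + B - q : ℕ) : ℂ) / q))⁻¹ := by
    rw [hbeta, hadd]
    field_simp
  have hrho : rho q a b u = 2 * Real.pi * Complex.I *
      Complex.exp (Complex.I * Real.pi * ((((q : ℤ) - (B : ℤ) : ℤ) : ℂ) / q)) *
      (Complex.Gamma ((A : ℂ) / q) * Complex.Gamma ((B : ℂ) / q) *
        (Complex.Gamma (((A + B - q : ℕ) : ℂ) / q))⁻¹)⁻¹ := by
    unfold rho
    rw [hal, hbe, hcast, hkey, div_eq_mul_inv]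
    congr 3
    push_cast
    field_simp
    ring
  rw [hrho]
  refine ((((h2.mul hpi).mul hI).mul (hE _)).mul ?_)
  exact ((((hG A (by omega) hA1).mul (hG B (by omega) hB1)).mul
    (hG _ (by omega) (by omega)).inv)).inv

end Pool.Agent.Helper13.LT
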