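import Pool.Agent.Helper13.LT.Mta

/-!
PROJECT LT, block F1-F3: majorant of the matrices `Rm`.

HOW TO WORK ON A FILE (captain helper13): replace the sorrys, change no statement; private lemmas or
lemmas whose name starts with the name of the file are fine; all statements of imported files may be
used although they still have sorry. If a statement is false or awkward tell helper13 at once.
-/

set_option autoImplicit false

namespace Pool.Agent.Helper13.LT

open Finset Filter Topology
open Pool.Agent.Helper34.LT Pool.Agent.Helper11.LT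

/-- PROOF. For `(i, l)` with `i < l` the terms `2^i h l`; for fixed `l` their sum is less than
`2^l h l`. So the family on `ℕ × ℕ` is summable, and the row sums are summable. -/
theorem tail_summable {h : ℕ → ℝ} (h0 : ∀ l, 0 ≤ h l) (hs : Summable fun l => h l * 2 ^ l) :
    Summable fun i : ℕ => (2 : ℝ) ^ i * ∑' l, if i < l then h l else 0 := by
  have hpos : ∀ i l : ℕ, (0 : ℝ) ≤ if i < l then (2 : ℝ) ^ i * h l else 0 := by
    intro i l
    split_ifs
    · exact mul_nonneg (by positivity) (h0 l)
    · exact le_rfl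
  have hout : ∀ l i : ℕ, i ∉ range l → (if i < l then (2 : ℝ) ^ i * h l else 0) = 0 := by
    intro l i hi
    exact if_neg fun h1 => hi (mem_range.2 h1)
  have hg : Summable fun x : ℕ × ℕ => if x.2 < x.1 then (2 : ℝ) ^ x.2 * h x.1 else 0 := by
    rw [summable_prod_of_nonneg fun x => hpos x.2 x.1]
    refine ⟨fun l => summable_of_ne_finset_zero (s := range l) fun i hi => hout l i hi, ?_⟩
    refine Summable.of_nonneg_of_le (fun l => tsum_nonneg fun i => hpos i l) (fun l => ?_) hs
    change ∑' i : ℕ, (if i < l then (2 : ℝ) ^ i * h l else 0) ≤ h l * 2 ^ l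
    rw [tsum_eq_sum (s := range l) fun i hi => hout l i hi]
    have h1 : ∑ i ∈ range l, (if i < l then (2 : ℝ) ^ i * h l else 0) =
        (∑ i ∈ range l, (2 : ℝ) ^ i) * h l := by
      rw [sum_mul]
      exact sum_congr rfl fun i hi => if_pos (mem_range.1 hi)
    rw [h1, geom_sum_eq (by norm_num) l, mul_comm]
    refine mul_le_mul_of_nonneg_left ?_ (h0 l)
    linarith
  have hf : Summable fun x : ℕ × ℕ => if x.1 < x.2 then (2 : ℝ) ^ x.1 * h x.2 else 0 :=
    (Equiv.prodComm ℕ ℕ).summable_iff.1 (hg.congr fun x => rfl)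
  refine hf.prod.congr fun i => ?_
  rw [← tsum_mul_left]
  refine tsum_congr fun l => ?_
  change (if i < l then (2 : ℝ) ^ i * h l else 0) = (2 : ℝ) ^ i * (if i < l then h l else 0)
  split_ifs
  · rfl
  · exact (mul_zero _).symm

/-- PROOF. If `R < 0` the ball is empty. `‖wt (Rm t) i j‖ ≤ 2^i * 2^(-j) * ∑' l, if i < l then hb R l else 0`
(`ej_norm_le`, `hl_norm_le`); `tail_summable`, `hb_summable` (`x = 2`), `Summable.mul_of_nonneg`. -/
theorem Rm_dom {q : ℕ} (hq : q.Prime) (a b : ℕ) (R : ℝ) :
    Dm (Metric.closedBall (0 : Phi q a b → ℂ) R) fun t => wt (Rm q a b t) := by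
  rcases lt_or_ge R 0 with hR | hR
  · refine ⟨fun _ => 0, summable_zero, fun t ht => ?_⟩
    rw [Metric.closedBall_eq_empty.2 hR] at ht
    exact absurd ht (Set.notMem_empty t)
  have h0 : ∀ l, 0 ≤ hb q a b R l := fun l => hb_nonneg hR l
  have h2 : Summable fun l => hb q a b R l * 2 ^ l := hb_summable hR (by norm_num)
  have h1 : Summable fun l => hb q a b R l := by
    refine Summable.of_nonneg_of_le h0 (fun l => ?_) h2
    exact le_mul_of_one_le_right (h0 l) (one_le_pow₀ (by norm_num))
  have h3 : ∀ i : ℕ, Summable fun l => if i < l then hb q a b R l else 0 := by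
    intro i
    refine Summable.of_nonneg_of_le (fun l => ?_) (fun l => ?_) h1
    · split_ifs
      · exact h0 l
      · exact le_rfl
    · split_ifs
      · exact le_rfl
      · exact h0 l
  refine ⟨fun x => ((2 : ℝ) ^ x.1 * ∑' l, if x.1 < l then hb q a b R l else 0) *
    (1 / 2 : ℝ) ^ x.2, ?_, fun t ht i j => ?_⟩
  · refine (tail_summable h0 h2).mul_of_nonneg summable_geometric_two (fun i => ?_) fun j => ?_
    · refine mul_nonneg (by positivity) (tsum_nonneg fun l => ?_)
      split_ifs
      · exact h0 l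
      · exact le_rfl
    · change (0 : ℝ) ≤ (1 / 2 : ℝ) ^ j
      positivity
  · have h4 : ‖Rm q a b t i j‖ ≤ ∑' l, if i < l then hb q a b R l else 0 := by
      unfold Rm
      refine tsum_of_norm_bounded (h3 i).hasSum fun l => ?_
      split_ifs
      · rw [norm_mul]
        have h5 := ej_norm_le hq a b i j l
        have h6 := hl_norm_le (q := q) (a := a) (b := b)
          (mem_closedBall_zero_iff.1 ht) l
        calc _ ≤ 1 * hb q a b R l := mul_le_mul h5 h6 (norm_nonneg _) zero_le_one
          _ = _ := one_mul _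
      · rw [norm_zero]
    have h5 : ‖(2 : ℂ) ^ ((i : ℤ) - (j : ℤ))‖ = (2 : ℝ) ^ i * (1 / 2 : ℝ) ^ j := by
      rw [norm_zpow, Complex.norm_ofNat, zpow_sub₀ (by norm_num), zpow_natCast, zpow_natCast,
        one_div, inv_pow, div_eq_mul_inv]
    unfold wt
    rw [norm_mul, h5]
    calc (2 : ℝ) ^ i * (1 / 2 : ℝ) ^ j * ‖Rm q a b t i j‖
        ≤ (2 : ℝ) ^ i * (1 / 2 : ℝ) ^ j * ∑' l, (if i < l then hb q a b R l else 0) :=
          mul_le_mul_of_nonneg_left h4 (by positivity)
      _ = _ := by ring

end Pool.Agent.Helper13.LT
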