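import Pool.Agent.Helper13.LT.Psm
import Pool.Agent.Helper13.LT.Psd

/-!
PROJECT LT, everywhere convergent power series in several variables and the class `RT`: the class RT, linear operations.

HOW TO WORK ON A FILE (captain helper13): replace the sorrys, change no statement; private lemmas or
lemmas whose name starts with the name of the file are fine; all statements of imported files may be
used although they still have sorry. If a statement is false or awkward tell helper13 at once.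
-/

set_option autoImplicit false

namespace Pool.Agent.Helper13.LT

open Finset Filter Topology
open Pool.Agent.Helper34.LT

variable {ι : Type} [Fintype ι]

private theorem Rta_ne {D : ℕ} (hD : 1 ≤ D) (k : ℕ) (m : ι → ℕ) :
    (D : ℂ) ^ (∑ u, m u + k) * ∏ u, ((m u).factorial : ℂ) ≠ 0 := by
  refine mul_ne_zero (pow_ne_zero _ ?_) (Finset.prod_ne_zero_iff.2 fun u _ => ?_)
  · exact Nat.cast_ne_zero.2 (by omega)
  · exact Nat.cast_ne_zero.2 (Nat.factorial_ne_zero _)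

/-- PROOF. The definition with `c m = A m / (D^(|m|+k) ∏ (m u)!)`; `D ≠ 0`. -/
theorem RT_iff {D k : ℕ} (hD : 1 ≤ D) {f : (ι → ℂ) → ℂ} : RT D k f ↔
    ∃ c : (ι → ℕ) → ℂ, PS c f ∧ ∀ m : ι → ℕ, ∃ a : ℤ,
      c m * ((D : ℂ) ^ (∑ u, m u + k) * ∏ u, ((m u).factorial : ℂ)) = a := by
  constructor
  · rintro ⟨A, hA⟩
    refine ⟨fun m => (A m : ℂ) / ((D : ℂ) ^ (∑ u, m u + k) * ∏ u, ((m u).factorial : ℂ)), hA,
      fun m => ⟨A m, ?_⟩⟩
    exact div_mul_cancel₀ _ (Rta_ne hD k m)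
  · rintro ⟨c, hc, hA⟩
    choose A hA using hA
    refine ⟨A, fun z => ?_⟩
    have h1 : (fun m : ι → ℕ => (A m : ℂ) / ((D : ℂ) ^ (∑ u, m u + k) *
        ∏ u, ((m u).factorial : ℂ)) * ∏ u, z u ^ m u) = fun m => c m * ∏ u, z u ^ m u := by
      funext m
      rw [← hA m, mul_div_cancel_right₀ _ (Rta_ne hD k m)]
    rw [h1]
    exact hc z

theorem RT.diff {D k : ℕ} (hD : 1 ≤ D) {f : (ι → ℂ) → ℂ} (h : RT D k f) : Differentiable ℂ f := by
  obtain ⟨c, hc, -⟩ := (RT_iff hD).1 h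
  exact hc.diff

/-- PROOF. Multiply `A m` by `(D' / D)^(|m| + k) * D'^(k' - k)`. -/
theorem RT.mono {D D' k k' : ℕ} (hD : 1 ≤ D) (hD' : 1 ≤ D') (hDD : D ∣ D') (hk : k ≤ k')
    {f : (ι → ℂ) → ℂ} (h : RT D k f) : RT D' k' f := by
  obtain ⟨c, hc, hA⟩ := (RT_iff hD).1 h
  refine (RT_iff hD').2 ⟨c, hc, fun m => ?_⟩
  obtain ⟨a, ha⟩ := hA m
  obtain ⟨E, rfl⟩ := hDD
  obtain ⟨j, rfl⟩ := Nat.exists_eq_add_of_le hk
  refine ⟨a * ((E : ℤ) ^ (∑ u, m u + k) * ((D : ℤ) * E) ^ j), ?_⟩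
  push_cast
  rw [← ha, ← add_assoc, pow_add _ (∑ u, m u + k) j, mul_pow (D : ℂ) (E : ℂ) (∑ u, m u + k)]
  ring

theorem RT.add {D k : ℕ} (hD : 1 ≤ D) {f g : (ι → ℂ) → ℂ} (h : RT D k f) (h' : RT D k g) :
    RT D k (fun z => f z + g z) := by
  obtain ⟨c, hc, hA⟩ := (RT_iff hD).1 h
  obtain ⟨d, hd, hB⟩ := (RT_iff hD).1 h'
  refine (RT_iff hD).2 ⟨_, hc.add hd, fun m => ?_⟩
  obtain ⟨a, ha⟩ := hA m
  obtain ⟨b, hb⟩ := hB m
  refine ⟨a + b, ?_⟩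
  rw [add_mul, ha, hb]
  push_cast
  rfl

private theorem Rta_zsmul {D k : ℕ} (hD : 1 ≤ D) {f : (ι → ℂ) → ℂ} (h : RT D k f) (x : ℤ) :
    RT D k (fun z => (x : ℂ) * f z) := by
  obtain ⟨c, hc, hA⟩ := (RT_iff hD).1 h
  refine (RT_iff hD).2 ⟨_, hc.smul (x : ℂ), fun m => ?_⟩
  obtain ⟨a, ha⟩ := hA m
  refine ⟨x * a, ?_⟩
  rw [mul_assoc, ha]
  push_cast
  rfl

theorem RT.neg {D k : ℕ} (hD : 1 ≤ D) {f : (ι → ℂ) → ℂ} (h : RT D k f) :
    RT D k (fun z => - f z) := by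
  have h1 := Rta_zsmul hD h (-1)
  have h2 : (fun z => (((-1 : ℤ)) : ℂ) * f z) = fun z => - f z := by
    funext z
    push_cast
    ring
  rwa [h2] at h1

/-- integer constants -/
theorem RT.const {D : ℕ} (hD : 1 ≤ D) (x : ℤ) : RT (ι := ι) D 0 (fun _ => (x : ℂ)) := by
  classical
  have h0 := PS.const (ι := ι) (x : ℂ)
  refine (RT_iff hD).2 ⟨_, h0, fun m => ?_⟩
  by_cases hm : m = 0
  · refine ⟨x, ?_⟩
    subst hm
    simp
  · refine ⟨0, ?_⟩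
    simp [hm]

theorem RT.zsmul {D k : ℕ} (hD : 1 ≤ D) {f : (ι → ℂ) → ℂ} (h : RT D k f) (x : ℤ) :
    RT D k (fun z => (x : ℂ) * f z) := Rta_zsmul hD h x

/-- rescaling by integers -/
theorem RT.scale {D k : ℕ} (hD : 1 ≤ D) {f : (ι → ℂ) → ℂ} (h : RT D k f) (y : ι → ℤ) :
    RT D k (fun z => f fun u => y u * z u) := by
  obtain ⟨c, hc, hA⟩ := (RT_iff hD).1 h
  refine (RT_iff hD).2 ⟨_, hc.scale fun u => (y u : ℂ), fun m => ?_⟩
  obtain ⟨a, ha⟩ := hA m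
  refine ⟨a * ∏ u, y u ^ m u, ?_⟩
  push_cast
  rw [← ha]
  ring

/-- shrinking the variables: `D' = D * E`.
PROOF. `c m / ∏ E^(m u)`. -/
theorem RT.shrink {D k E : ℕ} (hD : 1 ≤ D) (hE : 1 ≤ E) {f : (ι → ℂ) → ℂ} (h : RT D k f)
    (e : ι → ℕ) (he : ∀ u, e u ∣ E) :
    RT (D * E) k (fun z => f fun u => z u / (e u : ℂ)) := by
  obtain ⟨c, hc, hA⟩ := (RT_iff hD).1 h
  have h1 : (fun z : ι → ℂ => f fun u => z u / (e u : ℂ)) =
      fun z => f fun u => ((e u : ℂ))⁻¹ * z u := by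
    funext z
    congr 1
    funext u
    rw [div_eq_mul_inv, mul_comm]
  rw [h1]
  refine (RT_iff (Nat.mul_pos hD hE)).2 ⟨_, hc.scale fun u => ((e u : ℂ))⁻¹, fun m => ?_⟩
  obtain ⟨a, ha⟩ := hA m
  choose g hg using he
  have hprod : (∏ u, ((e u : ℂ))⁻¹ ^ m u) * (E : ℂ) ^ (∑ u, m u) = ∏ u, (g u : ℂ) ^ m u := by
    rw [← Finset.prod_pow_eq_pow_sum, ← Finset.prod_mul_distrib]
    refine Finset.prod_congr rfl fun u _ => ?_
    have h2 : (e u : ℂ) ≠ 0 := by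
      refine Nat.cast_ne_zero.2 fun h3 => ?_
      have h4 := hg u
      rw [h3, zero_mul] at h4
      omega
    rw [← mul_pow]
    congr 1
    have h3 : (E : ℂ) = e u * g u := by exact_mod_cast hg u
    rw [h3, inv_mul_cancel_left₀ h2]
  refine ⟨a * ((∏ u, (g u : ℤ) ^ m u) * (E : ℤ) ^ k), ?_⟩
  push_cast
  rw [← ha, ← hprod, mul_pow (D : ℂ) (E : ℂ), pow_add (E : ℂ)]
  ring

end Pool.Agent.Helper13.LT
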