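import Pool.Agent.Helper34.LT.Fd

/-!
PROJECT LT, block F1-F3: the semigroup of pole orders, part a (classes, gaps).

HOW TO WORK ON A FILE (captain helper13): replace the sorrys, change no statement; private lemmas or
lemmas whose name starts with the name of the file are fine; all statements of imported files may be
used although they still have sorry. If a statement is false or awkward tell helper13 at once.
-/

set_option autoImplicit false

namespace Pool.Agent.Helper13.LT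

open Finset
open Pool.Agent.Helper34.LT

private theorem Sga_mem {q a b : ℕ} (u : Phi q a b) : 1 ≤ (u : ℕ) ∧ (u : ℕ) ≤ q - 1 ∧
    q < ((u : ℕ) * a) % q + ((u : ℕ) * b) % q := by
  have h := u.2
  unfold Phi at h
  rw [mem_filter, mem_Icc] at h
  exact ⟨h.1.1, h.1.2, h.2⟩

/-- the values at `u ∈ Phi` are at least `1` and at most `q - 2`.
PROOF. `q < (u a) % q + (u b) % q ≤ 2 q - 2`. -/
theorem kk_pos {q a b : ℕ} (u : Phi q a b) : 1 ≤ kk q a b u := by
  have h := (Sga_mem u).2.2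
  unfold kk
  omega

theorem kk_le {q a b : ℕ} (u : Phi q a b) : kk q a b u ≤ q - 2 := by
  obtain ⟨h1, h2, h3⟩ := Sga_mem u
  have hq : 0 < q := by omega
  have h4 := Nat.mod_lt ((u : ℕ) * a) hq
  have h5 := Nat.mod_lt ((u : ℕ) * b) hq
  unfold kk
  omega

theorem cls_lt {q : ℕ} (hq : q.Prime) (a b n : ℕ) : cls q a b n < q := by
  have : NeZero q := ⟨hq.ne_zero⟩
  exact ZMod.val_lt _

theorem cls_spec {q a b : ℕ} (hq : q.Prime) (hab : ¬ q ∣ a + b) (n : ℕ) :
    cls q a b n * (a + b) ≡ n [MOD q] := by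
  have : Fact q.Prime := ⟨hq⟩
  have h0 : ((a + b : ℕ) : ZMod q) ≠ 0 := by
    intro h
    exact hab ((ZMod.natCast_eq_zero_iff _ _).1 h)
  rw [← ZMod.natCast_eq_natCast_iff, Nat.cast_mul]
  unfold cls
  rw [ZMod.natCast_zmod_val, mul_assoc, inv_mul_cancel₀ h0, mul_one]

theorem cls_eq {q a b : ℕ} (hq : q.Prime) (hab : ¬ q ∣ a + b) {k n : ℕ} (hk : k < q)
    (h : k * (a + b) ≡ n [MOD q]) : cls q a b n = k := by
  have : Fact q.Prime := ⟨hq⟩
  have h0 : ((a + b : ℕ) : ZMod q) ≠ 0 := by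
    intro h
    exact hab ((ZMod.natCast_eq_zero_iff _ _).1 h)
  rw [← ZMod.natCast_eq_natCast_iff, Nat.cast_mul] at h
  unfold cls
  rw [← h, mul_assoc, mul_inv_cancel₀ h0, mul_one, ZMod.val_natCast, Nat.mod_eq_of_lt hk]

theorem cls_congr {q a b m n : ℕ} (h : m ≡ n [MOD q]) : cls q a b m = cls q a b n := by
  unfold cls
  rw [(ZMod.natCast_eq_natCast_iff _ _ _).2 h]

theorem bt_congr {q a b m n : ℕ} (h : m ≡ n [MOD q]) : bt q a b m = bt q a b n := by
  rw [bt, bt, cls_congr h]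

theorem bt_nonneg (q a b n : ℕ) : 0 ≤ bt q a b n := by
  unfold bt al
  positivity

theorem bt_lt_one {q : ℕ} (hq : q.Prime) (a b n : ℕ) : bt q a b n < 1 := by
  unfold bt al
  have h0 : (0 : ℝ) < q := by exact_mod_cast hq.pos
  rw [div_lt_one h0]
  exact_mod_cast Nat.mod_lt _ hq.pos

theorem bt_eq (q a b n : ℕ) : ∃ k : ℕ, bt q a b n = (k : ℝ) / (q : ℝ) := ⟨_, rfl⟩

theorem Nk_modEq (q a b k : ℕ) : Nk q a b k ≡ k * (a + b) [MOD q] := by
  unfold Nk
  rw [mul_add]
  exact (Nat.mod_modEq _ _).add (Nat.mod_modEq _ _)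

theorem Nk_le {q : ℕ} (hq : q.Prime) (a b k : ℕ) : Nk q a b k ≤ 2 * q - 2 := by
  have h4 := Nat.mod_lt (k * a) hq.pos
  have h5 := Nat.mod_lt (k * b) hq.pos
  unfold Nk
  omega

private theorem Sga_kk {q a b : ℕ} (u : Phi q a b) : kk q a b u + q = Nk q a b u := by
  have h := (Sga_mem u).2.2
  unfold kk Nk
  omega

theorem kk_modEq {q a b : ℕ} (u : Phi q a b) : kk q a b u ≡ (u : ℕ) * (a + b) [MOD q] := by
  have h1 : kk q a b u ≡ kk q a b u + q [MOD q] := by
    unfold Nat.ModEq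
    rw [Nat.add_mod_right]
  rw [Sga_kk] at h1
  exact h1.trans (Nk_modEq q a b u)

private theorem Sga_cls {q a b : ℕ} (hq : q.Prime) (hab : ¬ q ∣ a + b) (u : Phi q a b) :
    cls q a b (kk q a b u) = u := by
  obtain ⟨h1, h2, -⟩ := Sga_mem u
  exact cls_eq hq hab (by omega) (kk_modEq u).symm

private theorem Sga_cls_zero (q a b : ℕ) : cls q a b 0 = 0 := by
  unfold cls
  rw [Nat.cast_zero, zero_mul, ZMod.val_zero]

private theorem Sga_Nk_zero (q a b : ℕ) : Nk q a b 0 = 0 := by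
  unfold Nk
  simp

/-- the gaps are the numbers `kk u`.
PROOF. Let `k = cls n`. If `n < Nk k` then `Nk k - n` is a positive multiple of `q` (`Nk_modEq`,
`cls_spec`) smaller than `2 q`, so `Nk k = n + q`. `n = 0` is impossible (`cls 0 = 0`, `Nk 0 = 0`), so
`Nk k > q`, `k ∈ Phi` and `kk k = n`. Conversely if `kk u = n` then `cls n = u` (`cls_eq`, `kk_modEq`)
and `Nk u = n + q > n`. -/
theorem not_sg_iff {q a b : ℕ} (hq : q.Prime) (hab : ¬ q ∣ a + b) (n : ℕ) :
    ¬ sg q a b n ↔ ∃ u : Phi q a b, kk q a b u = n := by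
  constructor
  · intro h
    unfold sg at h
    rw [not_le] at h
    have hle := Nk_le hq a b (cls q a b n)
    have hq2 := hq.two_le
    have h1 : Nk q a b (cls q a b n) ≡ n [MOD q] :=
      (Nk_modEq q a b (cls q a b n)).trans (cls_spec hq hab n)
    have h2 : q ∣ Nk q a b (cls q a b n) - n := (Nat.modEq_iff_dvd' h.le).1 h1.symm
    obtain ⟨c, hc⟩ := h2
    have h3 : c = 1 := by
      have h4 : c ≠ 0 := by
        rintro rfl
        omega
      have h5 : c < 2 := by
        by_contra h6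
        have h7 : q * 2 ≤ q * c := Nat.mul_le_mul_left q (by omega)
        omega
      omega
    rw [h3, mul_one] at hc
    have hn : n ≠ 0 := by
      rintro rfl
      rw [Sga_cls_zero, Sga_Nk_zero] at hc
      omega
    have hk0 : cls q a b n ≠ 0 := by
      intro h0
      rw [h0, Sga_Nk_zero] at hc
      omega
    have hkq := cls_lt hq a b n
    have hmem : cls q a b n ∈ Phi q a b := by
      unfold Phi
      rw [mem_filter, mem_Icc]
      refine ⟨⟨by omega, by omega⟩, ?_⟩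
      have h8 : Nk q a b (cls q a b n) = n + q := by omega
      unfold Nk at h8
      omega
    refine ⟨⟨_, hmem⟩, ?_⟩
    have h9 := Sga_kk (⟨_, hmem⟩ : Phi q a b)
    change kk q a b (cls q a b n) + q = Nk q a b (cls q a b n) at h9
    change kk q a b (cls q a b n) = n
    omega
  · rintro ⟨u, rfl⟩ h
    unfold sg at h
    rw [Sga_cls hq hab, ← Sga_kk] at h
    have := hq.pos
    omega

/-- PROOF. `cls (kk u) = u`. -/
theorem kk_inj {q a b : ℕ} (hq : q.Prime) (hab : ¬ q ∣ a + b) :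
    Function.Injective fun u : Phi q a b => kk q a b u := by
  intro u v h
  apply Subtype.ext
  rw [← Sga_cls hq hab u, ← Sga_cls hq hab v]
  exact congrArg (cls q a b) h

/-- PROOF. `not_sg_iff`, `kk_le`, `1 < q`. -/
theorem sg_of_le {q a b : ℕ} (hq : q.Prime) (hab : ¬ q ∣ a + b) {n : ℕ} (h : q - 1 ≤ n) :
    sg q a b n := by
  by_contra hn
  obtain ⟨u, hu⟩ := (not_sg_iff hq hab n).1 hn
  have h1 := kk_le u
  have h2 := hq.two_le
  omega

theorem sg_zero (q a b : ℕ) : sg q a b 0 := by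
  unfold sg
  rw [Sga_cls_zero, Sga_Nk_zero]

/-- `1` is a gap.
PROOF. If `sg 1`, then for `k = cls 1`, `Nk k ≤ 1`, `Nk k ≡ 1`, so `Nk k = 1` (as `1 < q`), so one of
`(k a) % q`, `(k b) % q` is `0`, so `q ∣ k` (`q` does not divide `a`, `b`), `k = 0`, `Nk k = 0`. -/
theorem exists_kk_one {q a b : ℕ} (hq : q.Prime) (ha : ¬ q ∣ a) (hb : ¬ q ∣ b) (hab : ¬ q ∣ a + b) :
    ∃ u : Phi q a b, kk q a b u = 1 := by
  rw [← not_sg_iff hq hab]
  intro h
  unfold sg at h
  have hq2 := hq.two_le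
  have h1 : Nk q a b (cls q a b 1) ≡ 1 [MOD q] :=
    (Nk_modEq q a b (cls q a b 1)).trans (cls_spec hq hab 1)
  have h2 : Nk q a b (cls q a b 1) = 1 := by
    have h3 : Nk q a b (cls q a b 1) % q = 1 % q := h1
    rw [Nat.mod_eq_of_lt (by omega), Nat.mod_eq_of_lt (by omega)] at h3
    exact h3
  have h4 : q ∣ cls q a b 1 := by
    unfold Nk at h2
    rcases (by omega : (cls q a b 1 * a) % q = 0 ∨ (cls q a b 1 * b) % q = 0) with h5 | h5
    · exact (hq.dvd_mul.1 (Nat.dvd_of_mod_eq_zero h5)).resolve_right ha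
    · exact (hq.dvd_mul.1 (Nat.dvd_of_mod_eq_zero h5)).resolve_right hb
  have h6 := Nat.eq_zero_of_dvd_of_lt h4 (cls_lt hq a b 1)
  rw [h6, Sga_Nk_zero] at h2
  omega

theorem zt_pow_q {q : ℕ} (hq : q.Prime) : zt q ^ q = 1 :=
  (Complex.isPrimitiveRoot_exp q hq.ne_zero).pow_eq_one

theorem zt_ne_zero (q : ℕ) : zt q ≠ 0 := Complex.exp_ne_zero _

/-- PROOF. `kk_modEq`, `zt_pow_q`. -/
theorem zt_pow_kk {q a b : ℕ} (hq : q.Prime) (u : Phi q a b) :
    zt q ^ ((u : ℕ) * (a + b)) = zt q ^ kk q a b u := by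
  have h1 : ∀ n : ℕ, zt q ^ n = zt q ^ (n % q) := by
    intro n
    conv_lhs => rw [← Nat.mod_add_div n q]
    rw [pow_add, pow_mul, zt_pow_q hq, one_pow, mul_one]
  rw [h1, h1 (kk q a b u), (kk_modEq u : _ % q = _ % q)]

end Pool.Agent.Helper13.LT
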