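import Pool.Agent.Helper13.LT.Sga

/-!
PROJECT LT, block F1-F3: the semigroup of pole orders, part b (the sequence `nn`).

HOW TO WORK ON A FILE (captain helper13): replace the sorrys, change no statement; private lemmas or
lemmas whose name starts with the name of the file are fine; all statements of imported files may be
used although they still have sorry. If a statement is false or awkward tell helper13 at once.
-/

set_option autoImplicit false

namespace Pool.Agent.Helper13.LT

open Finset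
open Pool.Agent.Helper34.LT

private theorem Sgb_mod {q a u : ℕ} (ha : Nat.Coprime a q) (h1 : 1 ≤ u) (h2 : u < q) :
    0 < (u * a) % q ∧ (u * a) % q + ((q - u) * a) % q = q := by
  have hq : 0 < q := by omega
  have h3 : (u * a) % q ≠ 0 := by
    intro h
    have h4 : q ∣ u := Nat.Coprime.dvd_of_dvd_mul_right ha.symm (Nat.dvd_of_mod_eq_zero h)
    exact absurd (Nat.le_of_dvd (by omega) h4) (by omega)
  have h5 := Nat.mod_lt (u * a) hq
  have h6 := Nat.mod_lt ((q - u) * a) hq
  have h7 : q ∣ (u * a) % q + ((q - u) * a) % q := by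
    rw [Nat.dvd_iff_mod_eq_zero, ← Nat.add_mod, ← Nat.add_mul,
      Nat.add_sub_cancel' h2.le, Nat.mul_mod_right]
  obtain ⟨c, hc⟩ := h7
  have h8 : c = 1 := by
    have h9 : c ≠ 0 := by
      rintro rfl
      omega
    have h10 : c < 2 := by
      by_contra h11
      have h12 : q * 2 ≤ q * c := Nat.mul_le_mul_left q (by omega)
      omega
    omega
  rw [h8, mul_one] at hc
  exact ⟨by omega, hc⟩

private theorem Sgb_ne {q a b u : ℕ} (hab : Nat.Coprime (a + b) q) (h1 : 1 ≤ u) (h2 : u < q) :
    (u * a) % q + (u * b) % q ≠ q := by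
  intro h
  have h3 := (Sgb_mod hab h1 h2).1
  rw [mul_add, Nat.add_mod, h, Nat.mod_self] at h3
  exact absurd h3 (lt_irrefl 0)

/-- PROOF. For `1 ≤ u < q` put `s u = (u a) % q + (u b) % q`. As `(u a) % q + ((q - u) a) % q = q` (both are
not zero), `s u + s (q - u) = 2 q`, and `s u ≠ q` because `q` does not divide `u (a + b)`. So exactly one
of `u`, `q - u` is in `Phi`: the image of `Phi` under `u ↦ q - u` is the complement of `Phi` in
`Icc 1 (q - 1)`. So `2 * card = q - 1`. -/
theorem card_Phi_two {q a b : ℕ} (hq : q.Prime) (ha : ¬ q ∣ a) (hb : ¬ q ∣ b)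
    (hab : ¬ q ∣ a + b) : 2 * (Phi q a b).card = q - 1 := by
  have ha' : Nat.Coprime a q := ((Nat.Prime.coprime_iff_not_dvd hq).2 ha).symm
  have hb' : Nat.Coprime b q := ((Nat.Prime.coprime_iff_not_dvd hq).2 hb).symm
  have hab' : Nat.Coprime (a + b) q := ((Nat.Prime.coprime_iff_not_dvd hq).2 hab).symm
  have hq1 := hq.two_le
  have hsplit := Finset.card_filter_add_card_filter_not (s := Icc 1 (q - 1))
    (fun u => q < (u * a) % q + (u * b) % q)
  rw [Nat.card_Icc] at hsplit
  have heq : ((Icc 1 (q - 1)).filter fun u => ¬ q < (u * a) % q + (u * b) % q).card =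
      (Phi q a b).card := by
    refine Finset.card_bij (fun u _ => q - u) ?_ ?_ ?_
    · intro u hu
      rw [mem_filter, mem_Icc] at hu
      unfold Phi
      rw [mem_filter, mem_Icc]
      have h1 := (Sgb_mod ha' hu.1.1 (by omega)).2
      have h2 := (Sgb_mod hb' hu.1.1 (by omega)).2
      have h3 := Sgb_ne hab' hu.1.1 (show u < q by omega)
      omega
    · intro u hu v hv h
      rw [mem_filter, mem_Icc] at hu hv
      have h' : q - u = q - v := h
      omega
    · intro v hv
      unfold Phi at hv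
      rw [mem_filter, mem_Icc] at hv
      have h1 := (Sgb_mod ha' hv.1.1 (by omega)).2
      have h2 := (Sgb_mod hb' hv.1.1 (by omega)).2
      refine ⟨q - v, ?_, ?_⟩
      · rw [mem_filter, mem_Icc]
        omega
      · show q - (q - v) = v
        omega
  have h4 : (Phi q a b).card =
      ((Icc 1 (q - 1)).filter fun u => q < (u * a) % q + (u * b) % q).card := rfl
  omega

/-- PROOF. `q` is odd. -/
theorem two_g {q : ℕ} (hq : q.Prime) (h3 : 3 ≤ q) : 2 * ((q - 1) / 2) = q - 1 := by
  have h := hq.eq_one_or_self_of_dvd 2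
  have h2 : ¬ 2 ∣ q := by
    intro h4
    have := h h4
    omega
  omega

/-- PROOF. `card_Phi_two`, `two_g`. -/
theorem card_Phi_eq {q a b : ℕ} (hq : q.Prime) (ha : ¬ q ∣ a) (hb : ¬ q ∣ b)
    (hab : ¬ q ∣ a + b) : (Phi q a b).card = (q - 1) / 2 := by
  have h := card_Phi_two hq ha hb hab
  omega

/-- PROOF. `sg_of_le`. -/
theorem infinite_sg {q a b : ℕ} (hq : q.Prime) (hab : ¬ q ∣ a + b) :
    (Set.ofPred (sg q a b)).Infinite := by
  rw [Set.infinite_iff_exists_gt]
  intro n
  exact ⟨max (n + 1) (q - 1), sg_of_le hq hab (le_max_right _ _),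
    lt_of_lt_of_le (Nat.lt_succ_self n) (le_max_left _ _)⟩

theorem sg_nn {q a b : ℕ} (hq : q.Prime) (hab : ¬ q ∣ a + b) (j : ℕ) : sg q a b (nn q a b j) := by
  exact Nat.nth_mem_of_infinite (infinite_sg hq hab) j

theorem nn_strictMono {q a b : ℕ} (hq : q.Prime) (hab : ¬ q ∣ a + b) :
    StrictMono (nn q a b) := by
  exact Nat.nth_strictMono (infinite_sg hq hab)

theorem nn_zero {q a b : ℕ} (hq : q.Prime) (hab : ¬ q ∣ a + b) : nn q a b 0 = 0 := by
  exact Nat.nth_zero_of_zero (sg_zero q a b)

private theorem Sgb_gaps {q a b : ℕ} (hq : q.Prime) (ha : ¬ q ∣ a) (hb : ¬ q ∣ b)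
    (hab : ¬ q ∣ a + b) :
    ((Finset.univ : Finset (Phi q a b)).image fun u : Phi q a b => kk q a b u).card = (q - 1) / 2 := by
  rw [Finset.card_image_of_injective _ (kk_inj hq hab), Finset.card_univ, Fintype.card_coe,
    card_Phi_eq hq ha hb hab]

private theorem Sgb_count (p : ℕ → Prop) [DecidablePred p] (n : ℕ) :
    Nat.count p n + ((range n).filter fun m => ¬ p m).card = n := by
  rw [Nat.count_eq_card_filter_range, Finset.card_filter_add_card_filter_not, card_range]

/-- PROOF. The number of `n < nn j` with `sg n` is `j` (`Nat.count_nth`), the number of gaps is `g`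
(`not_sg_iff`, `kk_inj`, `card_Phi_eq`), so `nn j ≤ j + g`. -/
theorem nn_le {q a b : ℕ} (hq : q.Prime) (ha : ¬ q ∣ a) (hb : ¬ q ∣ b) (hab : ¬ q ∣ a + b)
    (h3 : 3 ≤ q) (j : ℕ) : nn q a b j ≤ (q - 1) / 2 + j := by
  classical
  have h1 : Nat.count (sg q a b) (nn q a b j) = j := Nat.count_nth_of_infinite (infinite_sg hq hab) j
  have h2 := Sgb_count (sg q a b) (nn q a b j)
  have h4 : ((range (nn q a b j)).filter fun m => ¬ sg q a b m).card ≤ (q - 1) / 2 := by
    rw [← Sgb_gaps hq ha hb hab]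
    refine Finset.card_le_card fun m hm => ?_
    rw [mem_filter] at hm
    obtain ⟨u, hu⟩ := (not_sg_iff hq hab m).1 hm.2
    rw [mem_image]
    exact ⟨u, mem_univ _, hu⟩
  omega

/-- PROOF. Let `n = g + j ≥ 2 g = q - 1`. Then `sg n` (`sg_of_le`), and all `g` gaps are below `n`
(`kk_le`), so the number of `m < n` with `sg m` is `n - g = j`; `Nat.nth_count`. -/
theorem nn_eq {q a b : ℕ} (hq : q.Prime) (ha : ¬ q ∣ a) (hb : ¬ q ∣ b) (hab : ¬ q ∣ a + b)
    (h3 : 3 ≤ q) {j : ℕ} (hj : (q - 1) / 2 ≤ j) : nn q a b j = (q - 1) / 2 + j := by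
  classical
  have h0 := two_g hq h3
  have hn : sg q a b ((q - 1) / 2 + j) := sg_of_le hq hab (by omega)
  have h2 := Sgb_count (sg q a b) ((q - 1) / 2 + j)
  have h4 : ((range ((q - 1) / 2 + j)).filter fun m => ¬ sg q a b m).card = (q - 1) / 2 := by
    refine (congrArg Finset.card ?_).trans (Sgb_gaps hq ha hb hab)
    ext m
    rw [mem_filter, mem_image, mem_range]
    constructor
    · rintro ⟨-, h⟩
      obtain ⟨u, hu⟩ := (not_sg_iff hq hab m).1 h
      exact ⟨u, mem_univ _, hu⟩
    · rintro ⟨u, -, hu⟩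
      have h5 := kk_le u
      have hu' : kk q a b u = m := hu
      exact ⟨by omega, (not_sg_iff hq hab m).2 ⟨u, hu'⟩⟩
  have h5 : Nat.count (sg q a b) ((q - 1) / 2 + j) = j := by omega
  have h6 := Nat.nth_count hn
  rw [h5] at h6
  exact h6

end Pool.Agent.Helper13.LT
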