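import Pool.Agent.Helper13.LT.Ta

/-!
PROJECT LT, block F1-F3: scaling of the truncated determinants by `x` with `x^q = 1`.

HOW TO WORK ON A FILE (captain helper13): replace the sorrys, change no statement; private lemmas or
lemmas whose name starts with the name of the file are fine; all statements of imported files may be
used although they still have sorry. If a statement is false or awkward tell helper13 at once.
-/

set_option autoImplicit false

namespace Pool.Agent.Helper13.LT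

open Finset Filter Topology
open Pool.Agent.Helper34.LT Pool.Agent.Helper11.LT

/-- PROOF. `Mt_eq`, `hl_scale`; if `ej i j l ≠ 0` then `l + nn j = g + i + q p` (`ej_ne`), so
`x^l = x^(g + i - nn j)`. -/
theorem Mt_root {q a b : ℕ} (hq : q.Prime) {x : ℂ} (hx : x ^ q = 1) (t : Phi q a b → ℂ) (i j : ℕ) :
    Mt q a b (fun u => x ^ kk q a b u * t u) i j =
      x ^ ((((q - 1) / 2 + i : ℕ) : ℤ) + -(nn q a b j : ℤ)) * Mt q a b t i j := by
  have hx0 : x ≠ 0 := by
    rintro rfl
    rw [zero_pow hq.ne_zero] at hx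
    exact zero_ne_one hx
  rw [Mt_eq hq, Mt_eq hq, ← tsum_mul_left]
  refine tsum_congr fun l => ?_
  rw [hl_scale]
  by_cases h : ej q a b i j l = 0
  · rw [h, Complex.ofReal_zero, zero_mul, zero_mul, mul_zero]
  · obtain ⟨p, hp, -⟩ := ej_ne h
    have h1 : x ^ l = x ^ ((((q - 1) / 2 + i : ℕ) : ℤ) + -(nn q a b j : ℤ)) := by
      have h2 : (l : ℤ) = (((q - 1) / 2 + i : ℕ) : ℤ) + -(nn q a b j : ℤ) + (q * p : ℕ) := by
        have h3 : ((l + nn q a b j : ℕ) : ℤ) = (((q - 1) / 2 + i + q * p : ℕ) : ℤ) := by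
          rw [hp]
        push_cast at h3 ⊢
        linarith
      rw [← zpow_natCast x l, h2, zpow_add₀ hx0, zpow_natCast x (q * p), pow_mul, hx, one_pow,
        mul_one]
    rw [h1]
    ring

/-- PROOF. `Mt_root`, `det_zpow`, `sum_exp_eq`. -/
theorem det_root {q a b : ℕ} (hq : q.Prime) (ha : ¬ q ∣ a) (hb : ¬ q ∣ b) (hab : ¬ q ∣ a + b)
    (h3 : 3 ≤ q) {N : ℕ} (hN : (q - 1) / 2 ≤ N) {x : ℂ} (hx : x ^ q = 1) (t : Phi q a b → ℂ) :
    (trn (Mt q a b (fun u => x ^ kk q a b u * t u)) N).det =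
      x ^ w0 q a b * (trn (Mt q a b t) N).det := by
  have h := det_zpow (N := N) (x := x) (by
      rintro rfl
      rw [zero_pow hq.ne_zero] at hx
      exact zero_ne_one hx)
    (fun i => (((q - 1) / 2 + i : ℕ) : ℤ)) (fun j => -(nn q a b j : ℤ)) (trn (Mt q a b t) N)
  rw [sum_exp_eq hq ha hb hab h3 hN, zpow_natCast] at h
  rw [← h]
  congr 1
  ext i j
  exact Mt_root hq hx t i j

/-- PROOF. Column `0` of `Mt 0` vanishes: `nn 0 = 0`, `hl 0 l = 0` for `l > 0`, and `g > 0`. -/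
theorem det_zero {q a b : ℕ} (hq : q.Prime) (hab : ¬ q ∣ a + b) (h3 : 3 ≤ q) {N : ℕ} (hN : 0 < N) :
    (trn (Mt q a b 0) N).det = 0 := by
  refine Matrix.det_eq_zero_of_column_eq_zero ⟨0, hN⟩ fun i => ?_
  change Mt q a b 0 i 0 = 0
  rw [Mt_eq hq, tsum_eq_single 0]
  · have h1 : ej q a b i 0 0 = 0 := by
      unfold ej
      rw [nn_zero hq hab]
      refine if_neg fun h => ?_
      have := h.1
      omega
    rw [h1, Complex.ofReal_zero, zero_mul]
  · intro l hl
    rw [hl_zero_left, if_neg hl, mul_zero]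

/-- `g(x)` in `Mt (x e_u) = x^(g + i - nn j) Gx` -/
noncomputable def Gx (q a b i j : ℕ) (x : ℂ) : ℂ :=
  ∑' p : ℕ, if nn q a b j ≤ (q - 1) / 2 + i + q * p then
    (cc (bt q a b (nn q a b j)) p : ℂ) *
      (x ^ (q * p) / (((q - 1) / 2 + i + q * p - nn q a b j).factorial : ℂ)) else 0

/-- PROOF. Termwise in the definition of `Mt`, `hl_line`. -/
theorem Mt_line {q a b : ℕ} (u : Phi q a b) (hu : kk q a b u = 1) {x : ℂ} (hx : x ≠ 0) (i j : ℕ) :
    Mt q a b (Pi.single u x) i j =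
      x ^ ((((q - 1) / 2 + i : ℕ) : ℤ) + -(nn q a b j : ℤ)) * Gx q a b i j x := by
  unfold Mt Gx
  rw [← tsum_mul_left]
  refine tsum_congr fun p => ?_
  split_ifs with h
  · rw [hl_line u hu]
    have h1 : x ^ ((q - 1) / 2 + i + q * p - nn q a b j) =
        x ^ ((((q - 1) / 2 + i : ℕ) : ℤ) + -(nn q a b j : ℤ)) * x ^ (q * p) := by
      rw [← zpow_natCast x ((q - 1) / 2 + i + q * p - nn q a b j), ← zpow_natCast x (q * p),
        ← zpow_add₀ hx]
      congr 1
      rw [Nat.cast_sub h]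
      push_cast
      ring
    rw [h1]
    ring
  · rw [mul_zero]

/-- PROOF. `Mt_line`, `det_zpow`, `sum_exp_eq`. -/
theorem det_line {q a b : ℕ} (hq : q.Prime) (ha : ¬ q ∣ a) (hb : ¬ q ∣ b) (hab : ¬ q ∣ a + b)
    (h3 : 3 ≤ q) {N : ℕ} (hN : (q - 1) / 2 ≤ N) (u : Phi q a b) (hu : kk q a b u = 1) {x : ℂ}
    (hx : x ≠ 0) :
    (trn (Mt q a b (Pi.single u x)) N).det =
      x ^ w0 q a b * (Matrix.of fun i j : Fin N => Gx q a b i j x).det := by
  have h := det_zpow (N := N) (x := x) hx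
    (fun i => (((q - 1) / 2 + i : ℕ) : ℤ)) (fun j => -(nn q a b j : ℤ))
    (Matrix.of fun i j : Fin N => Gx q a b i j x)
  rw [sum_exp_eq hq ha hb hab h3 hN, zpow_natCast] at h
  rw [← h]
  congr 1
  ext i j
  exact Mt_line u hu hx i j

/-- the value of `Gx` at `0` -/
noncomputable def Cm (q a b : ℕ) : Mat := fun i j =>
  if nn q a b j ≤ (q - 1) / 2 + i then ((((q - 1) / 2 + i - nn q a b j).factorial : ℂ))⁻¹ else 0

theorem Gx_zero {q : ℕ} (hq : q.Prime) (a b i j : ℕ) : Gx q a b i j 0 = Cm q a b i j := by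
  unfold Gx Cm
  rw [tsum_eq_single 0]
  · rw [mul_zero, add_zero, pow_zero, cc_zero, Complex.ofReal_one, one_mul, one_div]
  · intro p hp
    rw [zero_pow (Nat.mul_ne_zero hq.ne_zero hp), zero_div, mul_zero, ite_self]

/-- PROOF. Uniform convergence on `‖x‖ ≤ 1/2`: the terms are at most `2^(-p)` (`cc_abs_le`);
`continuousOn_tsum`. -/
theorem Gx_cont {q : ℕ} (hq : q.Prime) (a b i j : ℕ) : ContinuousAt (Gx q a b i j) 0 := by
  have h : ContinuousOn (Gx q a b i j) (Metric.closedBall 0 (1 / 2)) := by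
    unfold Gx
    refine continuousOn_tsum (u := fun p : ℕ => (1 / 2 : ℝ) ^ p) (fun p => ?_)
      (summable_geometric_of_lt_one (by norm_num) (by norm_num)) fun p x hx => ?_
    · split_ifs
      · fun_prop
      · exact continuousOn_const
    · split_ifs
      · rw [mem_closedBall_zero_iff] at hx
        rw [norm_mul, norm_div, norm_pow, Complex.norm_real, Complex.norm_natCast]
        have h1 : ‖cc (bt q a b (nn q a b j)) p‖ ≤ 1 :=
          cc_abs_le (bt_nonneg _ _ _ _) (bt_lt_one hq _ _ _).le _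
        have h2 : ‖x‖ ^ (q * p) ≤ (1 / 2 : ℝ) ^ p := by
          calc ‖x‖ ^ (q * p) ≤ (1 / 2 : ℝ) ^ (q * p) :=
                pow_le_pow_left₀ (norm_nonneg _) hx _
            _ ≤ (1 / 2 : ℝ) ^ p := pow_le_pow_of_le_one (by norm_num) (by norm_num)
                (Nat.le_mul_of_pos_left p hq.pos)
        have h3 : (1 : ℝ) ≤ (((q - 1) / 2 + i + q * p - nn q a b j).factorial : ℝ) := by
          exact_mod_cast Nat.one_le_iff_ne_zero.2 (Nat.factorial_ne_zero _)
        calc ‖cc (bt q a b (nn q a b j)) p‖ *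
              (‖x‖ ^ (q * p) / (((q - 1) / 2 + i + q * p - nn q a b j).factorial : ℝ))
            ≤ 1 * (‖x‖ ^ (q * p) / 1) := by
              gcongr
          _ = ‖x‖ ^ (q * p) := by ring
          _ ≤ _ := h2
      · rw [norm_zero]
        positivity
  exact h.continuousAt (Metric.closedBall_mem_nhds 0 (by norm_num))

end Pool.Agent.Helper13.LT
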