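import Pool.Agent.Helper13.LT.Tb

/-!
PROJECT LT, block F1-F3: the leading coefficient is not zero.

HOW TO WORK ON A FILE (captain helper13): replace the sorrys, change no statement; private lemmas or
lemmas whose name starts with the name of the file are fine; all statements of imported files may be
used although they still have sorry. If a statement is false or awkward tell helper13 at once.
-/

set_option autoImplicit false

namespace Pool.Agent.Helper13.LT

open Finset Filter Topology
open Pool.Agent.Helper34.LT Pool.Agent.Helper11.LT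

/-- PROOF. `1 / (h - r)! = h (h-1) .. (h-r+1) / h!` (`0` if `r > h`), so the determinant is
`∏ (h j)!⁻¹` times `det ((h j).descFactorial r)`, which is the Vandermonde determinant of the `h j`
(`Matrix.det_eval_matrixOfPolynomials_eq_det_vandermonde` with `descPochhammer ℂ r`, transposed),
`Matrix.det_vandermonde_ne_zero_iff`. -/
theorem det_inv_fact {g : ℕ} (h : Fin g → ℕ) (hh : Function.Injective h) :
    (Matrix.of fun r j : Fin g =>
      if (r : ℕ) ≤ h j then ((((h j) - r).factorial : ℂ))⁻¹ else 0).det ≠ 0 := by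
  have h1 : (Matrix.of fun r j : Fin g =>
      if (r : ℕ) ≤ h j then ((((h j) - r).factorial : ℂ))⁻¹ else 0) =
      Matrix.of fun r j : Fin g => ((h j).factorial : ℂ)⁻¹ *
        (Matrix.of fun r j : Fin g => ((h j).descFactorial r : ℂ)) r j := by
    ext r j
    simp only [Matrix.of_apply]
    split_ifs with hr
    · have h3 : ((((h j) - r).factorial : ℂ)) * ((h j).descFactorial r : ℂ) =
          ((h j).factorial : ℂ) := by
        exact_mod_cast Nat.factorial_mul_descFactorial hr
      have h4 : ((((h j) - r).factorial : ℂ)) ≠ 0 := by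
        exact_mod_cast Nat.factorial_ne_zero _
      have h5 : ((h j).factorial : ℂ) ≠ 0 := by
        exact_mod_cast Nat.factorial_ne_zero _
      rw [eq_comm, inv_mul_eq_iff_eq_mul₀ h5, ← div_eq_mul_inv, eq_div_iff h4, mul_comm, h3]
    · rw [Nat.descFactorial_eq_zero_iff_lt.2 (by omega), Nat.cast_zero, mul_zero]
  have h2 : (Matrix.of fun r j : Fin g => ((h j).descFactorial r : ℂ)).transpose =
      Matrix.of (fun i j : Fin g => ((descPochhammer ℂ (j : ℕ)).eval ((h i : ℕ) : ℂ))) := by
    ext i j
    rw [Matrix.transpose_apply, Matrix.of_apply, Matrix.of_apply,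
      descPochhammer_eval_eq_descFactorial]
  rw [h1, Matrix.det_mul_row]
  refine mul_ne_zero (Finset.prod_ne_zero_iff.2 fun j _ => inv_ne_zero ?_) ?_
  · exact_mod_cast Nat.factorial_ne_zero _
  · rw [← Matrix.det_transpose, h2, ← Matrix.det_eval_matrixOfPolynomials_eq_det_vandermonde
      (fun i => ((h i : ℕ) : ℂ)) (fun j => descPochhammer ℂ (j : ℕ))
      (fun i => descPochhammer_natDegree ℂ _) (fun i => monic_descPochhammer ℂ _),
      Matrix.det_vandermonde_ne_zero_iff]
    intro x y hxy
    exact hh (Nat.cast_injective (R := ℂ) hxy)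

/-- PROOF. `det_inv_fact` with `h j = 2 g - 1 - nn j` and the rows in reverse order `r = g - 1 - i`
(`Matrix.det_permute` with `Fin.revPerm`): `nn j ≤ g + j ≤ 2 g - 1`. -/
theorem Cm_det_g {q a b : ℕ} (hq : q.Prime) (ha : ¬ q ∣ a) (hb : ¬ q ∣ b) (hab : ¬ q ∣ a + b)
    (h3 : 3 ≤ q) : (trn (Cm q a b) ((q - 1) / 2)).det ≠ 0 := by
  have hj : ∀ j : Fin ((q - 1) / 2), nn q a b j ≤ 2 * ((q - 1) / 2) - 1 := by
    intro j
    have h1 := nn_le hq ha hb hab h3 (j : ℕ)
    have h2 := j.2
    omega
  have h1 : trn (Cm q a b) ((q - 1) / 2) = (Matrix.of fun r j : Fin ((q - 1) / 2) =>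
      if (r : ℕ) ≤ 2 * ((q - 1) / 2) - 1 - nn q a b j then
        ((((2 * ((q - 1) / 2) - 1 - nn q a b j) - r).factorial : ℂ))⁻¹ else 0).submatrix
      Fin.revPerm id := by
    ext i j
    have h2 := hj j
    have h4 := i.2
    have h5 : ((Fin.revPerm i : Fin ((q - 1) / 2)) : ℕ) = (q - 1) / 2 - (i + 1) := by
      rw [Fin.revPerm_apply, Fin.val_rev]
    rw [Matrix.submatrix_apply, Matrix.of_apply, id, h5]
    change (if nn q a b j ≤ (q - 1) / 2 + i then
      ((((q - 1) / 2 + i - nn q a b j).factorial : ℂ))⁻¹ else 0) = _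
    by_cases h6 : nn q a b j ≤ (q - 1) / 2 + i
    · rw [if_pos h6, if_pos (by omega)]
      have h7 : 2 * ((q - 1) / 2) - 1 - nn q a b j - ((q - 1) / 2 - (i + 1)) =
        (q - 1) / 2 + i - nn q a b j := by omega
      rw [h7]
    · rw [if_neg h6, if_neg (by omega)]
  rw [h1, Matrix.det_permute]
  refine mul_ne_zero ?_ (det_inv_fact (fun j => 2 * ((q - 1) / 2) - 1 - nn q a b j) ?_)
  · exact_mod_cast (Equiv.Perm.sign _).ne_zero
  · intro x y hxy
    have h2 := hj x
    have h4 := hj y
    have h5 : nn q a b x = nn q a b y := by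
      simp only [] at hxy
      omega
    exact Fin.ext ((nn_strictMono hq hab).injective h5)

/-- PROOF. Induction on `N ≥ g`: the last column of `trn Cm (N+1)` is `0` except for `1` in the last row
(`nn N = g + N`): `Matrix.det_succ_column` with `Fin.last N`. -/
theorem Cm_det {q a b : ℕ} (hq : q.Prime) (ha : ¬ q ∣ a) (hb : ¬ q ∣ b) (hab : ¬ q ∣ a + b)
    (h3 : 3 ≤ q) {N : ℕ} (hN : (q - 1) / 2 ≤ N) : (trn (Cm q a b) N).det ≠ 0 := by
  induction N, hN using Nat.le_induction with
  | base => exact Cm_det_g hq ha hb hab h3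
  | succ N hN ih =>
    rw [Matrix.det_succ_column _ (Fin.last N), Finset.sum_eq_single (Fin.last N)]
    · have h1 : trn (Cm q a b) (N + 1) (Fin.last N) (Fin.last N) = 1 := by
        change (if nn q a b N ≤ (q - 1) / 2 + N then
          ((((q - 1) / 2 + N - nn q a b N).factorial : ℂ))⁻¹ else 0) = 1
        rw [nn_eq hq ha hb hab h3 hN, if_pos le_rfl, Nat.sub_self]
        simp
      have h2 : (trn (Cm q a b) (N + 1)).submatrix (Fin.last N).succAbove
          (Fin.last N).succAbove = trn (Cm q a b) N := by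
        ext i j
        rw [Matrix.submatrix_apply, Fin.succAbove_last]
        rfl
      rw [h1, h2, mul_one]
      exact mul_ne_zero (pow_ne_zero _ (by norm_num)) ih
    · intro i _ hi
      have h0 : (i : ℕ) < N := by
        have h4 := i.2
        have h5 : (i : ℕ) ≠ N := fun h => hi (Fin.ext h)
        omega
      have h1 : trn (Cm q a b) (N + 1) i (Fin.last N) = 0 := by
        change (if nn q a b N ≤ (q - 1) / 2 + i then
          ((((q - 1) / 2 + i - nn q a b N).factorial : ℂ))⁻¹ else 0) = 0
        rw [nn_eq hq ha hb hab h3 hN, if_neg (by omega)]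
      rw [h1, mul_zero, zero_mul]
    · intro h
      exact absurd (Finset.mem_univ _) h

end Pool.Agent.Helper13.LT
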