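import Pool.Agent.Helper13.LT.Tc
import Pool.Agent.Helper13.LT.Fac
import Pool.Agent.Helper13.LT.Rtl

/-!
PROJECT LT, block F1-F3: the targets.

HOW TO WORK ON A FILE (captain helper13): replace the sorrys, change no statement; private lemmas or
lemmas whose name starts with the name of the file are fine; all statements of imported files may be
used although they still have sorry. If a statement is false or awkward tell helper13 at once.
-/

set_option autoImplicit false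

namespace Pool.Agent.Helper13.LT

open Finset Filter Topology
open Pool.Agent.Helper34.LT Pool.Agent.Helper11.LT

/-- PROOF. `PS.line`, `det_line`, `one_order` with `H x = det (Gx x)` (continuous at `0` by `Gx_cont`, a
polynomial in the entries), `Gx_zero`, `Cm_det`. -/
theorem coef_ne {q a b : ℕ} (hq : q.Prime) (ha : ¬ q ∣ a) (hb : ¬ q ∣ b) (hab : ¬ q ∣ a + b)
    (h3 : 3 ≤ q) {N : ℕ} (hN : (q - 1) / 2 ≤ N) {c : (Phi q a b → ℕ) → ℂ}
    (hc : PS c (Fn q a b N)) (u : Phi q a b) (hu : kk q a b u = 1) :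
    c (Pi.single u (w0 q a b)) ≠ 0 := by
  have h1 : ∀ x : ℂ, HasSum (fun n : ℕ => c (Pi.single u n) * x ^ n)
      (Fn q a b N (Pi.single u x)) := fun x => hc.line u x
  have h2 := one_order (H := fun x => (Matrix.of fun i j : Fin N => Gx q a b i j x).det) h1
    (w0 q a b) (fun x hx => det_line hq ha hb hab h3 hN u hu hx) ?_
  · rw [h2.2]
    have h4 : (Matrix.of fun i j : Fin N => Gx q a b i j 0) = trn (Cm q a b) N := by
      ext i j
      simp only [Matrix.of_apply, trn]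
      exact Gx_zero hq a b i j
    rw [h4]
    exact Cm_det hq ha hb hab h3 hN
  · simp only [Matrix.det_apply]
    refine tendsto_finsetSum _ fun σ _ => ?_
    refine Tendsto.const_smul ?_ _
    refine tendsto_finsetProd _ fun i _ => ?_
    simp only [Matrix.of_apply]
    exact Gx_cont hq a b _ _

theorem tau_rt' {q a b : ℕ} (hq : q.Prime) (ha : ¬ q ∣ a) (hb : ¬ q ∣ b) (hab : ¬ q ∣ a + b)
    (h3 : 3 ≤ q) : RT (q ^ q) 0 (tauF q a b) := by
  have hD : 1 ≤ q ^ q := Nat.one_le_pow _ _ hq.pos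
  refine RT.lim hD (f := fun n => Fn q a b (n + (q - 1) / 2)) (fun n => ?_) fun R => ?_
  · exact Fn_RT hq ha hb hab h3 (Nat.le_add_left _ _)
  · intro u hu
    exact (tendsto_add_atTop_nat ((q - 1) / 2)).eventually (Fn_unif hq ha hb hab h3 R u hu)

theorem tau_diff (q a b : ℕ) (hq : q.Prime) (ha : ¬ q ∣ a) (hb : ¬ q ∣ b) (hab : ¬ q ∣ a + b)
    (h3 : 3 ≤ q) : Differentiable ℂ (tauF q a b) := by
  exact RT.diff (Nat.one_le_pow _ _ hq.pos) (tau_rt' hq ha hb hab h3)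

theorem tau_zero (q a b : ℕ) (hq : q.Prime) (ha : ¬ q ∣ a) (hb : ¬ q ∣ b) (hab : ¬ q ∣ a + b)
    (h3 : 3 ≤ q) : tauF q a b 0 = 0 := by
  have h := Fn_tendsto hq ha hb hab h3 (0 : Phi q a b → ℂ)
  refine tendsto_nhds_unique h ?_
  refine tendsto_const_nhds.congr' ?_
  filter_upwards [eventually_gt_atTop 0] with N hN
  exact (det_zero hq hab h3 hN).symm

theorem tau_ne (q a b : ℕ) (hq : q.Prime) (ha : ¬ q ∣ a) (hb : ¬ q ∣ b) (hab : ¬ q ∣ a + b)
    (h3 : 3 ≤ q) : ∃ t, tauF q a b t ≠ 0 := by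
  have hD : 1 ≤ q ^ q := Nat.one_le_pow _ _ hq.pos
  obtain ⟨u, hu⟩ := exists_kk_one hq ha hb hab
  have hRT : ∀ n, RT (q ^ q) 0 (Fn q a b (n + (q - 1) / 2)) := fun n =>
    Fn_RT hq ha hb hab h3 (Nat.le_add_left _ _)
  choose c hc _ using fun n => (RT_iff hD).1 (hRT n)
  refine RT.lim_ne hD hRT hc (fun R => ?_) (Pi.single u (w0 q a b))
    (Eventually.of_forall fun n => ?_)
  · intro v hv
    exact (tendsto_add_atTop_nat ((q - 1) / 2)).eventually (Fn_unif hq ha hb hab h3 R v hv)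
  · exact coef_ne hq ha hb hab h3 (Nat.le_add_left _ _) (hc n) u hu

theorem tau_rt (q a b : ℕ) (hq : q.Prime) (ha : ¬ q ∣ a) (hb : ¬ q ∣ b) (hab : ¬ q ∣ a + b)
    (h3 : 3 ≤ q) : ∃ D : ℕ, 1 ≤ D ∧ RT D 1 (tauF q a b) := by
  have hD : 1 ≤ q ^ q := Nat.one_le_pow _ _ hq.pos
  exact ⟨q ^ q, hD, RT.mono hD hD dvd_rfl (Nat.zero_le 1) (tau_rt' hq ha hb hab h3)⟩

theorem tau_sym (q a b : ℕ) (hq : q.Prime) (ha : ¬ q ∣ a) (hb : ¬ q ∣ b) (hab : ¬ q ∣ a + b)
    (h3 : 3 ≤ q) : ∃ w : ℕ, ∀ z : Phi q a b → ℂ,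
      tauF q a b (fun u => zt q ^ ((u : ℕ) * (a + b)) * z u) = zt q ^ w * tauF q a b z := by
  refine ⟨w0 q a b, fun z => ?_⟩
  have h0 : (fun u : Phi q a b => zt q ^ ((u : ℕ) * (a + b)) * z u) =
      fun u : Phi q a b => zt q ^ kk q a b u * z u := funext fun u => by rw [zt_pow_kk hq u]
  rw [h0]
  have h1 := Fn_tendsto hq ha hb hab h3 (fun u : Phi q a b => zt q ^ kk q a b u * z u)
  have h2 := (Fn_tendsto hq ha hb hab h3 z).const_mul (zt q ^ w0 q a b)
  refine tendsto_nhds_unique h1 (h2.congr' ?_)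
  filter_upwards [eventually_ge_atTop ((q - 1) / 2)] with N hN
  exact (det_root hq ha hb hab h3 hN (zt_pow_q hq) z).symm

end Pool.Agent.Helper13.LT
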